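import Mathlib

/-!
# The polarized characteristic polynomial of matrices
-/

set_option autoImplicit false

namespace Pool.Agent.L5helper16.PP

open Matrix Finset Equiv

section mat

variable {Ω : Type*} [CommRing Ω] {n : ℕ}

/-- the polarization of `k!` times the `k`-th coefficient of the characteristic polynomial -/
def FF (k : ℕ) (A : Fin k → Matrix (Fin n) (Fin n) Ω) : Ω :=
  ∑ i : Fin k → Fin n, (Matrix.of fun a b => A a (i a) (i b)).det

lemma det_row {k : ℕ} (M : Matrix (Fin k) (Fin k) Ω) :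
    M.det = ∑ σ : Perm (Fin k), (Perm.sign σ : Ω) * ∏ a, M a (σ a) := by
  rw [← det_transpose, det_apply']
  rfl

lemma FF_perm (k : ℕ) (A : Fin k → Matrix (Fin n) (Fin n) Ω) :
    FF k A = ∑ e : Perm (Fin k), ∑ i : Fin k → Fin n, (Perm.sign e : Ω) * ∏ a, A a (i a) (i (e a)) := by
  unfold FF
  rw [sum_comm]
  refine sum_congr rfl fun i _ => ?_
  rw [det_row]
  rfl

lemma FF_zero (A : Fin 0 → Matrix (Fin n) (Fin n) Ω) : FF 0 A = 1 := by
  unfold FF
  simp

/-- expansion along the first row -/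
lemma FF_cons (k : ℕ) (B : Matrix (Fin n) (Fin n) Ω) (A : Fin k → Matrix (Fin n) (Fin n) Ω) :
    FF (k + 1) (Fin.cons B A) = B.trace * FF k A - ∑ b, FF k (Function.update A b (A b * B)) := by
  have h1 : FF (k + 1) (Fin.cons B A) = ∑ e : Perm (Fin k), ∑ i : Fin k → Fin n, ∑ i0 : Fin n,
      ∑ p : Fin (k + 1), (Perm.sign (Equiv.Perm.decomposeFin.symm (p, e)) : Ω) *
        (B i0 ((Fin.cons i0 i : Fin (k + 1) → Fin n) (Equiv.Perm.decomposeFin.symm (p, e) 0)) *
        ∏ a : Fin k, A a (i a) ((Fin.cons i0 i : Fin (k + 1) → Fin n)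
          (Equiv.Perm.decomposeFin.symm (p, e) a.succ))) := by
    rw [FF_perm, ← Equiv.sum_comp Equiv.Perm.decomposeFin.symm, Fintype.sum_prod_type, sum_comm]
    refine sum_congr rfl fun e _ => ?_
    rw [sum_comm, ← Equiv.sum_comp (Fin.consEquiv (fun _ : Fin (k + 1) => Fin n)), Fintype.sum_prod_type, sum_comm]
    refine sum_congr rfl fun i _ => sum_congr rfl fun i0 _ => sum_congr rfl fun p _ => ?_
    rw [Fin.prod_univ_succ]
    rfl
  rw [h1]
  have h2 : ∀ (e : Perm (Fin k)) (i : Fin k → Fin n) (i0 : Fin n),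
      (∑ p : Fin (k + 1), (Perm.sign (Equiv.Perm.decomposeFin.symm (p, e)) : Ω) *
        (B i0 ((Fin.cons i0 i : Fin (k + 1) → Fin n) (Equiv.Perm.decomposeFin.symm (p, e) 0)) *
        ∏ a : Fin k, A a (i a) ((Fin.cons i0 i : Fin (k + 1) → Fin n)
          (Equiv.Perm.decomposeFin.symm (p, e) a.succ)))) =
      B i0 i0 * ((Perm.sign e : Ω) * ∏ a, A a (i a) (i (e a))) - ∑ b : Fin k, (Perm.sign e : Ω) *
        ((A b (i b) i0 * B i0 (i (e b))) * ∏ a ∈ univ.erase b, A a (i a) (i (e a))) := by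
    intro e i i0
    rw [Fin.sum_univ_succ, sub_eq_add_neg]
    congr 1
    · simp only [Equiv.Perm.decomposeFin.symm_sign, if_true, one_mul, Equiv.Perm.decomposeFin_symm_apply_zero,
        Fin.cons_zero, Equiv.Perm.decomposeFin_symm_apply_succ, swap_self, Equiv.refl_apply, Fin.cons_succ]
      ring
    · rw [← Equiv.sum_comp e, ← sum_neg_distrib]
      refine sum_congr rfl fun b _ => ?_
      simp only [Equiv.Perm.decomposeFin.symm_sign, Fin.succ_ne_zero, if_false, Equiv.Perm.decomposeFin_symm_apply_zero,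
        Fin.cons_succ, Equiv.Perm.decomposeFin_symm_apply_succ]
      rw [← mul_prod_erase univ _ (mem_univ b), swap_apply_right, Fin.cons_zero]
      have h3 : ∏ a ∈ univ.erase b, A a (i a) ((Fin.cons i0 i : Fin (k + 1) → Fin n)
          (swap 0 (e b).succ (e a).succ)) = ∏ a ∈ univ.erase b, A a (i a) (i (e a)) := by
        refine prod_congr rfl fun a ha => ?_
        rw [mem_erase] at ha
        rw [swap_apply_of_ne_of_ne (Fin.succ_ne_zero _) (by
          intro h
          exact ha.1 (e.injective (Fin.succ_injective _ h))), Fin.cons_succ]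
      rw [h3]
      push_cast
      ring
  simp_rw [h2]
  simp only [sum_sub_distrib]
  congr 1
  · rw [FF_perm, Matrix.trace, mul_sum]
    refine sum_congr rfl fun e _ => ?_
    rw [mul_sum]
    refine sum_congr rfl fun i _ => ?_
    rw [← sum_mul]
    rfl
  · simp_rw [FF_perm]
    have h4 : ∀ e : Perm (Fin k), (∑ i : Fin k → Fin n, ∑ i0 : Fin n, ∑ b : Fin k, (Perm.sign e : Ω) *
        ((A b (i b) i0 * B i0 (i (e b))) * ∏ a ∈ univ.erase b, A a (i a) (i (e a)))) =
        ∑ b : Fin k, ∑ i : Fin k → Fin n, (Perm.sign e : Ω) *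
          ∏ a, (Function.update A b (A b * B)) a (i a) (i (e a)) := by
      intro e
      conv_rhs => rw [sum_comm]
      refine sum_congr rfl fun i _ => ?_
      rw [sum_comm]
      refine sum_congr rfl fun b _ => ?_
      rw [← mul_sum, ← mul_prod_erase univ _ (mem_univ b), Function.update_self, Matrix.mul_apply, ← sum_mul]
      congr 2
      refine prod_congr rfl fun a ha => ?_
      rw [mem_erase] at ha
      rw [Function.update_of_ne ha.1]
    conv_rhs => rw [sum_comm]
    exact sum_congr rfl fun e _ => h4 e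

/-- no alternating functions of more than `n` vectors -/
lemma FF_large (k : ℕ) (hk : n < k) (A : Fin k → Matrix (Fin n) (Fin n) Ω) : FF k A = 0 := by
  unfold FF
  refine sum_eq_zero fun i _ => ?_
  obtain ⟨a, b, hab, h⟩ := Fintype.exists_ne_map_eq_of_card_lt i (by simpa using hk)
  refine det_zero_of_column_eq hab fun c => ?_
  simp only [of_apply, h]

/-- `k = n`: mixed discriminant -/
lemma FF_top (A : Fin n → Matrix (Fin n) (Fin n) Ω) :
    FF n A = ∑ ρ : Perm (Fin n), (Perm.sign ρ : Ω) * (Matrix.of fun j a => A a j (ρ a)).det := by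
  have h1 : FF n A = ∑ τ : Perm (Fin n), (Matrix.of fun a b => A a (τ a) (τ b)).det := by
    unfold FF
    symm
    refine sum_of_injOn (fun τ : Perm (Fin n) => (τ : Fin n → Fin n)) ?_ ?_ ?_ ?_
    · intro x _ y _ h
      exact Equiv.coe_fn_injective h
    · intro x _
      simp
    · intro i _ hi
      by_cases hinj : Function.Injective i
      · exfalso
        apply hi
        exact ⟨Equiv.ofBijective i (Finite.injective_iff_bijective.mp hinj), by simp, rfl⟩
      · rw [Function.not_injective_iff] at hinj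
        obtain ⟨a, b, h, hab⟩ := hinj
        refine det_zero_of_column_eq hab fun c => ?_
        simp only [of_apply, h]
    · intro τ _
      rfl
  rw [h1]
  have h2 : ∀ τ : Perm (Fin n), (Matrix.of fun a b => A a (τ a) (τ b)).det =
      (Perm.sign τ : Ω) * (Matrix.of fun a b => A a (τ a) b).det := by
    intro τ
    rw [← det_permute' τ (Matrix.of fun a b => A a (τ a) b)]
    rfl
  have h3 : ∀ τ : Perm (Fin n), (Perm.sign τ : Ω) * (Matrix.of fun a b => A a (τ a) b).det =
      ∑ ρ : Perm (Fin n), (Perm.sign ρ : Ω) * ((Perm.sign τ : Ω) * ∏ a, A a (τ a) (ρ a)) := by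
    intro τ
    rw [det_row, mul_sum]
    refine sum_congr rfl fun ρ _ => ?_
    simp only [of_apply]
    ring
  have h4 : ∀ ρ : Perm (Fin n), (Perm.sign ρ : Ω) * (Matrix.of fun j a => A a j (ρ a)).det =
      ∑ τ : Perm (Fin n), (Perm.sign ρ : Ω) * ((Perm.sign τ : Ω) * ∏ a, A a (τ a) (ρ a)) := by
    intro ρ
    rw [det_apply', mul_sum]
    rfl
  simp_rw [h2, h3, h4]
  rw [sum_comm]

lemma FF_mul (C : Matrix (Fin n) (Fin n) Ω) (A : Fin n → Matrix (Fin n) (Fin n) Ω) :
    FF n (fun a => C * A a) = C.det * FF n A := by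
  rw [FF_top, FF_top, mul_sum]
  refine sum_congr rfl fun ρ _ => ?_
  have h : (Matrix.of fun j a => (C * A a) j (ρ a)) = C * (Matrix.of fun j a => A a j (ρ a)) := by
    ext j a
    simp [Matrix.mul_apply]
  rw [h, det_mul]
  ring

lemma FF_diag (A : Matrix (Fin n) (Fin n) Ω) : FF n (fun _ => A) = (n.factorial : Ω) * A.det := by
  rw [FF_top]
  have h : ∀ ρ : Perm (Fin n), (Perm.sign ρ : Ω) * (Matrix.of fun j a => A j (ρ a)).det = A.det := by
    intro ρ
    have h1 : (Matrix.of fun j a => A j (ρ a)) = A.submatrix id ρ := rfl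
    rw [h1, det_permute', ← mul_assoc]
    have h2 : (Perm.sign ρ : Ω) * (Perm.sign ρ : Ω) = 1 := by
      rw [← Int.cast_mul, ← Units.val_mul, Int.units_mul_self]
      simp
    rw [h2, one_mul]
  simp_rw [h]
  rw [sum_const, card_univ, Fintype.card_perm, Fintype.card_fin, nsmul_eq_mul]

end mat

section mat2

variable {Ω : Type*} [CommRing Ω] {m : ℕ}

/-- the relation `R_n`, `n = m + 1` -/
lemma FF_base (A0 : GL (Fin (m + 1)) Ω) (A : Fin m → Matrix (Fin (m + 1)) (Fin (m + 1)) Ω) :
    FF (m + 1) (Fin.cons (A0 : Matrix (Fin (m + 1)) (Fin (m + 1)) Ω) A) =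
      (A0 : Matrix (Fin (m + 1)) (Fin (m + 1)) Ω).det *
        FF m (fun a => ((A0⁻¹ : GL (Fin (m + 1)) Ω) : Matrix (Fin (m + 1)) (Fin (m + 1)) Ω) * A a) := by
  have h1 : (Fin.cons (A0 : Matrix (Fin (m + 1)) (Fin (m + 1)) Ω) A : Fin (m + 1) → _) =
      fun a => (A0 : Matrix (Fin (m + 1)) (Fin (m + 1)) Ω) * (Fin.cons (1 : Matrix (Fin (m + 1)) (Fin (m + 1)) Ω)
        (fun a => ((A0⁻¹ : GL (Fin (m + 1)) Ω) : Matrix (Fin (m + 1)) (Fin (m + 1)) Ω) * A a) : Fin (m + 1) → _) a := by
    funext a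
    refine Fin.cases ?_ (fun a => ?_) a
    · simp
    · rw [Fin.cons_succ, Fin.cons_succ, ← mul_assoc, ← Units.val_mul, mul_inv_cancel, Units.val_one, one_mul]
  rw [h1, FF_mul, FF_cons]
  congr 1
  simp only [mul_one, Function.update_eq_self, Matrix.trace_one, Fintype.card_fin, sum_const, card_univ, nsmul_eq_mul]
  push_cast
  ring

end mat2

end Pool.Agent.L5helper16.PP
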