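import Pool.Agent.L5helper16.PP.A

/-!
# The polarized characteristic polynomial of a linear function on an algebra
-/

set_option autoImplicit false

namespace Pool.Agent.L5helper16.PP

open Matrix Finset

section gg

variable {Ω : Type*} [CommRing Ω] {𝒜 : Type*} [Ring 𝒜] [Algebra Ω 𝒜]

lemma comp_upd {k : ℕ} (G : MultilinearMap Ω (fun _ : Fin k => 𝒜) Ω) (b : Fin k) (h : 𝒜) (g : Fin k → 𝒜) :
    (G.compLinearMap (fun a => if a = b then LinearMap.mulRight Ω h else LinearMap.id)) g =
      G (Function.update g b (g b * h)) := by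
  rw [MultilinearMap.compLinearMap_apply]
  congr 1
  funext a
  by_cases hab : a = b
  · subst hab
    simp
  · rw [if_neg hab, Function.update_of_ne hab, LinearMap.id_apply]

/-- the polarized characteristic polynomial of the linear function `T` -/
noncomputable def GG (T : 𝒜 →ₗ[Ω] Ω) : (k : ℕ) → MultilinearMap Ω (fun _ : Fin k => 𝒜) Ω
  | 0 => MultilinearMap.constOfIsEmpty Ω _ 1
  | k + 1 => LinearMap.uncurryLeft
      { toFun := fun h => T h • GG T k - ∑ b : Fin k, (GG T k).compLinearMap
          (fun a => if a = b then LinearMap.mulRight Ω h else LinearMap.id)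
        map_add' := by
          intro h h'
          ext g
          simp only [_root_.sub_apply, _root_.smul_apply, _root_.sum_apply, comp_upd,
            _root_.add_apply, map_add, mul_add, MultilinearMap.map_update_add, sum_add_distrib, smul_eq_mul]
          ring
        map_smul' := by
          intro c h
          ext g
          simp only [_root_.sub_apply, _root_.smul_apply, _root_.sum_apply, comp_upd,
            map_smul, mul_smul_comm, MultilinearMap.map_update_smul, ← mul_sum, smul_eq_mul, RingHom.id_apply]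
          ring }

lemma GG_zero (T : 𝒜 →ₗ[Ω] Ω) (g : Fin 0 → 𝒜) : GG T 0 g = 1 := rfl

lemma GG_cons (T : 𝒜 →ₗ[Ω] Ω) (k : ℕ) (h : 𝒜) (g : Fin k → 𝒜) :
    GG T (k + 1) (Fin.cons h g) = T h * GG T k g - ∑ b, GG T k (Function.update g b (g b * h)) := by
  conv_lhs => rw [GG]
  rw [LinearMap.uncurryLeft_apply]
  change (T h • GG T k - ∑ b : Fin k, (GG T k).compLinearMap
          (fun a => if a = b then LinearMap.mulRight Ω h else LinearMap.id)) (Fin.tail (Fin.cons h g : Fin (k + 1) → 𝒜)) = _
  simp only [_root_.sub_apply, _root_.smul_apply, _root_.sum_apply, comp_upd, smul_eq_mul,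
    Fin.tail_cons]

lemma comp_cons {M N : Type*} (α : M → N) {k : ℕ} (x : M) (g : Fin k → M) :
    α ∘ (Fin.cons x g : Fin (k + 1) → M) = Fin.cons (α x) (α ∘ g) := by
  funext a
  refine Fin.cases ?_ (fun a => ?_) a
  · simp
  · simp

/-- transfer along homomorphisms of monoids -/
lemma GG_transfer {ℬ : Type*} [Ring ℬ] [Algebra Ω ℬ] {M : Type*} [Monoid M] (T : 𝒜 →ₗ[Ω] Ω) (T' : ℬ →ₗ[Ω] Ω)
    (α : M →* 𝒜) (β : M →* ℬ) (h : ∀ x, T (α x) = T' (β x)) (k : ℕ) (g : Fin k → M) :
    GG T k (α ∘ g) = GG T' k (β ∘ g) := by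
  induction k with
  | zero => rfl
  | succ k ih =>
    rw [← Fin.cons_self_tail g, comp_cons, comp_cons, GG_cons, GG_cons, ih, h]
    congr 1
    refine sum_congr rfl fun b _ => ?_
    have e1 : Function.update (⇑α ∘ Fin.tail g) b ((⇑α ∘ Fin.tail g) b * α (g 0)) =
        ⇑α ∘ Function.update (Fin.tail g) b (Fin.tail g b * g 0) := by
      rw [Function.comp_update, map_mul]
      rfl
    have e2 : Function.update (⇑β ∘ Fin.tail g) b ((⇑β ∘ Fin.tail g) b * β (g 0)) =
        ⇑β ∘ Function.update (Fin.tail g) b (Fin.tail g b * g 0) := by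
      rw [Function.comp_update, map_mul]
      rfl
    rw [e1, e2, ih]

lemma GG_hom {ℬ : Type*} [Ring ℬ] [Algebra Ω ℬ] (T : 𝒜 →ₗ[Ω] Ω) (φ : ℬ →ₐ[Ω] 𝒜) (k : ℕ) (g : Fin k → ℬ) :
    GG (T.comp φ.toLinearMap) k g = GG T k (φ ∘ g) :=
  GG_transfer (M := ℬ) (T.comp φ.toLinearMap) T (MonoidHom.id ℬ) (φ : ℬ →* 𝒜) (fun _ => rfl) k g

/-- idempotents -/
lemma GG_idem (T : 𝒜 →ₗ[Ω] Ω) (e : 𝒜) (he : e * e = e) (k : ℕ) :
    GG T k (fun _ => e) = ∏ j ∈ range k, (T e - j) := by
  induction k with
  | zero => simp [GG_zero]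
  | succ k ih =>
    have h1 : (fun _ : Fin (k + 1) => e) = Fin.cons e (fun _ => e) := by
      funext a
      refine Fin.cases ?_ (fun a => ?_) a
      · simp
      · simp
    rw [h1, GG_cons, he, prod_range_succ]
    have h2 : ∀ b : Fin k, Function.update (fun _ : Fin k => e) b e = fun _ => e := by
      intro b
      exact Function.update_eq_self b (fun _ => e)
    simp_rw [h2]
    rw [sum_const, card_univ, Fintype.card_fin, ih, nsmul_eq_mul]
    ring

/-- square zero elements -/
lemma GG_sq (T : 𝒜 →ₗ[Ω] Ω) (x : 𝒜) (hx : x * x = 0) (k : ℕ) :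
    GG T k (fun _ => x) = T x ^ k := by
  induction k with
  | zero => simp [GG_zero]
  | succ k ih =>
    have h1 : (fun _ : Fin (k + 1) => x) = Fin.cons x (fun _ => x) := by
      funext a
      refine Fin.cases ?_ (fun a => ?_) a
      · simp
      · simp
    rw [h1, GG_cons, hx]
    have h2 : ∀ b : Fin k, GG T k (Function.update (fun _ : Fin k => x) b 0) = 0 := by
      intro b
      exact (GG T k).map_update_zero _ _
    simp_rw [h2]
    rw [sum_const_zero, sub_zero, ih]
    ring

/-- matrices -/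
lemma GG_trace {n : ℕ} (k : ℕ) (A : Fin k → Matrix (Fin n) (Fin n) Ω) :
    GG (Matrix.traceLinearMap (Fin n) Ω Ω) k A = FF k A := by
  induction k with
  | zero => rw [GG_zero, FF_zero]
  | succ k ih =>
    rw [← Fin.cons_self_tail A, GG_cons, FF_cons, ih]
    simp_rw [ih]
    rfl

end gg

end Pool.Agent.L5helper16.PP
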