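import Pool.Agent.L5helper16.PP.B

/-!
# Finite dimensional algebras with a nondegenerate central linear function of dimension `n`
-/

set_option autoImplicit false

namespace Pool.Agent.L5helper16.PP

open Matrix Finset

section alg

variable {Ω : Type*} [Field Ω] {A : Type*} [Ring A] [Algebra Ω A] [FiniteDimensional Ω A]

/-- the radical is zero -/
lemma jac_zero (T : A →ₗ[Ω] Ω) (hnd : ∀ a, (∀ b, T (a * b) = 0) → a = 0) {N : ℕ}
    (hG : ∀ g : Fin N → A, GG T N g = 0) : IsSemisimpleRing A := by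
  classical
  have hart : IsArtinianRing A := IsArtinianRing.of_finite Ω A
  rw [IsArtinianRing.isSemisimpleRing_iff_jacobson]
  have hnil := IsSemiprimaryRing.isNilpotent (R := A)
  by_contra hJ
  have hmin := Nat.find_spec hnil
  have hlt : ∀ j, j < Nat.find hnil → Ring.jacobson A ^ j ≠ 0 := fun j hj => Nat.find_min hnil hj
  set m := Nat.find hnil with hm
  obtain ⟨l, hl⟩ : ∃ l, m = l + 2 := by
    rcases Nat.lt_or_ge m 2 with h | h
    · exfalso
      apply hJ
      have h1 : Ring.jacobson A ^ 1 ≤ Ring.jacobson A ^ m := Ideal.pow_le_pow_right (by omega)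
      rw [hmin, Submodule.pow_one] at h1
      exact le_bot_iff.mp h1
    · exact ⟨m - 2, by omega⟩
  apply hlt (l + 1) (by omega)
  change Ring.jacobson A ^ (l + 1) = ⊥
  rw [eq_bot_iff]
  intro x hx
  rw [Submodule.mem_bot]
  apply hnd
  intro b
  have h1 : x * b ∈ Ring.jacobson A ^ (l + 1) := (Ring.jacobson A ^ (l + 1)).mul_mem_right b hx
  have h2 : (x * b) * (x * b) ∈ Ring.jacobson A ^ (l + 1) * Ring.jacobson A ^ (l + 1) := Ideal.mul_mem_mul h1 h1
  rw [← Ideal.IsTwoSided.pow_add] at h2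
  have h3 : Ring.jacobson A ^ (l + 1 + (l + 1)) ≤ Ring.jacobson A ^ m := Ideal.pow_le_pow_right (by omega)
  have h4 := h3 h2
  rw [hmin] at h4
  have h5 : (x * b) * (x * b) = 0 := h4
  have h6 := GG_sq T (x * b) h5 N
  rw [hG] at h6
  exact IsReduced.eq_zero _ ⟨N, h6.symm⟩

end alg

section central

variable {Ω : Type*} [Field Ω]

/-- central linear functions on matrices -/
lemma central_mat {d : ℕ} (T : Matrix (Fin d) (Fin d) Ω →ₗ[Ω] Ω) (hT : ∀ a b, T (a * b) = T (b * a)) (i : Fin d)
    (M : Matrix (Fin d) (Fin d) Ω) : T M = T (Matrix.single i i 1) * M.trace := by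
  have h1 : ∀ a b : Fin d, T (Matrix.single a b 1) = if a = b then T (Matrix.single i i 1) else 0 := by
    intro a b
    split_ifs with hab
    · subst hab
      have e1 : (Matrix.single a a (1 : Ω)) = Matrix.single a i 1 * Matrix.single i a 1 := by
        rw [Matrix.single_mul_single_same, mul_one]
      have e2 : (Matrix.single i i (1 : Ω)) = Matrix.single i a 1 * Matrix.single a i 1 := by
        rw [Matrix.single_mul_single_same, mul_one]
      rw [e1, hT, ← e2]
    · have e1 : (Matrix.single a b (1 : Ω)) = Matrix.single a b 1 * Matrix.single b b 1 := by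
        rw [Matrix.single_mul_single_same, mul_one]
      rw [e1, hT, Matrix.single_mul_single_of_ne _ _ _ _ (Ne.symm hab), map_zero]
  have h2 : T M = ∑ a, ∑ b, M a b * T (Matrix.single a b 1) := by
    conv_lhs => rw [Matrix.matrix_eq_sum_single M]
    rw [map_sum]
    refine sum_congr rfl fun a _ => ?_
    rw [map_sum]
    refine sum_congr rfl fun b _ => ?_
    rw [← smul_eq_mul, ← map_smul, Matrix.smul_single, smul_eq_mul, mul_one]
  have h3 : ∀ a, ∑ b, M a b * T (Matrix.single a b 1) = M a a * T (Matrix.single i i 1) := by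
    intro a
    rw [sum_eq_single a]
    · rw [h1, if_pos rfl]
    · intro b _ hb
      rw [h1, if_neg (Ne.symm hb), mul_zero]
    · intro h; exact absurd (mem_univ a) h
  rw [h2, sum_congr rfl fun a _ => h3 a, ← sum_mul, mul_comm]
  rfl

end central

section main

variable {Ω : Type*} [Field Ω] [IsAlgClosed Ω] [CharZero Ω] {A : Type*} [Ring A] [Algebra Ω A]
  [FiniteDimensional Ω A]

/-- **The representation.** -/
theorem exists_rep (T : A →ₗ[Ω] Ω) (hT : ∀ a b, T (a * b) = T (b * a)) (hnd : ∀ a, (∀ b, T (a * b) = 0) → a = 0)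
    {n : ℕ} (h1 : T 1 = n) (hG : ∀ g : Fin (n + 1) → A, GG T (n + 1) g = 0) :
    ∃ φ : A →ₐ[Ω] Matrix (Fin n) (Fin n) Ω, ∀ a, (φ a).trace = T a := by
  classical
  have hss := jac_zero T hnd hG
  obtain ⟨l, d, hd, ⟨e⟩⟩ := IsSemisimpleRing.exists_algEquiv_pi_matrix_of_isAlgClosed Ω A
  -- the multiplicities
  have hm : ∀ i : Fin l, ∃ m : ℕ, ∀ M : Matrix (Fin (d i)) (Fin (d i)) Ω,
      T (e.symm (Pi.single i M)) = m * M.trace := by
    intro i
    let Ti : Matrix (Fin (d i)) (Fin (d i)) Ω →ₗ[Ω] Ω :=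
      (T.comp e.symm.toLinearMap).comp (LinearMap.single Ω (fun i => Matrix (Fin (d i)) (Fin (d i)) Ω) i)
    have hTi : ∀ a b, Ti (a * b) = Ti (b * a) := by
      intro a b
      change T (e.symm (Pi.single i (a * b))) = T (e.symm (Pi.single i (b * a)))
      rw [Pi.single_mul, Pi.single_mul, map_mul e.symm, map_mul e.symm, hT]
    have h0 : ∀ M, Ti M = Ti (Matrix.single 0 0 1) * M.trace := fun M => central_mat Ti hTi 0 M
    have h2 := GG_idem T (e.symm (Pi.single i (Matrix.single 0 0 1))) (by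
      rw [← map_mul, ← Pi.single_mul, Matrix.single_mul_single_same, mul_one]) (n + 1)
    rw [hG] at h2
    obtain ⟨m, -, h3⟩ := prod_eq_zero_iff.mp h2.symm
    refine ⟨m, fun M => ?_⟩
    have h4 : Ti (Matrix.single 0 0 1) = m := sub_eq_zero.mp h3
    rw [← h4]
    exact h0 M
  choose m hm using hm
  have hTe : ∀ a : A, T a = ∑ i, (m i : Ω) * (e a i).trace := by
    intro a
    have h2 : a = ∑ i, e.symm (Pi.single i (e a i)) := by
      rw [← map_sum, Finset.univ_sum_single, AlgEquiv.symm_apply_apply]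
    conv_lhs => rw [h2]
    rw [map_sum]
    exact sum_congr rfl fun i _ => hm i _
  have hdim : ∑ i, m i * d i = n := by
    have h2 := hTe 1
    rw [h1, map_one] at h2
    simp only [Pi.one_apply, Matrix.trace_one, Fintype.card_fin] at h2
    exact_mod_cast h2.symm
  -- the index set
  let ι := Σ p : (Σ i : Fin l, Fin (m i)), Fin (d p.1)
  have hcard : Fintype.card ι = n := by
    rw [Fintype.card_sigma, ← Finset.univ_sigma_univ, Finset.sum_sigma]
    simp only [Fintype.card_fin, sum_const, card_univ, smul_eq_mul]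
    exact hdim
  let ε : ι ≃ Fin n := Fintype.equivFinOfCardEq hcard
  let r1 : (∀ i : Fin l, Matrix (Fin (d i)) (Fin (d i)) Ω) →+*
      (∀ p : (Σ i : Fin l, Fin (m i)), Matrix (Fin (d p.1)) (Fin (d p.1)) Ω) :=
    RingHom.pi fun p => Pi.evalRingHom _ p.1
  let r2 : (∀ p : (Σ i : Fin l, Fin (m i)), Matrix (Fin (d p.1)) (Fin (d p.1)) Ω) →+* Matrix ι ι Ω :=
    Matrix.blockDiagonal'RingHom (fun p : (Σ i : Fin l, Fin (m i)) => Fin (d p.1)) Ω
  let r3 : Matrix ι ι Ω →+* Matrix (Fin n) (Fin n) Ω := (Matrix.reindexAlgEquiv Ω Ω ε : Matrix ι ι Ω →+* _)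
  let r : A →+* Matrix (Fin n) (Fin n) Ω := r3.comp (r2.comp (r1.comp (e : A →+* _)))
  have hr : ∀ a, r a = Matrix.reindex ε ε (Matrix.blockDiagonal' fun p : (Σ i : Fin l, Fin (m i)) => e a p.1) :=
    fun a => rfl
  refine ⟨{ r with
    commutes' := ?_ }, ?_⟩
  · intro c
    change r (algebraMap Ω A c) = _
    rw [hr, AlgEquiv.commutes]
    have h2 : (Matrix.blockDiagonal' fun p : (Σ i : Fin l, Fin (m i)) =>
        (algebraMap Ω (∀ i : Fin l, Matrix (Fin (d i)) (Fin (d i)) Ω) c) p.1) = algebraMap Ω (Matrix ι ι Ω) c := by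
      have h3 : (fun p : (Σ i : Fin l, Fin (m i)) =>
          (algebraMap Ω (∀ i : Fin l, Matrix (Fin (d i)) (Fin (d i)) Ω) c) p.1) =
          c • (1 : ∀ p : (Σ i : Fin l, Fin (m i)), Matrix (Fin (d p.1)) (Fin (d p.1)) Ω) := by
        funext p
        rw [Pi.algebraMap_apply, Algebra.algebraMap_eq_smul_one]
        rfl
      rw [h3, Matrix.blockDiagonal'_smul, Matrix.blockDiagonal'_one, Algebra.algebraMap_eq_smul_one]
    rw [h2]
    exact (Matrix.reindexAlgEquiv Ω Ω ε).commutes c
  · intro a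
    change (r a).trace = _
    rw [hr, hTe]
    have h2 : (Matrix.reindex ε ε (Matrix.blockDiagonal' fun p : (Σ i : Fin l, Fin (m i)) => e a p.1)).trace =
        (Matrix.blockDiagonal' fun p : (Σ i : Fin l, Fin (m i)) => e a p.1).trace := by
      unfold Matrix.trace
      rw [← Equiv.sum_comp ε]
      refine sum_congr rfl fun x _ => ?_
      simp [Matrix.diag]
    rw [h2, Matrix.trace_blockDiagonal', ← Finset.univ_sigma_univ, Finset.sum_sigma]
    refine sum_congr rfl fun i _ => ?_
    change ∑ _x : Fin (m i), (e a i).trace = _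
    rw [sum_const, card_univ, Fintype.card_fin, nsmul_eq_mul]

end main

section dual

variable {Ω : Type*} [Field Ω] {A : Type*} [Ring A] [Algebra Ω A] [FiniteDimensional Ω A]

/-- linear functions are of the form `T (· c)` -/
lemma exists_dual (T : A →ₗ[Ω] Ω) (hT : ∀ a b, T (a * b) = T (b * a)) (hnd : ∀ a, (∀ b, T (a * b) = 0) → a = 0)
    (f : A →ₗ[Ω] Ω) : ∃ c : A, ∀ a, f a = T (a * c) := by
  let L : A →ₗ[Ω] Module.Dual Ω A := (LinearMap.compr₂ (LinearMap.mul Ω A) T).flip
  have hL : ∀ c a, L c a = T (a * c) := fun c a => rfl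
  have hinj : Function.Injective L := by
    rw [injective_iff_map_eq_zero]
    intro c hc
    apply hnd
    intro b
    rw [hT, ← hL, hc]
    rfl
  have hsurj : Function.Surjective L :=
    (LinearMap.injective_iff_surjective_of_finrank_eq_finrank (Subspace.dual_finrank_eq).symm).mp hinj
  obtain ⟨c, hc⟩ := hsurj f
  exact ⟨c, fun a => by rw [← hL, hc]⟩

end dual

end Pool.Agent.L5helper16.PP
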