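import Pool.Agent.L5helper16.PP.C

/-!
# From functions on a group to representations
-/

set_option autoImplicit false

namespace Pool.Agent.L5helper16.PP

open Matrix Finset

section ext

variable {Ω : Type*} [Field Ω] {A : Type*} [AddCommGroup A] [Module Ω A]

/-- a multilinear map which vanishes on a spanning set vanishes -/
lemma multi_zero {N : ℕ} (G : MultilinearMap Ω (fun _ : Fin N => A) Ω) {ι : Type*} (v : ι → A)
    (hv : ⊤ ≤ Submodule.span Ω (Set.range v)) (h : ∀ g : Fin N → ι, G (fun i => v (g i)) = 0) : G = 0 := by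
  refine Module.Basis.ext_multilinear (fun _ => Module.Basis.ofSpan hv) fun w => ?_
  rw [_root_.zero_apply]
  have h1 : ∀ i, ∃ j : ι, v j = Module.Basis.ofSpan hv (w i) := fun i =>
    Module.Basis.ofSpan_subset hv ⟨w i, rfl⟩
  choose j hj using h1
  rw [← h j]
  congr 1
  funext i
  exact (hj i).symm

end ext

section grp

variable {Ω : Type*} [Field Ω] {Γ : Type*} [Group Γ] (T0 : Γ → Ω)

/-- the translates of the function -/
def tr (g : Γ) : Γ → Ω := fun x => T0 (x * g)

/-- the space spanned by the translates -/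
def WW : Submodule Ω (Γ → Ω) := Submodule.span Ω (Set.range (tr T0))

/-- translation -/
def rt (Ω : Type*) [Field Ω] {Γ : Type*} [Group Γ] (g : Γ) : (Γ → Ω) →ₗ[Ω] (Γ → Ω) :=
  LinearMap.funLeft Ω Ω (fun x => x * g)

lemma rt_apply (g : Γ) (f : Γ → Ω) (x : Γ) : rt Ω g f x = f (x * g) := rfl

lemma rt_tr (g h : Γ) : rt Ω g (tr T0 h) = tr T0 (g * h) := by
  funext x
  rw [rt_apply, tr, tr, mul_assoc]

lemma rt_mem (g : Γ) (f : Γ → Ω) (hf : f ∈ WW T0) : rt Ω g f ∈ WW T0 := by
  unfold WW at hf
  induction hf using Submodule.span_induction with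
  | mem f hf =>
    obtain ⟨h, rfl⟩ := hf
    rw [rt_tr]
    exact Submodule.subset_span ⟨_, rfl⟩
  | zero => rw [map_zero]; exact Submodule.zero_mem _
  | add f f' _ _ h1 h2 => rw [map_add]; exact Submodule.add_mem _ h1 h2
  | smul a f _ h1 => rw [map_smul]; exact Submodule.smul_mem _ _ h1

/-- this space as a type -/
def WT : Type _ := WW T0

instance : AddCommGroup (WT T0) := inferInstanceAs (AddCommGroup (WW T0))

instance : Module Ω (WT T0) := inferInstanceAs (Module Ω (WW T0))

/-- the inclusion -/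
def inc : WT T0 →ₗ[Ω] (Γ → Ω) := (WW T0).subtype

lemma inc_inj : Function.Injective (inc T0) := Subtype.val_injective

/-- translation on this space -/
def rw1 (g : Γ) : WT T0 →ₗ[Ω] WT T0 := (rt Ω g).restrict (p := WW T0) (q := WW T0) (rt_mem T0 g)

lemma inc_rw1 (g : Γ) (f : WT T0) : inc T0 (rw1 T0 g f) = rt Ω g (inc T0 f) := rfl

/-- the representation by translation -/
def rho : Γ →* Module.End Ω (WT T0) where
  toFun g := rw1 T0 g
  map_one' := by
    refine LinearMap.ext fun f => inc_inj T0 ?_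
    rw [inc_rw1]
    funext x
    rw [rt_apply, mul_one]
    rfl
  map_mul' g h := by
    refine LinearMap.ext fun f => inc_inj T0 ?_
    rw [Module.End.mul_apply, inc_rw1, inc_rw1, inc_rw1]
    funext x
    rw [rt_apply, rt_apply, rt_apply, mul_assoc]

lemma rho_apply (g : Γ) (f : WT T0) (x : Γ) : inc T0 (rho T0 g f) x = inc T0 f (x * g) := rfl

/-- the algebra generated by the translations -/
def AA : Subalgebra Ω (Module.End Ω (WT T0)) := Algebra.adjoin Ω (Set.range (rho T0))

/-- the homomorphism to this algebra -/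
def rA : Γ →* AA T0 := (rho T0).codRestrict (AA T0) fun g => Algebra.subset_adjoin ⟨g, rfl⟩

/-- the function as an element of the space -/
def tau : WT T0 := (⟨tr T0 1, Submodule.subset_span ⟨1, rfl⟩⟩ : WW T0)

/-- the linear function -/
def TA : AA T0 →ₗ[Ω] Ω where
  toFun a := inc T0 ((a : Module.End Ω (WT T0)) (tau T0)) 1
  map_add' _ _ := rfl
  map_smul' _ _ := rfl

lemma TA_rA (g : Γ) : TA T0 (rA T0 g) = T0 g := by
  change (tr T0 1) (1 * g) = T0 g
  rw [tr, mul_one, one_mul]

lemma AA_span : ⊤ ≤ Submodule.span Ω (Set.range fun g => rA T0 g) := by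
  have h1 : ∀ x : Module.End Ω (WT T0), x ∈ AA T0 → ∀ hx : x ∈ AA T0,
      (⟨x, hx⟩ : AA T0) ∈ Submodule.span Ω (Set.range fun g => rA T0 g) := by
    intro x hx
    have h2 : x ∈ Submodule.span Ω (Submonoid.closure (Set.range (rho T0)) : Set (Module.End Ω (WT T0))) := by
      rw [← Algebra.adjoin_eq_span]
      exact hx
    have h3 : (Submonoid.closure (Set.range (rho T0)) : Set (Module.End Ω (WT T0))) = Set.range (rho T0) := by
      rw [← MonoidHom.coe_mrange, Submonoid.closure_eq]
    rw [h3] at h2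
    clear hx h3
    induction h2 using Submodule.span_induction with
    | mem x hx =>
      obtain ⟨g, rfl⟩ := hx
      intro hx
      exact Submodule.subset_span ⟨g, rfl⟩
    | zero =>
      intro hx
      exact Submodule.zero_mem _
    | add x y hx hy h1 h2 =>
      intro hxy
      have hle : ∀ z ∈ Submodule.span Ω (Set.range (rho T0)), z ∈ AA T0 := by
        intro z hz
        have : Submodule.span Ω (Set.range (rho T0)) ≤ Subalgebra.toSubmodule (AA T0) :=
          Submodule.span_le.mpr fun y hy => Algebra.subset_adjoin hy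
        exact this hz
      exact Submodule.add_mem _ (h1 (hle x hx)) (h2 (hle y hy))
    | smul a x hx h1 =>
      intro hax
      have hle : ∀ z ∈ Submodule.span Ω (Set.range (rho T0)), z ∈ AA T0 := by
        intro z hz
        have : Submodule.span Ω (Set.range (rho T0)) ≤ Subalgebra.toSubmodule (AA T0) :=
          Submodule.span_le.mpr fun y hy => Algebra.subset_adjoin hy
        exact this hz
      exact Submodule.smul_mem _ _ (h1 (hle x hx))
  intro a _
  exact h1 a.1 a.2 a.2

variable {T0}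

lemma TA_comm (hT : ∀ g h, T0 (g * h) = T0 (h * g)) (a b : AA T0) : TA T0 (a * b) = TA T0 (b * a) := by
  have ha := AA_span T0 (x := a) trivial
  have hb := AA_span T0 (x := b) trivial
  induction ha using Submodule.span_induction with
  | mem a ha =>
    obtain ⟨g, rfl⟩ := ha
    induction hb using Submodule.span_induction with
    | mem b hb =>
      obtain ⟨h, rfl⟩ := hb
      simp only
      rw [← map_mul, ← map_mul, TA_rA, TA_rA, hT]
    | zero => rw [mul_zero, zero_mul]
    | add b b' _ _ h1 h2 => rw [mul_add, add_mul, map_add, map_add, h1, h2]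
    | smul c b _ h1 => rw [mul_smul_comm, smul_mul_assoc, map_smul, map_smul, h1]
  | zero => rw [mul_zero, zero_mul]
  | add a a' _ _ h1 h2 => rw [mul_add, add_mul, map_add, map_add, h1, h2]
  | smul c a _ h1 => rw [mul_smul_comm, smul_mul_assoc, map_smul, map_smul, h1]

lemma TA_nd (hT : ∀ g h, T0 (g * h) = T0 (h * g)) (a : AA T0) (ha : ∀ b, TA T0 (a * b) = 0) : a = 0 := by
  have h1 : ∀ g : Γ, (a : Module.End Ω (WT T0)) (rho T0 g (tau T0)) = 0 := by
    intro g
    apply inc_inj T0
    funext y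
    have h2 : TA T0 (rA T0 y * (a * rA T0 g)) = 0 := by
      rw [TA_comm hT, mul_assoc, ha]
    have h3 : TA T0 (rA T0 y * (a * rA T0 g)) =
        inc T0 ((a : Module.End Ω (WT T0)) (rho T0 g (tau T0))) (1 * y) := rfl
    rw [h3, one_mul] at h2
    rw [h2, map_zero]
    rfl
  apply Subtype.ext
  refine LinearMap.ext fun w => ?_
  have h4 : ∀ w ∈ WW T0, ∀ u : WT T0, inc T0 u = w → (a : Module.End Ω (WT T0)) u = 0 := by
    intro w hw
    unfold WW at hw
    induction hw using Submodule.span_induction with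
    | mem w hw =>
      obtain ⟨g, rfl⟩ := hw
      intro u hu
      have e : u = rho T0 g (tau T0) := by
        apply inc_inj T0
        rw [hu]
        funext x
        rw [rho_apply]
        change T0 (x * g) = T0 (x * g * 1)
        rw [mul_one]
      rw [e, h1]
    | zero =>
      intro u hu
      have e : u = 0 := inc_inj T0 (by rw [hu, map_zero])
      rw [e, map_zero]
    | add x y hx hy h1 h2 =>
      intro u hu
      let x' : WT T0 := (⟨x, hx⟩ : WW T0)
      let y' : WT T0 := (⟨y, hy⟩ : WW T0)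
      have e : u = x' + y' := inc_inj T0 (by rw [hu, map_add]; rfl)
      rw [e, map_add, h1 x' rfl, h2 y' rfl, add_zero]
    | smul c x hx h1 =>
      intro u hu
      let x' : WT T0 := (⟨x, hx⟩ : WW T0)
      have e : u = c • x' := inc_inj T0 (by rw [hu, map_smul]; rfl)
      rw [e, map_smul, h1 x' rfl, smul_zero]
  exact h4 (inc T0 w) w.2 w rfl

/-- **Functions of finite rank which satisfy the identities are traces of representations.** -/
theorem rep_of_fun [IsAlgClosed Ω] [CharZero Ω] {n : ℕ} (h1 : T0 1 = n) (hT : ∀ g h, T0 (g * h) = T0 (h * g))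
    (hfin : FiniteDimensional Ω (WT T0)) (hG : ∀ g : Fin (n + 1) → Γ, GG (TA T0) (n + 1) (rA T0 ∘ g) = 0) :
    ∃ r : Γ →* GL (Fin n) Ω, (∀ γ, ((r γ : GL (Fin n) Ω) : Matrix (Fin n) (Fin n) Ω).trace = T0 γ) ∧
      ∀ i j : Fin n, ∃ c : Γ →₀ Ω, ∀ γ, (r γ : Matrix (Fin n) (Fin n) Ω) i j = c.sum fun δ a => a * T0 (γ * δ) := by
  have hfA : FiniteDimensional Ω (AA T0) := inferInstance
  have hG' : ∀ a : Fin (n + 1) → AA T0, GG (TA T0) (n + 1) a = 0 := by
    intro a
    rw [multi_zero (GG (TA T0) (n + 1)) (fun g => rA T0 g) (AA_span T0) fun g => hG g, _root_.zero_apply]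
  obtain ⟨φ, hφ⟩ := exists_rep (TA T0) (TA_comm hT) (TA_nd hT) (by
    have e : (1 : AA T0) = rA T0 1 := (map_one (rA T0)).symm
    rw [e, TA_rA, h1]) hG'
  let r : Γ →* GL (Fin n) Ω := ((φ : AA T0 →* Matrix (Fin n) (Fin n) Ω).comp (rA T0)).toHomUnits
  have hr : ∀ γ, ((r γ : GL (Fin n) Ω) : Matrix (Fin n) (Fin n) Ω) = φ (rA T0 γ) := fun γ => rfl
  refine ⟨r, fun γ => by rw [hr, hφ, TA_rA], fun i j => ?_⟩
  let f : AA T0 →ₗ[Ω] Ω := (Matrix.entryLinearMap Ω Ω i j).comp φ.toLinearMap
  obtain ⟨c, hc⟩ := exists_dual (TA T0) (TA_comm hT) (TA_nd hT) f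
  have h2 := AA_span T0 (x := c) trivial
  rw [Finsupp.mem_span_range_iff_exists_finsupp] at h2
  obtain ⟨c', rfl⟩ := h2
  refine ⟨c', fun γ => ?_⟩
  have h3 := hc (rA T0 γ)
  change (φ (rA T0 γ)) i j = _ at h3
  rw [hr, h3, Finsupp.sum, mul_sum, map_sum, Finsupp.sum]
  refine sum_congr rfl fun δ _ => ?_
  rw [mul_smul_comm, map_smul, ← map_mul, TA_rA, smul_eq_mul]

end grp

end Pool.Agent.L5helper16.PP
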