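import Pool.Agent.L5helper16.PP.D
import Pool.Agent.L5helper16.GP.A

/-!
# Functions on a group which are locally traces of representations of dimension `n`
-/

set_option autoImplicit false

namespace Pool.Agent.L5helper16.PP

open Matrix Finset

section det

variable {Ω : Type*} [Field Ω] {n : ℕ} {N : Type*} [Group N]

lemma det_alg [CharZero Ω] {R R' : N →* GL (Fin n) Ω}
    (h : ∀ x : N, ((R x : GL (Fin n) Ω) : Matrix (Fin n) (Fin n) Ω).trace =
      ((R' x : GL (Fin n) Ω) : Matrix (Fin n) (Fin n) Ω).trace) (z : MonoidAlgebra Ω N) :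
    (GP.alg R z).det = (GP.alg R' z).det := by
  have h1 : (Matrix.traceLinearMap (Fin n) Ω Ω).comp (GP.alg R).toLinearMap =
      (Matrix.traceLinearMap (Fin n) Ω Ω).comp (GP.alg R').toLinearMap := by
    refine LinearMap.ext fun a => ?_
    have h2 := GP.trace_alg h a 1
    simp only [map_one, Units.val_one, mul_one] at h2
    exact h2
  have h2 : ∀ R : N →* GL (Fin n) Ω, GG ((Matrix.traceLinearMap (Fin n) Ω Ω).comp (GP.alg R).toLinearMap) n
      (fun _ => z) = (n.factorial : Ω) * (GP.alg R z).det := by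
    intro R
    rw [GG_hom]
    have e : (GP.alg R : MonoidAlgebra Ω N → _) ∘ (fun _ : Fin n => z) = fun _ => GP.alg R z := rfl
    rw [e, GG_trace, FF_diag]
  have h3 := h2 R
  rw [h1, h2 R'] at h3
  exact (mul_left_cancel₀ (Nat.cast_ne_zero.mpr (Nat.factorial_ne_zero n)) h3).symm

/-- representations with the same trace have the same characteristic polynomials -/
lemma charpoly_eq [CharZero Ω] {R R' : N →* GL (Fin n) Ω}
    (h : ∀ x : N, ((R x : GL (Fin n) Ω) : Matrix (Fin n) (Fin n) Ω).trace =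
      ((R' x : GL (Fin n) Ω) : Matrix (Fin n) (Fin n) Ω).trace) (x : N) :
    ((R x : GL (Fin n) Ω) : Matrix (Fin n) (Fin n) Ω).charpoly =
      ((R' x : GL (Fin n) Ω) : Matrix (Fin n) (Fin n) Ω).charpoly := by
  apply Polynomial.funext
  intro t
  rw [Matrix.eval_charpoly, Matrix.eval_charpoly]
  have h1 := det_alg h (MonoidAlgebra.single 1 t - MonoidAlgebra.single x 1)
  rw [map_sub, map_sub, GP.alg_single, GP.alg_single, GP.alg_single, GP.alg_single, map_one, map_one, one_smul,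
    one_smul, Units.val_one] at h1
  have e : (Matrix.scalar (Fin n)) t = t • (1 : Matrix (Fin n) (Fin n) Ω) := by
    rw [Matrix.scalar_apply, Matrix.smul_one_eq_diagonal]
  rw [e]
  exact h1

end det

section loc

variable {Ω : Type*} [Field Ω] {Γ : Type*} [Group Γ]

/-- every `k` elements are in a subgroup on which `T0` is the trace of a representation of dimension `n` -/
def Loc (T0 : Γ → Ω) (n k : ℕ) : Prop :=
  ∀ g : Fin k → Γ, ∃ (Δ : Subgroup Γ) (r : Δ →* GL (Fin n) Ω), (∀ i, g i ∈ Δ) ∧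
    ∀ x : Δ, T0 x = ((r x : GL (Fin n) Ω) : Matrix (Fin n) (Fin n) Ω).trace

lemma Loc.le {T0 : Γ → Ω} {n k j : ℕ} (h : Loc T0 n k) (hj : j ≤ k) : Loc T0 n j := by
  intro g
  obtain ⟨Δ, r, h1, h2⟩ := h (fun i => if hi : (i : ℕ) < j then g ⟨i, hi⟩ else 1)
  refine ⟨Δ, r, fun i => ?_, h2⟩
  have h3 := h1 ⟨i, by omega⟩
  rwa [dif_pos i.2] at h3

variable {T0 : Γ → Ω} {n : ℕ}

lemma GG_loc {Δ : Subgroup Γ} {r : Δ →* GL (Fin n) Ω}
    (h : ∀ x : Δ, T0 x = ((r x : GL (Fin n) Ω) : Matrix (Fin n) (Fin n) Ω).trace) (j : ℕ) (g : Fin j → Δ) :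
    GG (TA T0) j (rA T0 ∘ fun i => (g i : Γ)) = FF j fun i => ((r (g i) : GL (Fin n) Ω) : Matrix (Fin n) (Fin n) Ω) := by
  have h1 := GG_transfer (M := Δ) (TA T0) (Matrix.traceLinearMap (Fin n) Ω Ω) ((rA T0).comp Δ.subtype)
    ((Units.coeHom (Matrix (Fin n) (Fin n) Ω)).comp r) (fun x => by
      change TA T0 (rA T0 x) = _
      rw [TA_rA, h]
      rfl) j g
  rw [GG_trace] at h1
  exact h1

/-- the determinant -/
noncomputable def DD (T0 : Γ → Ω) (n : ℕ) (x : Γ) : Ω :=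
  (n.factorial : Ω)⁻¹ * GG (TA T0) n (rA T0 ∘ fun _ => x)

lemma DD_loc [CharZero Ω] {Δ : Subgroup Γ} {r : Δ →* GL (Fin n) Ω}
    (h : ∀ x : Δ, T0 x = ((r x : GL (Fin n) Ω) : Matrix (Fin n) (Fin n) Ω).trace) (x : Δ) :
    DD T0 n x = ((r x : GL (Fin n) Ω) : Matrix (Fin n) (Fin n) Ω).det := by
  unfold DD
  rw [GG_loc h n fun _ => x, FF_diag, ← mul_assoc, inv_mul_cancel₀ (Nat.cast_ne_zero.mpr (Nat.factorial_ne_zero n)),
    one_mul]

lemma DD_mul [CharZero Ω] (h : Loc T0 n 2) (x y : Γ) : DD T0 n (x * y) = DD T0 n x * DD T0 n y := by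
  obtain ⟨Δ, r, h1, h2⟩ := h ![x, y]
  have hx : x ∈ Δ := h1 0
  have hy : y ∈ Δ := h1 1
  have e1 := DD_loc h2 ⟨x, hx⟩
  have e2 := DD_loc h2 ⟨y, hy⟩
  have e3 := DD_loc h2 ⟨x * y, Δ.mul_mem hx hy⟩
  simp only at e1 e2 e3
  have e4 : (⟨x * y, Δ.mul_mem hx hy⟩ : Δ) = ⟨x, hx⟩ * ⟨y, hy⟩ := rfl
  rw [e1, e2, e3, e4, map_mul, Units.val_mul, Matrix.det_mul]

lemma T0_comm (h : Loc T0 n 2) (x y : Γ) : T0 (x * y) = T0 (y * x) := by
  obtain ⟨Δ, r, h1, h2⟩ := h ![x, y]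
  have hx : x ∈ Δ := h1 0
  have hy : y ∈ Δ := h1 1
  have e1 := h2 (⟨x, hx⟩ * ⟨y, hy⟩)
  have e2 := h2 (⟨y, hy⟩ * ⟨x, hx⟩)
  rw [map_mul, Units.val_mul] at e1 e2
  rw [Matrix.trace_mul_comm] at e1
  exact e1.trans e2.symm

variable {m : ℕ}

/-- the relation `R_n` -/
lemma GG_base [CharZero Ω] (h : Loc T0 (m + 1) (m + 1)) (x : Γ) (g : Fin m → Γ) :
    GG (TA T0) (m + 1) (rA T0 ∘ (Fin.cons x g : Fin (m + 1) → Γ)) =
      DD T0 (m + 1) x * GG (TA T0) m (rA T0 ∘ fun i => x⁻¹ * g i) := by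
  obtain ⟨Δ, r, h1, h2⟩ := h (Fin.cons x g)
  have hx : x ∈ Δ := h1 0
  have hg : ∀ i, g i ∈ Δ := fun i => h1 i.succ
  have e1 := GG_loc h2 (m + 1) (Fin.cons ⟨x, hx⟩ fun i => ⟨g i, hg i⟩)
  have e2 : (fun i => ((Fin.cons ⟨x, hx⟩ (fun i => ⟨g i, hg i⟩) : Fin (m + 1) → Δ) i : Γ)) = Fin.cons x g := by
    funext i
    refine Fin.cases ?_ (fun i => ?_) i
    · rfl
    · rfl
  have e3 : (fun i => ((r ((Fin.cons ⟨x, hx⟩ (fun i => ⟨g i, hg i⟩) : Fin (m + 1) → Δ) i) : GL (Fin (m + 1)) Ω) :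
      Matrix (Fin (m + 1)) (Fin (m + 1)) Ω)) = Fin.cons ((r ⟨x, hx⟩ : GL (Fin (m + 1)) Ω) :
      Matrix (Fin (m + 1)) (Fin (m + 1)) Ω) fun i => (r ⟨g i, hg i⟩ : GL (Fin (m + 1)) Ω) := by
    funext i
    refine Fin.cases ?_ (fun i => ?_) i
    · rfl
    · rfl
  rw [e2, e3, FF_base] at e1
  rw [e1]
  have e4 := DD_loc h2 ⟨x, hx⟩
  have e5 := GG_loc h2 m (fun i => ⟨x, hx⟩⁻¹ * ⟨g i, hg i⟩)
  have e6 : (fun i => ((⟨x, hx⟩⁻¹ * ⟨g i, hg i⟩ : Δ) : Γ)) = fun i => x⁻¹ * g i := rfl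
  rw [e6] at e5
  simp only at e4
  rw [e4, e5]
  congr 2
  funext i
  rw [map_mul, map_inv, Units.val_mul]

/-- **The identities.** -/
theorem ident [CharZero Ω] (h : Loc T0 (m + 1) (max (m + 1) 2)) (g : Fin (m + 2) → Γ) :
    GG (TA T0) (m + 2) (rA T0 ∘ g) = 0 := by
  have hn : Loc T0 (m + 1) (m + 1) := h.le (le_max_left _ _)
  have h2 : Loc T0 (m + 1) 2 := h.le (le_max_right _ _)
  obtain ⟨k, g1, g', rfl⟩ : ∃ (k g1 : Γ) (g' : Fin m → Γ), g = Fin.cons k (Fin.cons g1 g') :=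
    ⟨g 0, Fin.tail g 0, Fin.tail (Fin.tail g), by rw [Fin.cons_self_tail, Fin.cons_self_tail]⟩
  set u : Fin m → Γ := fun i => g1⁻¹ * g' i with hu
  rw [comp_cons, GG_cons]
  have e1 : ∀ b, Function.update (rA T0 ∘ (Fin.cons g1 g' : Fin (m + 1) → Γ)) b
      ((rA T0 ∘ (Fin.cons g1 g' : Fin (m + 1) → Γ)) b * rA T0 k) =
      rA T0 ∘ Function.update (Fin.cons g1 g' : Fin (m + 1) → Γ) b ((Fin.cons g1 g' : Fin (m + 1) → Γ) b * k) := by
    intro b
    rw [Function.comp_update, map_mul]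
    rfl
  simp_rw [e1]
  rw [Fin.sum_univ_succ, GG_base hn]
  have e2 : Function.update (Fin.cons g1 g' : Fin (m + 1) → Γ) 0 ((Fin.cons g1 g' : Fin (m + 1) → Γ) 0 * k) =
      Fin.cons (g1 * k) g' := by
    rw [Fin.update_cons_zero]
    rfl
  have e3 : ∀ c : Fin m, Function.update (Fin.cons g1 g' : Fin (m + 1) → Γ) c.succ
      ((Fin.cons g1 g' : Fin (m + 1) → Γ) c.succ * k) = Fin.cons g1 (Function.update g' c (g' c * k)) := by
    intro c
    rw [Fin.cons_succ, Fin.cons_update]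
  rw [e2, GG_base hn]
  simp_rw [e3, GG_base hn]
  have e4 : ∀ c : Fin m, (fun i => g1⁻¹ * Function.update g' c (g' c * k) i) = Function.update u c (u c * k) := by
    intro c
    funext i
    by_cases hi : i = c
    · subst hi
      rw [Function.update_self, Function.update_self, hu, mul_assoc]
    · rw [Function.update_of_ne hi, Function.update_of_ne hi]
  simp_rw [e4]
  have e5 : (fun i => (g1 * k)⁻¹ * g' i) = fun i => k⁻¹ * u i := by
    funext i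
    rw [hu, _root_.mul_inv_rev, mul_assoc]
  rw [e5, DD_mul h2]
  have e6 := GG_base hn k u
  rw [comp_cons, GG_cons] at e6
  have e7 : ∀ c : Fin m, Function.update (rA T0 ∘ u) c ((rA T0 ∘ u) c * rA T0 k) =
      rA T0 ∘ Function.update u c (u c * k) := by
    intro c
    rw [Function.comp_update, map_mul]
    rfl
  simp_rw [e7] at e6
  rw [← mul_sum, mul_assoc (DD T0 (m + 1) g1), ← e6]
  ring

end loc

end Pool.Agent.L5helper16.PP
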