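import Pool.Agent.L5helper16.PP.E
import Pool.Agent.L5helper16.GP.C

/-!
# Patching without irreducibility
-/

set_option autoImplicit false

namespace Pool.Agent.L5helper16.PP

open Matrix Finset Topology Pool.Agent.L5helper16.GP

/-- every `k` elements are simultaneously conjugate into a member of `S` -/
def CoversTuples {V : Type*} [Group V] (S : Set (Subgroup V)) (k : ℕ) : Prop :=
  ∀ v : Fin k → V, ∃ g : V, ∃ H ∈ S, ∀ i, g * v i * g⁻¹ ∈ H

section patch

variable {Γ V X Ω : Type*} [Group Γ] [TopologicalSpace Γ] [IsTopologicalGroup Γ] [Group V] [MulAction Γ X]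
  [Field Ω] [TopologicalSpace Ω] [IsTopologicalRing Ω] [T2Space Ω] {n : ℕ}

variable {π : Γ →* V} (hopen : IsOpen (π.ker : Set Γ)) {fr : X → Γ}
  (hfr : ∀ (γ : Γ) (Q : X), fr (γ • Q) = γ * fr Q * γ⁻¹) (hd : Dense (Set.range fr))
  {c : X → GL (Fin n) Ω} (hcc : ∀ (γ : Γ) (Q : X), (c (γ • Q) : Matrix (Fin n) (Fin n) Ω).charpoly =
    (c Q : Matrix (Fin n) (Fin n) Ω).charpoly)

omit [TopologicalSpace Γ] [IsTopologicalGroup Γ] [MulAction Γ X] [TopologicalSpace Ω] [IsTopologicalRing Ω] [T2Space Ω] in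
/-- functions with local formulas have finite rank -/
lemma fin_rank [Finite V] (hπ : Function.Surjective π) (T0 : Γ → Ω)
    (h : ∀ v : V, ∃ (H : Subgroup V) (δ : Γ) (r : H.comap π →* GL (Fin n) Ω), π δ * v * (π δ)⁻¹ ∈ H ∧
      ∀ γ : Γ, ∀ hγ : δ * γ * δ⁻¹ ∈ H.comap π,
        T0 γ = ((r ⟨δ * γ * δ⁻¹, hγ⟩ : GL (Fin n) Ω) : Matrix (Fin n) (Fin n) Ω).trace) :
    FiniteDimensional Ω (WT T0) := by
  classical
  have := Fintype.ofFinite V
  choose H δ r hδ hT using h
  let σ : V → Γ := Function.surjInv hπ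
  have hσ : ∀ v, π (σ v) = v := fun v => Function.surjInv_eq hπ v
  have hker : ∀ (u : V) (y : Γ), y ∈ π.ker → δ u * y * (δ u)⁻¹ ∈ (H u).comap π := by
    intro u y hy
    rw [Subgroup.mem_comap, map_mul, map_mul, MonoidHom.mem_ker.mp hy, mul_one, ← map_mul, mul_inv_cancel, map_one]
    exact (H u).one_mem
  let φ : V × V × Fin n × Fin n → Γ → Ω := fun p x =>
    if hx : x * (σ p.1)⁻¹ ∈ π.ker then
      ((r p.2.1 ⟨δ p.2.1 * (x * (σ p.1)⁻¹) * (δ p.2.1)⁻¹, hker _ _ hx⟩ : GL (Fin n) Ω) : Matrix (Fin n) (Fin n) Ω)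
        p.2.2.1 p.2.2.2 else 0
  have hle : WW T0 ≤ Submodule.span Ω (Set.range φ) := by
    unfold WW
    rw [Submodule.span_le]
    rintro f ⟨g, rfl⟩
    have hmem : ∀ v : V, δ (v * π g) * (σ v * g) * (δ (v * π g))⁻¹ ∈ (H (v * π g)).comap π := by
      intro v
      rw [Subgroup.mem_comap, map_mul, map_mul, map_mul, hσ, map_inv]
      exact hδ _
    have e : tr T0 g = ∑ v : V, ∑ a : Fin n, ∑ b : Fin n,
        ((r (v * π g) ⟨δ (v * π g) * (σ v * g) * (δ (v * π g))⁻¹, hmem v⟩ : GL (Fin n) Ω) :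
          Matrix (Fin n) (Fin n) Ω) b a • φ (v, v * π g, a, b) := by
      funext x
      simp only [Finset.sum_apply, Pi.smul_apply, smul_eq_mul]
      rw [sum_eq_single (π x)]
      · have hx : x * (σ (π x))⁻¹ ∈ π.ker := by
          rw [MonoidHom.mem_ker, map_mul, map_inv, hσ, mul_inv_cancel]
        have hxg : δ (π x * π g) * (x * g) * (δ (π x * π g))⁻¹ ∈ (H (π x * π g)).comap π := by
          rw [Subgroup.mem_comap, map_mul, map_mul, map_mul, map_inv]
          exact hδ _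
        change T0 (x * g) = _
        rw [hT (π x * π g) (x * g) hxg]
        have e1 : (⟨δ (π x * π g) * (x * g) * (δ (π x * π g))⁻¹, hxg⟩ : (H (π x * π g)).comap π) =
            ⟨δ (π x * π g) * (x * (σ (π x))⁻¹) * (δ (π x * π g))⁻¹, hker _ _ hx⟩ *
              ⟨δ (π x * π g) * (σ (π x) * g) * (δ (π x * π g))⁻¹, hmem (π x)⟩ := by
          apply Subtype.ext
          change δ (π x * π g) * (x * g) * (δ (π x * π g))⁻¹ =
            δ (π x * π g) * (x * (σ (π x))⁻¹) * (δ (π x * π g))⁻¹ *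
              (δ (π x * π g) * (σ (π x) * g) * (δ (π x * π g))⁻¹)
          group
        rw [e1, map_mul, Units.val_mul, Matrix.trace]
        refine sum_congr rfl fun a _ => ?_
        rw [Matrix.diag_apply, Matrix.mul_apply]
        refine sum_congr rfl fun b _ => ?_
        have e2 : φ (π x, π x * π g, a, b) x =
            ((r (π x * π g) ⟨δ (π x * π g) * (x * (σ (π x))⁻¹) * (δ (π x * π g))⁻¹, hker _ _ hx⟩ : GL (Fin n) Ω) :
              Matrix (Fin n) (Fin n) Ω) a b := by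
          simp only [φ]
          rw [dif_pos hx]
        rw [e2, mul_comm]
      · intro v _ hv
        refine sum_eq_zero fun a _ => sum_eq_zero fun b _ => ?_
        have e2 : φ (v, v * π g, a, b) x = 0 := by
          simp only [φ]
          rw [dif_neg]
          intro h3
          apply hv
          rw [MonoidHom.mem_ker, map_mul, map_inv, hσ, mul_inv_eq_one] at h3
          exact h3.symm
        rw [e2, mul_zero]
      · intro h3
        exact absurd (mem_univ _) h3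
    rw [e]
    exact Submodule.sum_mem _ fun v _ => Submodule.sum_mem _ fun a _ => Submodule.sum_mem _ fun b _ =>
      Submodule.smul_mem _ _ (Submodule.subset_span ⟨_, rfl⟩)
  have hf : FiniteDimensional Ω (Submodule.span Ω (Set.range φ)) :=
    FiniteDimensional.span_of_finite Ω (Set.finite_range φ)
  exact Submodule.finiteDimensional_of_le hle

include hopen hfr hd hcc in
/-- **Patching without irreducibility.** -/
theorem patch_ss [IsAlgClosed Ω] [CharZero Ω] [Finite V] (hπ : Function.Surjective π) {S : Set (Subgroup V)}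
    (hS : CoversTuples S (max n 2)) (hr : ∀ H ∈ S, ∃ r : H.comap π →* GL (Fin n) Ω, Attached π fr c H r) :
    ∃ s : Γ →* GL (Fin n) Ω, Continuous s ∧
      (∀ Q : X, ((s (fr Q) : GL (Fin n) Ω) : Matrix (Fin n) (Fin n) Ω).charpoly =
        (c Q : Matrix (Fin n) (Fin n) Ω).charpoly) ∧
      ∀ (H : Subgroup V) (r : H.comap π →* GL (Fin n) Ω), Attached π fr c H r → ∀ γ : H.comap π,
        ((s γ : GL (Fin n) Ω) : Matrix (Fin n) (Fin n) Ω).charpoly =
          ((r γ : GL (Fin n) Ω) : Matrix (Fin n) (Fin n) Ω).charpoly := by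
  classical
  rcases Nat.eq_zero_or_pos n with rfl | hn
  · refine ⟨1, continuous_const, fun Q => ?_, fun H r _ γ => ?_⟩
    · congr 1
      exact Subsingleton.elim _ _
    · congr 1
      exact Subsingleton.elim _ _
  obtain ⟨m, rfl⟩ : ∃ m, n = m + 1 := ⟨n - 1, by omega⟩
  have hsingle : ∀ v : V, ∃ g : Γ, ∃ H ∈ S, π g * v * (π g)⁻¹ ∈ H := by
    intro v
    obtain ⟨g, H, hH, h⟩ := hS (fun _ => v)
    obtain ⟨δ, rfl⟩ := hπ g
    exact ⟨δ, H, hH, h ⟨0, by omega⟩⟩
  choose δ H hHS hδ using hsingle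
  choose r0 hr0 using hr
  have hmem : ∀ γ : Γ, δ (π γ) * γ * (δ (π γ))⁻¹ ∈ (H (π γ)).comap π := by
    intro γ
    rw [Subgroup.mem_comap, map_mul, map_mul, map_inv]
    exact hδ _
  let T0 : Γ → Ω := fun γ => ((r0 (H (π γ)) (hHS _) ⟨δ (π γ) * γ * (δ (π γ))⁻¹, hmem γ⟩ : GL (Fin (m + 1)) Ω) :
    Matrix (Fin (m + 1)) (Fin (m + 1)) Ω).trace
  have hT0 : ∀ (H' : Subgroup V) (r : H'.comap π →* GL (Fin (m + 1)) Ω), Attached π fr c H' r → ∀ (ε γ : Γ)
      (h : ε * γ * ε⁻¹ ∈ H'.comap π), T0 γ = ((r ⟨ε * γ * ε⁻¹, h⟩ : GL (Fin (m + 1)) Ω) :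
        Matrix (Fin (m + 1)) (Fin (m + 1)) Ω).trace := by
    intro H' r hr ε γ h
    exact trace_eq hopen hfr hd hcc (hr0 _ _) hr (δ (π γ)) ε γ (hmem γ) h
  have hloc : Loc T0 (m + 1) (max (m + 1) 2) := by
    intro g
    obtain ⟨g0, H', hH', h⟩ := hS (fun i => π (g i))
    obtain ⟨ε, rfl⟩ := hπ g0
    refine ⟨(H'.comap π).comap (MulAut.conj ε).toMonoidHom,
      (r0 H' hH').comp ((MulAut.conj ε).toMonoidHom.subgroupComap (H'.comap π)), fun i => ?_, fun x => ?_⟩
    · rw [Subgroup.mem_comap, Subgroup.mem_comap]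
      change π (ε * g i * ε⁻¹) ∈ H'
      rw [map_mul, map_mul, map_inv]
      exact h i
    · exact hT0 H' (r0 H' hH') (hr0 _ _) ε x x.2
  have h1 : T0 1 = ((m + 1 : ℕ) : Ω) := by
    change ((r0 (H (π 1)) (hHS _) ⟨δ (π 1) * 1 * (δ (π 1))⁻¹, hmem 1⟩ : GL (Fin (m + 1)) Ω) :
      Matrix (Fin (m + 1)) (Fin (m + 1)) Ω).trace = _
    have e : (⟨δ (π 1) * 1 * (δ (π 1))⁻¹, hmem 1⟩ : (H (π 1)).comap π) = 1 := by
      apply Subtype.ext
      change δ (π 1) * 1 * (δ (π 1))⁻¹ = 1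
      group
    rw [e, map_one, Units.val_one, Matrix.trace_one, Fintype.card_fin]
  have hcont : Continuous T0 := by
    rw [continuous_iff_continuousAt]
    intro γ0
    let U : Set Γ := {x | δ (π γ0) * x * (δ (π γ0))⁻¹ ∈ (H (π γ0)).comap π}
    have hU : IsOpen U := (comap_open hopen (H (π γ0))).preimage (by fun_prop)
    have hU0 : γ0 ∈ U := hmem γ0
    have hcU : ContinuousOn T0 U := by
      rw [continuousOn_iff_continuous_domRestrict]
      have e : U.domRestrict T0 = fun x : U => ((r0 (H (π γ0)) (hHS _) ⟨δ (π γ0) * x * (δ (π γ0))⁻¹, x.2⟩ :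
          GL (Fin (m + 1)) Ω) : Matrix (Fin (m + 1)) (Fin (m + 1)) Ω).trace := by
        funext x
        exact hT0 _ _ (hr0 _ _) (δ (π γ0)) x x.2
      rw [e]
      apply Continuous.matrix_trace
      apply Units.continuous_val.comp
      apply (hr0 (H (π γ0)) (hHS _)).1.comp
      apply Continuous.subtype_mk
      fun_prop
    exact hcU.continuousAt (hU.mem_nhds hU0)
  have hfin : FiniteDimensional Ω (WT T0) := fin_rank hπ T0 fun v =>
    ⟨H v, δ v, r0 (H v) (hHS v), hδ v, fun γ hγ => hT0 _ _ (hr0 _ _) _ _ hγ⟩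
  obtain ⟨s, hs1, hs2⟩ := rep_of_fun h1 (T0_comm (hloc.le (le_max_right _ _))) hfin (ident hloc)
  have hscont : Continuous s := by
    have hval : Continuous fun γ => ((s γ : GL (Fin (m + 1)) Ω) : Matrix (Fin (m + 1)) (Fin (m + 1)) Ω) := by
      refine continuous_matrix fun i j => ?_
      obtain ⟨a, ha⟩ := hs2 i j
      simp_rw [ha, Finsupp.sum]
      exact continuous_finsetSum _ fun δ' _ => continuous_const.mul (hcont.comp (continuous_mul_const δ'))
    rw [Units.continuous_iff]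
    refine ⟨hval, ?_⟩
    have e : (fun γ => (((s γ)⁻¹ : GL (Fin (m + 1)) Ω) : Matrix (Fin (m + 1)) (Fin (m + 1)) Ω)) =
        fun γ => ((s γ⁻¹ : GL (Fin (m + 1)) Ω) : Matrix (Fin (m + 1)) (Fin (m + 1)) Ω) := by
      funext γ
      rw [map_inv]
    change Continuous fun γ => (((s γ)⁻¹ : GL (Fin (m + 1)) Ω) : Matrix (Fin (m + 1)) (Fin (m + 1)) Ω)
    rw [e]
    exact hval.comp continuous_inv
  have hsr : ∀ (H : Subgroup V) (r : H.comap π →* GL (Fin (m + 1)) Ω), Attached π fr c H r → ∀ γ : H.comap π,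
        ((s γ : GL (Fin (m + 1)) Ω) : Matrix (Fin (m + 1)) (Fin (m + 1)) Ω).charpoly =
          ((r γ : GL (Fin (m + 1)) Ω) : Matrix (Fin (m + 1)) (Fin (m + 1)) Ω).charpoly := by
    intro H' r hr γ
    refine charpoly_eq (R := s.comp (H'.comap π).subtype) (R' := r) (fun x => ?_) γ
    change ((s x : GL (Fin (m + 1)) Ω) : Matrix (Fin (m + 1)) (Fin (m + 1)) Ω).trace = _
    have h3 : (1 : Γ) * x * 1⁻¹ ∈ H'.comap π := by rw [one_mul, inv_one, mul_one]; exact x.2
    rw [hs1, hT0 H' r hr 1 x h3]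
    have e : (⟨(1 : Γ) * x * 1⁻¹, h3⟩ : H'.comap π) = x := Subtype.ext (by
      change (1 : Γ) * x * 1⁻¹ = x
      group)
    rw [e]
  refine ⟨s, hscont, fun Q => ?_, hsr⟩
  have h4 := hsr (H (π (fr Q))) (r0 _ (hHS _)) (hr0 _ _) ⟨_, hmem (fr Q)⟩
  rw [charpoly_fr hfr hcc (hr0 _ _) (δ (π (fr Q))) Q (hmem (fr Q))] at h4
  rw [← h4]
  have h5 := charpoly_conj (s (δ (π (fr Q))))⁻¹ (s (fr Q))
  rw [inv_inv] at h5
  rw [← h5]
  congr 2
  rw [map_mul, map_mul, map_inv]

end patch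

end Pool.Agent.L5helper16.PP
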