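import Mathlib

/-!
# Representations of finite groups with trace `A reg - b + j`
-/

set_option autoImplicit false

namespace Pool.Agent.L5helper16.PP

open Matrix Finset

lemma prop_id {Ω : Type*} [Field Ω] (P Q B R S : Prop) [Decidable P] [Decidable Q] [Decidable B] [Decidable R]
    [Decidable S] : ((if P then (1 : Ω) else 0) - (if B ∧ Q then 1 else 0)) * ((if R then 1 else 0) -
      (if B ∧ S then 1 else 0)) = (if R then (if P then (1 : Ω) else 0) else 0) -
        (if R then (if B ∧ Q then (1 : Ω) else 0) else 0) - (if S then (if B ∧ P then (1 : Ω) else 0) else 0) +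
        (if S then (if B ∧ Q then (1 : Ω) else 0) else 0) := by
  by_cases e1 : P <;> by_cases e2 : Q <;> by_cases e3 : B <;> by_cases e4 : R <;> by_cases e5 : S <;>
    simp [e1, e2, e3, e4, e5]

section aug

variable {H : Type*} [Group H] [Fintype H] [DecidableEq H] (Ω : Type*) [Field Ω] (A b : ℕ)

/-- the entries -/
def en (h : H) (p q : H × Fin A) : Ω :=
  if p.2 = q.2 then (if p.1 = h * q.1 then 1 else 0) - (if (p.2 : ℕ) < b ∧ p.1 = h then 1 else 0) else 0

/-- the index set: the pairs `(x, i)`, without `(1, i)` for `i < b` -/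
abbrev Idx (H : Type*) [Group H] (A b : ℕ) : Type _ := {p : H × Fin A // p.1 = 1 → b ≤ p.2}

/-- the matrices -/
def am (h : H) : Matrix (Idx H A b) (Idx H A b) Ω := Matrix.of fun p q => en Ω A b h p.1 q.1

omit [Fintype H] in
lemma am_one : am Ω A b (1 : H) = 1 := by
  ext p q
  rw [am, Matrix.of_apply, Matrix.one_apply, en]
  by_cases h2 : p.1.2 = q.1.2
  · rw [if_pos h2]
    have h3 : ¬ ((p.1.2 : ℕ) < b ∧ p.1.1 = 1) := by
      rintro ⟨h3, h4⟩
      have := p.2 h4
      omega
    rw [if_neg h3, sub_zero, one_mul]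
    by_cases h1 : p.1.1 = q.1.1
    · rw [if_pos h1, if_pos (Subtype.ext (Prod.ext h1 h2))]
    · rw [if_neg h1, if_neg]
      rintro rfl
      exact h1 rfl
  · rw [if_neg h2, if_neg]
    rintro rfl
    exact h2 rfl

lemma am_mul (h h' : H) : am Ω A b (h * h') = am Ω A b h * am Ω A b h' := by
  ext p q
  rw [Matrix.mul_apply, am, Matrix.of_apply]
  have h1 : ∑ u : Idx H A b, am Ω A b h p u * am Ω A b h' u q =
      ∑ u : H × Fin A, en Ω A b h p.1 u * en Ω A b h' u q.1 := by
    rw [← Fintype.sum_subtype_add_sum_subtype (fun u : H × Fin A => u.1 = 1 → b ≤ u.2)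
      (fun u => en Ω A b h p.1 u * en Ω A b h' u q.1)]
    have h2 : ∑ u : {u : H × Fin A // ¬ (u.1 = 1 → b ≤ u.2)}, en Ω A b h p.1 u * en Ω A b h' u q.1 = 0 := by
      refine sum_eq_zero fun u _ => ?_
      have h3 := u.2
      push Not at h3
      have h4 : en Ω A b h p.1 u = 0 := by
        unfold en
        by_cases h5 : p.1.2 = (u : H × Fin A).2
        · rw [if_pos h5, h3.1, mul_one, h5]
          by_cases h6 : p.1.1 = h
          · rw [if_pos h6, if_pos ⟨h3.2, h6⟩, sub_self]
          · rw [if_neg h6, if_neg (fun h7 => h6 h7.2), sub_self]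
        · rw [if_neg h5]
      rw [h4, zero_mul]
    rw [h2, add_zero]
    rfl
  rw [h1, Fintype.sum_prod_type_right]
  rw [sum_eq_single p.1.2]
  · unfold en
    simp only [if_true]
    by_cases h2 : p.1.2 = q.1.2
    · simp only [if_pos h2]
      have h3 : ∀ y : H, ((if p.1.1 = h * y then (1 : Ω) else 0) - (if (p.1.2 : ℕ) < b ∧ p.1.1 = h then 1 else 0)) *
          ((if y = h' * q.1.1 then 1 else 0) - (if (p.1.2 : ℕ) < b ∧ y = h' then 1 else 0)) =
          (if y = h' * q.1.1 then (if p.1.1 = h * y then (1 : Ω) else 0) else 0) -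
          (if y = h' * q.1.1 then (if (p.1.2 : ℕ) < b ∧ p.1.1 = h then (1 : Ω) else 0) else 0) -
          (if y = h' then (if (p.1.2 : ℕ) < b ∧ p.1.1 = h * y then (1 : Ω) else 0) else 0) +
          (if y = h' then (if (p.1.2 : ℕ) < b ∧ p.1.1 = h then (1 : Ω) else 0) else 0) := by
        intro y
        exact prop_id _ _ _ _ _
      simp_rw [h3]
      rw [sum_add_distrib, sum_sub_distrib, sum_sub_distrib]
      simp only [sum_ite_eq', mem_univ, if_true, mul_assoc]
      ring
    · simp only [if_neg h2, mul_zero, sum_const_zero]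
  · intro k _ hk
    refine sum_eq_zero fun y _ => ?_
    have : en Ω A b h p.1 (y, k) = 0 := by
      unfold en
      rw [if_neg (fun h => hk h.symm)]
    rw [this, zero_mul]
  · intro h
    exact absurd (mem_univ _) h

lemma am_trace (hb : b ≤ A) (h : H) (hh : h ≠ 1) : (am Ω A b h).trace = -(b : Ω) := by
  rw [Matrix.trace]
  have h1 : ∀ p : Idx H A b, (am Ω A b h).diag p = -(if (p.1.2 : ℕ) < b ∧ p.1.1 = h then (1 : Ω) else 0) := by
    intro p
    rw [Matrix.diag_apply, am, Matrix.of_apply, en, if_pos rfl, if_neg, zero_sub]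
    intro h2
    exact hh (by simpa using h2)
  simp_rw [h1]
  rw [sum_neg_distrib]
  congr 1
  have h2 : ∑ p : Idx H A b, (if (p.1.2 : ℕ) < b ∧ p.1.1 = h then (1 : Ω) else 0) =
      ∑ u : H × Fin A, (if (u.2 : ℕ) < b ∧ u.1 = h then (1 : Ω) else 0) := by
    rw [← Fintype.sum_subtype_add_sum_subtype (fun u : H × Fin A => u.1 = 1 → b ≤ u.2)
      (fun u => (if (u.2 : ℕ) < b ∧ u.1 = h then (1 : Ω) else 0))]
    have h2 : ∑ u : {u : H × Fin A // ¬ (u.1 = 1 → b ≤ u.2)},
        (if ((u : H × Fin A).2 : ℕ) < b ∧ (u : H × Fin A).1 = h then (1 : Ω) else 0) = 0 := by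
      refine sum_eq_zero fun u _ => ?_
      have h3 := u.2
      push Not at h3
      rw [if_neg]
      rintro ⟨-, h4⟩
      exact hh (h4.symm.trans h3.1)
    rw [h2, add_zero]
  rw [h2, Fintype.sum_prod_type_right]
  have h3 : ∀ k : Fin A, ∑ x : H, (if ((x, k).2 : ℕ) < b ∧ (x, k).1 = h then (1 : Ω) else 0) =
      if (k : ℕ) < b then 1 else 0 := by
    intro k
    by_cases hk : (k : ℕ) < b
    · simp [hk]
    · simp [hk]
  simp_rw [h3]
  rw [Fin.sum_univ_eq_sum_range (fun k => if k < b then (1 : Ω) else 0), sum_ite, sum_const_zero, add_zero, sum_const,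
    nsmul_eq_mul, mul_one]
  congr 1
  have : (range A).filter (fun k => k < b) = range b := by
    ext k
    simp only [mem_filter, mem_range]
    omega
  rw [this, card_range]

lemma card_idx (hb : b ≤ A) : Fintype.card (Idx H A b) + b = A * Fintype.card H := by
  have h1 : Fintype.card (Idx H A b) + Fintype.card {u : H × Fin A // ¬ (u.1 = 1 → b ≤ u.2)} =
      Fintype.card (H × Fin A) := by
    rw [← Fintype.card_sum]
    exact Fintype.card_congr (Equiv.sumCompl fun u : H × Fin A => u.1 = 1 → b ≤ u.2)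
  rw [Fintype.card_prod, Fintype.card_fin] at h1
  have h2 : Fintype.card {u : H × Fin A // ¬ (u.1 = 1 → b ≤ u.2)} = b := by
    have e : {u : H × Fin A // ¬ (u.1 = 1 → b ≤ u.2)} ≃ Fin b :=
      { toFun := fun u => ⟨u.1.2, by
          have h3 := u.2
          push Not at h3
          exact h3.2⟩
        invFun := fun k => ⟨(1, ⟨k, by omega⟩), by
          push Not
          exact ⟨rfl, k.2⟩⟩
        left_inv := by
          rintro ⟨⟨x, k⟩, h⟩
          push Not at h
          simp only [Subtype.mk.injEq, Prod.mk.injEq, and_true]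
          exact h.1.symm
        right_inv := fun k => rfl }
    rw [Fintype.card_congr e, Fintype.card_fin]
  rw [h2] at h1
  rw [h1, mul_comm]

end aug

/-- the class function with value `n` at `1` and `-β` elsewhere is `A reg - β` for some `A ≥ β` -/
def RegType {V : Type*} [Group V] (n : ℕ) (β : ℤ) (H : Subgroup V) : Prop :=
  ∃ A : ℕ, β ≤ A ∧ (A * Nat.card H : ℤ) = n + β

/-- **The representation.** -/
theorem exists_aug {V : Type*} [Group V] [Finite V] [DecidableEq V] (Ω : Type*) [Field Ω] {n : ℕ} {β : ℤ}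
    {H : Subgroup V} (h : RegType n β H) : ∃ ρ : H →* GL (Fin n) Ω,
      ∀ x : H, ((ρ x : GL (Fin n) Ω) : Matrix (Fin n) (Fin n) Ω).trace = if x = 1 then (n : Ω) else -(β : Ω) := by
  have := Fintype.ofFinite H
  obtain ⟨A, h1, h2⟩ := h
  set b := β.toNat with hb
  set j := (-β).toNat with hj
  have hβ : β = b - j := by omega
  have hbA : b ≤ A := by omega
  let ι := Idx H A b ⊕ Fin j
  let M : H →* Matrix ι ι Ω :=
    { toFun := fun x => Matrix.fromBlocks (am Ω A b x) 0 0 1
      map_one' := by rw [am_one, Matrix.fromBlocks_one]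
      map_mul' := fun x y => by
        rw [Matrix.fromBlocks_multiply, am_mul]
        simp }
  have hcard : Fintype.card ι = n := by
    have h3 := card_idx (H := H) A b hbA
    rw [Nat.card_eq_fintype_card] at h2
    simp only [ι, Fintype.card_sum, Fintype.card_fin]
    have h4 : (Fintype.card (Idx H A b) : ℤ) + b = A * Fintype.card H := by exact_mod_cast h3
    have h5 : ((Fintype.card (Idx H A b) + j : ℕ) : ℤ) = n := by
      push_cast
      rw [hβ] at h2
      linarith
    exact_mod_cast h5
  let e : ι ≃ Fin n := Fintype.equivFinOfCardEq hcard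
  let ρ : H →* GL (Fin n) Ω := (((Matrix.reindexAlgEquiv Ω Ω e : Matrix ι ι Ω ≃ₐ[Ω] _) : Matrix ι ι Ω →* _).comp M).toHomUnits
  refine ⟨ρ, fun x => ?_⟩
  have h3 : ((ρ x : GL (Fin n) Ω) : Matrix (Fin n) (Fin n) Ω) = (M x).submatrix e.symm e.symm := rfl
  have h4 : ((M x).submatrix e.symm e.symm).trace = (M x).trace := by
    simp only [Matrix.trace, Matrix.diag_apply, Matrix.submatrix_apply]
    exact Equiv.sum_comp e.symm (fun i => M x i i)
  rw [h3, h4]
  by_cases hx : x = 1
  · rw [if_pos hx, hx, map_one, Matrix.trace_one, hcard]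
  · rw [if_neg hx]
    change (Matrix.fromBlocks (am Ω A b x) 0 0 (1 : Matrix (Fin j) (Fin j) Ω)).trace = _
    have h5 : (Matrix.fromBlocks (am Ω A b x) 0 0 (1 : Matrix (Fin j) (Fin j) Ω)).trace =
        (am Ω A b x).trace + (1 : Matrix (Fin j) (Fin j) Ω).trace := by
      simp only [Matrix.trace, Fintype.sum_sum_type, Matrix.diag_apply, Matrix.fromBlocks_apply₁₁,
        Matrix.fromBlocks_apply₂₂]
    rw [h5, am_trace Ω A b hbA x (fun h => hx (by exact h)), Matrix.trace_one, Fintype.card_fin, hβ]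
    push_cast
    ring

end Pool.Agent.L5helper16.PP
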