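import Pool.Agent.L5helper16.PP.F
import Pool.Agent.L5helper16.PP.G
import Pool.Agent.L5helper16.GP.E

/-!
# Parameters which do not patch
-/

set_option autoImplicit false

namespace Pool.Agent.L5helper16.PP

open Matrix Finset Topology Pool.Agent.L5helper16.GP

section avg

variable {V Ω : Type*} [Group V] [Fintype V] [Field Ω] [CharZero Ω]

/-- if the identities hold then the average of the function is a natural number -/
lemma avg_nat (T : V → Ω) (N : ℕ) (h : ∀ g : Fin N → V, GG (TA T) N (rA T ∘ g) = 0) :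
    ∃ j < N, ∑ v, T v = (j : Ω) * Fintype.card V := by
  have hc : (Fintype.card V : Ω) ≠ 0 := Nat.cast_ne_zero.mpr Fintype.card_ne_zero
  have hG : ∀ a : Fin N → AA T, GG (TA T) N a = 0 := by
    intro a
    rw [multi_zero (GG (TA T) N) (fun g => rA T g) (AA_span T) fun g => h g, _root_.zero_apply]
  set e : AA T := (Fintype.card V : Ω)⁻¹ • ∑ v, rA T v with he
  have h1 : ∀ w, rA T w * ∑ v, rA T v = ∑ v, rA T v := by
    intro w
    rw [mul_sum, ← Equiv.sum_comp (Equiv.mulLeft w) (fun v => rA T v)]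
    refine sum_congr rfl fun v _ => ?_
    rw [← map_mul]
    rfl
  have h2 : e * e = e := by
    rw [he, smul_mul_smul_comm, sum_mul]
    simp_rw [h1]
    rw [sum_const, card_univ, ← Nat.cast_smul_eq_nsmul Ω, smul_smul, mul_assoc, inv_mul_cancel₀ hc, mul_one]
  have h3 := GG_idem (TA T) e h2 N
  rw [hG, eq_comm, prod_eq_zero_iff] at h3
  obtain ⟨j, hj, h4⟩ := h3
  refine ⟨j, mem_range.mp hj, ?_⟩
  rw [he, map_smul, map_sum, smul_eq_mul, sub_eq_zero] at h4
  simp_rw [TA_rA] at h4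
  rw [← h4]
  field_simp

end avg

section fails

variable {V : Type*} [Group V] {n : ℕ} {β : ℤ}

lemma RegType.zpow [Finite V] {H : Subgroup V} (h : RegType n β H) (g v : V) (hv : g * v * g⁻¹ ∈ H) :
    RegType n β (Subgroup.zpowers v) := by
  obtain ⟨A, h1, h2⟩ := h
  have h3 : Nat.card (Subgroup.zpowers v) ∣ Nat.card H := by
    rw [Nat.card_zpowers]
    have h4 : orderOf v = orderOf (⟨g * v * g⁻¹, hv⟩ : H) := by
      rw [Subgroup.orderOf_mk]
      have : g * v * g⁻¹ = MulAut.conj g v := rfl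
      rw [this]
      exact (orderOf_injective (MulAut.conj g).toMonoidHom (MulAut.conj g).injective v).symm
    rw [h4]
    exact orderOf_dvd_natCard _
  obtain ⟨k, hk⟩ := h3
  have hk1 : 1 ≤ k := by
    rcases Nat.eq_zero_or_pos k with h0 | h0
    · rw [h0, mul_zero] at hk
      exact absurd hk Nat.card_pos.ne'
    · exact h0
  refine ⟨A * k, ?_, ?_⟩
  · calc β ≤ A := h1
      _ ≤ ((A * k : ℕ) : ℤ) := by exact_mod_cast Nat.le_mul_of_pos_right A hk1
  · rw [hk] at h2
    push_cast at h2 ⊢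
    linarith

variable {Ω : Type*} [Field Ω] [CharZero Ω] [DecidableEq V]

omit [CharZero Ω] in
lemma trace_pow {H : Subgroup V} {ρ : H →* GL (Fin n) Ω}
    (hρ : ∀ x : H, ((ρ x : GL (Fin n) Ω) : Matrix (Fin n) (Fin n) Ω).trace = if x = 1 then (n : Ω) else -(β : Ω))
    (x : H) : ((ρ x : GL (Fin n) Ω) : Matrix (Fin n) (Fin n) Ω).trace = if (x : V) = 1 then (n : Ω) else -(β : Ω) := by
  rw [hρ]
  by_cases hx : x = 1
  · rw [if_pos hx, if_pos (by rw [hx]; rfl)]
  · have hx' : (x : V) ≠ 1 := fun h => hx (Subtype.ext h)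
    rw [if_neg hx, if_neg hx']

lemma cp {H H' : Subgroup V} {ρ : H →* GL (Fin n) Ω} {ρ' : H' →* GL (Fin n) Ω}
    (hρ : ∀ x : H, ((ρ x : GL (Fin n) Ω) : Matrix (Fin n) (Fin n) Ω).trace = if x = 1 then (n : Ω) else -(β : Ω))
    (hρ' : ∀ x : H', ((ρ' x : GL (Fin n) Ω) : Matrix (Fin n) (Fin n) Ω).trace = if x = 1 then (n : Ω) else -(β : Ω))
    (x : H) (x' : H') (h : ∀ j : ℤ, (x : V) ^ j = 1 ↔ (x' : V) ^ j = 1) :
    ((ρ x : GL (Fin n) Ω) : Matrix (Fin n) (Fin n) Ω).charpoly =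
      ((ρ' x' : GL (Fin n) Ω) : Matrix (Fin n) (Fin n) Ω).charpoly := by
  have h1 := charpoly_eq (N := Multiplicative ℤ) (R := ρ.comp (zpowersHom H x)) (R' := ρ'.comp (zpowersHom H' x'))
    (fun j => by
      change ((ρ (x ^ j.toAdd) : GL (Fin n) Ω) : Matrix (Fin n) (Fin n) Ω).trace =
        ((ρ' (x' ^ j.toAdd) : GL (Fin n) Ω) : Matrix (Fin n) (Fin n) Ω).trace
      rw [trace_pow hρ, trace_pow hρ']
      push_cast
      by_cases hj : (x : V) ^ j.toAdd = 1
      · rw [if_pos hj, if_pos ((h _).mp hj)]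
      · rw [if_neg hj, if_neg (fun h' => hj ((h _).mpr h'))]) (Multiplicative.ofAdd 1)
  change ((ρ (x ^ (1 : ℤ)) : GL (Fin n) Ω) : Matrix (Fin n) (Fin n) Ω).charpoly =
        ((ρ' (x' ^ (1 : ℤ)) : GL (Fin n) Ω) : Matrix (Fin n) (Fin n) Ω).charpoly at h1
  rwa [zpow_one, zpow_one] at h1

variable {Γ X : Type*} [Group Γ] [TopologicalSpace Γ] [IsTopologicalGroup Γ] [MulAction Γ X]
  [TopologicalSpace Ω] [IsTopologicalRing Ω] [T2Space Ω]
  {π : Γ →* V} (hopen : IsOpen (π.ker : Set Γ)) {fr : X → Γ}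
  (hfr : ∀ (γ : Γ) (Q : X), fr (γ • Q) = γ * fr Q * γ⁻¹) (hd : Dense (Set.range fr))

include hopen hfr hd in
/-- **Failure of patching.** -/
theorem fails [Finite V] (hπ : Function.Surjective π) {S : Set (Subgroup V)} (hS : Covers S)
    (h1 : ∀ H ∈ S, RegType n β H) (h2 : ¬ RegType n β (⊤ : Subgroup V)) :
    ∃ c : X → GL (Fin n) Ω, (∀ (γ : Γ) (Q : X), (c (γ • Q) : Matrix (Fin n) (Fin n) Ω).charpoly =
      (c Q : Matrix (Fin n) (Fin n) Ω).charpoly) ∧ (∀ H ∈ S, ∃ r : H.comap π →* GL (Fin n) Ω, Attached π fr c H r) ∧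
      ¬ ∃ s : Γ →* GL (Fin n) Ω, Continuous s ∧ ∀ Q : X, ((s (fr Q) : GL (Fin n) Ω) :
        Matrix (Fin n) (Fin n) Ω).charpoly = (c Q : Matrix (Fin n) (Fin n) Ω).charpoly := by
  have := Fintype.ofFinite V
  have hz : ∀ v : V, RegType n β (Subgroup.zpowers v) := by
    intro v
    obtain ⟨g, H, hH, hg⟩ := hS v
    exact (h1 H hH).zpow g v hg
  choose ρz hρz using fun v => exists_aug Ω (hz v)
  let x0 : ∀ v : V, Subgroup.zpowers v := fun v => ⟨v, Subgroup.mem_zpowers v⟩
  let c : X → GL (Fin n) Ω := fun Q => ρz (π (fr Q)) (x0 (π (fr Q)))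
  refine ⟨c, fun γ Q => ?_, fun H hH => ?_, ?_⟩
  · refine cp (hρz _) (hρz _) _ _ fun j => ?_
    change (π (fr (γ • Q))) ^ j = 1 ↔ (π (fr Q)) ^ j = 1
    rw [hfr, map_mul, map_mul, map_inv, conj_zpow]
    constructor
    · intro h
      rw [mul_inv_eq_one] at h
      exact mul_eq_left.mp h
    · intro h
      rw [h, mul_one, mul_inv_cancel]
  · obtain ⟨ρ, hρ⟩ := exists_aug Ω (h1 H hH)
    let r : H.comap π →* GL (Fin n) Ω := ρ.comp (π.subgroupComap H)
    refine ⟨r, ?_, fun Q k hk _ _ => ?_⟩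
    · refine cont_of (π.subgroupComap H) ?_ ρ
      have e : ((π.subgroupComap H).ker : Set (H.comap π)) = (fun x : H.comap π => (x : Γ)) ⁻¹' (π.ker : Set Γ) := by
        ext x
        simp only [Set.mem_preimage, SetLike.mem_coe, MonoidHom.mem_ker]
        rw [← Subtype.coe_inj]
        rfl
      rw [e]
      exact hopen.preimage continuous_subtype_val
    · have e : ((c Q : Matrix (Fin n) (Fin n) Ω) ^ k) = ((ρz (π (fr Q)) (x0 (π (fr Q)) ^ k) : GL (Fin n) Ω) :
          Matrix (Fin n) (Fin n) Ω) := by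
        rw [map_pow, Units.val_pow_eq_pow_val]
      rw [e]
      refine cp hρ (hρz _) _ _ fun j => ?_
      change (π (fr Q ^ k)) ^ j = 1 ↔ (π (fr Q) ^ k) ^ j = 1
      rw [map_pow]
  · rintro ⟨s, hs, hsQ⟩
    let T : V → Ω := fun v => if v = 1 then (n : Ω) else -(β : Ω)
    have hT : ∀ γ, ((s γ : GL (Fin n) Ω) : Matrix (Fin n) (Fin n) Ω).trace = T (π γ) := by
      have hc1 : Continuous fun γ => ((s γ : GL (Fin n) Ω) : Matrix (Fin n) (Fin n) Ω).trace :=
        Continuous.matrix_trace (Units.continuous_val.comp hs)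
      have hc2 : Continuous fun γ => T (π γ) := cont_of π hopen T
      refine congrFun (Continuous.ext_on hd hc1 hc2 ?_)
      rintro _ ⟨Q, rfl⟩
      change ((s (fr Q) : GL (Fin n) Ω) : Matrix (Fin n) (Fin n) Ω).trace = T (π (fr Q))
      rw [trace_of_charpoly (hsQ Q)]
      exact trace_pow (hρz _) _
    have hG : ∀ g : Fin (n + 1) → V, GG (TA T) (n + 1) (rA T ∘ g) = 0 := by
      intro g
      let γ : Fin (n + 1) → Γ := fun i => Function.surjInv hπ (g i)
      have hγ : ∀ i, π (γ i) = g i := fun i => Function.surjInv_eq hπ (g i)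
      have h3 := GG_transfer (M := Γ) (TA T) (Matrix.traceLinearMap (Fin n) Ω Ω) ((rA T).comp π)
        ((Units.coeHom (Matrix (Fin n) (Fin n) Ω)).comp s) (fun x => by
          change TA T (rA T (π x)) = ((s x : GL (Fin n) Ω) : Matrix (Fin n) (Fin n) Ω).trace
          rw [TA_rA, hT]) (n + 1) γ
      rw [GG_trace, FF_large _ (Nat.lt_succ_self n)] at h3
      rw [← h3]
      congr 1
      funext i
      change rA T (g i) = rA T (π (γ i))
      rw [hγ]
    obtain ⟨j, -, hj⟩ := avg_nat T (n + 1) hG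
    have hsum : ∑ v, T v = (n : Ω) - (β : Ω) * (Fintype.card V - 1) := by
      rw [← add_sum_erase univ T (mem_univ 1)]
      have e1 : T 1 = n := if_pos rfl
      have e2 : ∑ v ∈ univ.erase 1, T v = ∑ v ∈ univ.erase (1 : V), -(β : Ω) :=
        sum_congr rfl fun v hv => if_neg (mem_erase.mp hv).1
      rw [e1, e2, sum_const, card_erase_of_mem (mem_univ _), card_univ, nsmul_eq_mul,
        Nat.cast_sub Fintype.card_pos]
      push_cast
      ring
    rw [hsum] at hj
    have h5 : ((n : ℤ) + β) = (j + β) * Fintype.card V := by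
      have : (((n : ℤ) + β : ℤ) : Ω) = (((j + β) * Fintype.card V : ℤ) : Ω) := by
        push_cast
        linear_combination hj
      exact_mod_cast this
    obtain ⟨g, H, hH, -⟩ := hS 1
    obtain ⟨A, hA1, hA2⟩ := h1 H hH
    have hcV : (0 : ℤ) < Fintype.card V := by exact_mod_cast Fintype.card_pos
    have h6 : (0 : ℤ) ≤ j + β := by
      have h7 : (0 : ℤ) ≤ (j + β) * Fintype.card V := by
        rw [← h5, ← hA2]
        positivity
      exact nonneg_of_mul_nonneg_left h7 hcV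
    apply h2
    refine ⟨(j + β).toNat, by omega, ?_⟩
    rw [Nat.card_congr Subgroup.topEquiv.toEquiv, Nat.card_eq_fintype_card, h5, Int.toNat_of_nonneg h6]

end fails

end Pool.Agent.L5helper16.PP
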