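import Pool.Agent.L5helper16.PP.H

/-!
# Class functions which are characters on the members of `S`
-/

set_option autoImplicit false

namespace Pool.Agent.L5helper16.PP

open Matrix Finset Topology Pool.Agent.L5helper16.GP

section cls

variable {V : Type*} [Group V] {n : ℕ} {Ω : Type*} [Field Ω] [CharZero Ω]

lemma cpT {H H' : Subgroup V} {ρ : H →* GL (Fin n) Ω} {ρ' : H' →* GL (Fin n) Ω} {T : V → Ω}
    (hρ : ∀ x : H, ((ρ x : GL (Fin n) Ω) : Matrix (Fin n) (Fin n) Ω).trace = T x)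
    (hρ' : ∀ x : H', ((ρ' x : GL (Fin n) Ω) : Matrix (Fin n) (Fin n) Ω).trace = T x)
    (x : H) (x' : H') (h : ∀ j : ℤ, T ((x : V) ^ j) = T ((x' : V) ^ j)) :
    ((ρ x : GL (Fin n) Ω) : Matrix (Fin n) (Fin n) Ω).charpoly =
      ((ρ' x' : GL (Fin n) Ω) : Matrix (Fin n) (Fin n) Ω).charpoly := by
  have h1 := charpoly_eq (N := Multiplicative ℤ) (R := ρ.comp (zpowersHom H x)) (R' := ρ'.comp (zpowersHom H' x'))
    (fun j => by
      change ((ρ (x ^ j.toAdd) : GL (Fin n) Ω) : Matrix (Fin n) (Fin n) Ω).trace =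
        ((ρ' (x' ^ j.toAdd) : GL (Fin n) Ω) : Matrix (Fin n) (Fin n) Ω).trace
      rw [hρ, hρ']
      push_cast
      exact h _) (Multiplicative.ofAdd 1)
  change ((ρ (x ^ (1 : ℤ)) : GL (Fin n) Ω) : Matrix (Fin n) (Fin n) Ω).charpoly =
        ((ρ' (x' ^ (1 : ℤ)) : GL (Fin n) Ω) : Matrix (Fin n) (Fin n) Ω).charpoly at h1
  rwa [zpow_one, zpow_one] at h1

variable {Γ X : Type*} [Group Γ] [TopologicalSpace Γ] [IsTopologicalGroup Γ] [MulAction Γ X]
  [TopologicalSpace Ω] [IsTopologicalRing Ω] [T2Space Ω]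
  {π : Γ →* V} (hopen : IsOpen (π.ker : Set Γ)) {fr : X → Γ}
  (hfr : ∀ (γ : Γ) (Q : X), fr (γ • Q) = γ * fr Q * γ⁻¹) (hd : Dense (Set.range fr))

include hopen hfr hd in
/-- **A class function which is locally a character but not a character yields parameters which do not patch.** -/
theorem fails_cls [IsAlgClosed Ω] [Finite V] (hπ : Function.Surjective π) {S : Set (Subgroup V)} (hS : Covers S)
    {T : V → Ω} (hT : ∀ g v : V, T (g * v * g⁻¹) = T v)
    (h1 : ∀ H ∈ S, ∃ ρ : H →* GL (Fin n) Ω, ∀ x : H,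
      ((ρ x : GL (Fin n) Ω) : Matrix (Fin n) (Fin n) Ω).trace = T x)
    (h2 : ¬ ∃ ρ : V →* GL (Fin n) Ω, ∀ x : V, ((ρ x : GL (Fin n) Ω) : Matrix (Fin n) (Fin n) Ω).trace = T x) :
    ∃ c : X → GL (Fin n) Ω, (∀ (γ : Γ) (Q : X), (c (γ • Q) : Matrix (Fin n) (Fin n) Ω).charpoly =
      (c Q : Matrix (Fin n) (Fin n) Ω).charpoly) ∧ (∀ H ∈ S, ∃ r : H.comap π →* GL (Fin n) Ω, Attached π fr c H r) ∧
      ¬ ∃ s : Γ →* GL (Fin n) Ω, Continuous s ∧ ∀ Q : X, ((s (fr Q) : GL (Fin n) Ω) :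
        Matrix (Fin n) (Fin n) Ω).charpoly = (c Q : Matrix (Fin n) (Fin n) Ω).charpoly := by
  have := Fintype.ofFinite V
  choose g H hH hg using hS
  choose ρ hρ using h1
  let x0 : ∀ v : V, H v := fun v => ⟨g v * v * (g v)⁻¹, hg v⟩
  have hx0 : ∀ (v : V) (j : ℤ), T ((x0 v : V) ^ j) = T (v ^ j) := by
    intro v j
    change T ((g v * v * (g v)⁻¹) ^ j) = _
    rw [conj_zpow, hT]
  let c : X → GL (Fin n) Ω := fun Q => ρ (H (π (fr Q))) (hH _) (x0 (π (fr Q)))
  refine ⟨c, fun γ Q => ?_, fun H' hH' => ?_, ?_⟩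
  · refine cpT (hρ _ _) (hρ _ _) _ _ fun j => ?_
    rw [hx0, hx0, hfr, map_mul, map_mul, map_inv, conj_zpow, hT]
  · let r : H'.comap π →* GL (Fin n) Ω := (ρ H' hH').comp (π.subgroupComap H')
    refine ⟨r, ?_, fun Q k hk _ _ => ?_⟩
    · refine cont_of (π.subgroupComap H') ?_ (ρ H' hH')
      have e : ((π.subgroupComap H').ker : Set (H'.comap π)) = (fun x : H'.comap π => (x : Γ)) ⁻¹' (π.ker : Set Γ) := by
        ext x
        simp only [Set.mem_preimage, SetLike.mem_coe, MonoidHom.mem_ker]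
        rw [← Subtype.coe_inj]
        rfl
      rw [e]
      exact hopen.preimage continuous_subtype_val
    · have e : ((c Q : Matrix (Fin n) (Fin n) Ω) ^ k) = ((ρ (H (π (fr Q))) (hH _) (x0 (π (fr Q)) ^ k) :
          GL (Fin n) Ω) : Matrix (Fin n) (Fin n) Ω) := by
        rw [map_pow, Units.val_pow_eq_pow_val]
      rw [e]
      refine cpT (hρ _ _) (hρ _ _) _ _ fun j => ?_
      push_cast
      change T ((π (fr Q ^ k)) ^ j) = T (((x0 (π (fr Q)) : V) ^ k) ^ j)
      rw [← zpow_natCast (x0 (π (fr Q)) : V) k, ← _root_.zpow_mul, hx0, map_pow, ← zpow_natCast (π (fr Q)) k, ← _root_.zpow_mul]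
  · rintro ⟨s, hs, hsQ⟩
    have hTs : ∀ γ, ((s γ : GL (Fin n) Ω) : Matrix (Fin n) (Fin n) Ω).trace = T (π γ) := by
      have hc1 : Continuous fun γ => ((s γ : GL (Fin n) Ω) : Matrix (Fin n) (Fin n) Ω).trace :=
        Continuous.matrix_trace (Units.continuous_val.comp hs)
      have hc2 : Continuous fun γ => T (π γ) := cont_of π hopen T
      refine congrFun (Continuous.ext_on hd hc1 hc2 ?_)
      rintro _ ⟨Q, rfl⟩
      change ((s (fr Q) : GL (Fin n) Ω) : Matrix (Fin n) (Fin n) Ω).trace = T (π (fr Q))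
      rw [trace_of_charpoly (hsQ Q), ← zpow_one (π (fr Q)), ← hx0, zpow_one]
      exact hρ _ _ _
    have hG : ∀ g : Fin (n + 1) → V, GG (TA T) (n + 1) (rA T ∘ g) = 0 := by
      intro g
      let γ : Fin (n + 1) → Γ := fun i => Function.surjInv hπ (g i)
      have hγ : ∀ i, π (γ i) = g i := fun i => Function.surjInv_eq hπ (g i)
      have h3 := GG_transfer (M := Γ) (TA T) (Matrix.traceLinearMap (Fin n) Ω Ω) ((rA T).comp π)
        ((Units.coeHom (Matrix (Fin n) (Fin n) Ω)).comp s) (fun x => by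
          change TA T (rA T (π x)) = ((s x : GL (Fin n) Ω) : Matrix (Fin n) (Fin n) Ω).trace
          rw [TA_rA, hTs]) (n + 1) γ
      rw [GG_trace, FF_large _ (Nat.lt_succ_self n)] at h3
      rw [← h3]
      congr 1
      funext i
      change rA T (g i) = rA T (π (γ i))
      rw [hγ]
    have hT1 : T 1 = n := by
      have h3 := hTs 1
      rw [map_one, map_one, Units.val_one, Matrix.trace_one, Fintype.card_fin] at h3
      exact h3.symm
    have hcomm : ∀ g h : V, T (g * h) = T (h * g) := by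
      intro g h
      have h3 := hT g (h * g)
      rw [← h3]
      congr 1
      group
    have hfin : FiniteDimensional Ω (WT T) := inferInstanceAs (FiniteDimensional Ω (WW T))
    obtain ⟨ρ', hρ', -⟩ := rep_of_fun hT1 hcomm hfin hG
    exact h2 ⟨ρ', hρ'⟩

end cls

end Pool.Agent.L5helper16.PP
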