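import Pool.Agent.L5helper16.PP.E

/-!
# The algebra graded by an abelian quotient
-/

set_option autoImplicit false

namespace Pool.Agent.L5helper16.PP

open Matrix Finset

section adj

variable {Ω : Type*} [Field Ω] {Γ : Type*} [Group Γ] {R : Type*} [Ring R] [Algebra Ω R]

/-- the homomorphism to the algebra generated by the image -/
def toAdj (r : Γ →* R) : Γ →* Algebra.adjoin Ω (Set.range r) :=
  r.codRestrict (Algebra.adjoin Ω (Set.range r)) fun g => Algebra.subset_adjoin ⟨g, rfl⟩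

lemma toAdj_span (r : Γ →* R) : ⊤ ≤ Submodule.span Ω (Set.range fun g => toAdj (Ω := Ω) r g) := by
  have hle : ∀ z ∈ Submodule.span Ω (Set.range r), z ∈ Algebra.adjoin Ω (Set.range r) := by
    intro z hz
    have : Submodule.span Ω (Set.range r) ≤ Subalgebra.toSubmodule (Algebra.adjoin Ω (Set.range r)) :=
      Submodule.span_le.mpr fun y hy => Algebra.subset_adjoin hy
    exact this hz
  have h1 : ∀ x : R, x ∈ Algebra.adjoin Ω (Set.range r) → ∀ hx : x ∈ Algebra.adjoin Ω (Set.range r),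
      (⟨x, hx⟩ : Algebra.adjoin Ω (Set.range r)) ∈ Submodule.span Ω (Set.range fun g => toAdj (Ω := Ω) r g) := by
    intro x hx
    have h2 : x ∈ Submodule.span Ω (Submonoid.closure (Set.range r) : Set R) := by
      rw [← Algebra.adjoin_eq_span]
      exact hx
    have h3 : (Submonoid.closure (Set.range r) : Set R) = Set.range r := by
      rw [← MonoidHom.coe_mrange, Submonoid.closure_eq]
    rw [h3] at h2
    clear hx h3
    induction h2 using Submodule.span_induction with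
    | mem x hx =>
      obtain ⟨g, rfl⟩ := hx
      intro hx
      exact Submodule.subset_span ⟨g, rfl⟩
    | zero =>
      intro hx
      exact Submodule.zero_mem _
    | add x y hx hy h1 h2 =>
      intro hxy
      exact Submodule.add_mem _ (h1 (hle x hx)) (h2 (hle y hy))
    | smul a x hx h1 =>
      intro hax
      exact Submodule.smul_mem _ _ (h1 (hle x hx))
  intro a _
  exact h1 a.1 a.2 a.2

end adj

section BB

variable {Ω : Type*} [Field Ω] {Γ V : Type*} [Group Γ] [CommGroup V] (π : Γ →* V) (T0 : Γ → Ω)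

/-- the twists of the image of the group -/
noncomputable def bb : Γ →* ((V →* Ωˣ) → AA T0) where
  toFun γ := fun χ => (χ (π γ) : Ω) • rA T0 γ
  map_one' := by
    funext χ
    rw [map_one, map_one, map_one, Units.val_one, one_smul]
    rfl
  map_mul' γ δ := by
    funext χ
    rw [map_mul, map_mul, map_mul, Units.val_mul, Pi.mul_apply, smul_mul_smul_comm]

/-- the algebra generated by them -/
def BB : Subalgebra Ω ((V →* Ωˣ) → AA T0) := Algebra.adjoin Ω (Set.range (bb π T0))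

/-- the algebra as a type -/
def BT : Type _ := ↥(BB π T0)

noncomputable instance : Ring (BT π T0) := inferInstanceAs (Ring ↥(BB π T0))

noncomputable instance : Algebra Ω (BT π T0) := inferInstanceAs (Algebra Ω ↥(BB π T0))

/-- the inclusion -/
noncomputable def vl : BT π T0 →ₐ[Ω] ((V →* Ωˣ) → AA T0) := (BB π T0).val

lemma vl_inj : Function.Injective (vl π T0) := Subtype.val_injective

/-- the homomorphism to this algebra -/
noncomputable def rB : Γ →* BT π T0 := toAdj (Ω := Ω) (bb π T0)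

lemma BB_span : ⊤ ≤ Submodule.span Ω (Set.range fun g => rB π T0 g) := toAdj_span (bb π T0)

lemma vl_rB (γ : Γ) (χ : V →* Ωˣ) : vl π T0 (rB π T0 γ) χ = (χ (π γ) : Ω) • rA T0 γ := rfl

/-- the linear function -/
noncomputable def TB : BT π T0 →ₗ[Ω] Ω where
  toFun x := TA T0 (vl π T0 x 1)
  map_add' _ _ := by
    rw [map_add, Pi.add_apply, map_add]
  map_smul' _ _ := by
    rw [map_smul, Pi.smul_apply, map_smul, RingHom.id_apply]

lemma TB_apply (x : BT π T0) : TB π T0 x = TA T0 (vl π T0 x 1) := rfl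

lemma TB_rB (γ : Γ) : TB π T0 (rB π T0 γ) = T0 γ := by
  rw [TB_apply, vl_rB, MonoidHom.one_apply, Units.val_one, one_smul, TA_rA]

variable {T0} in
lemma TB_comm (hT : ∀ g h, T0 (g * h) = T0 (h * g)) (x y : BT π T0) : TB π T0 (x * y) = TB π T0 (y * x) := by
  rw [TB_apply, TB_apply, map_mul, map_mul, Pi.mul_apply, Pi.mul_apply, TA_comm hT]

/-- the shift on functions -/
def sh (ψ : V →* Ωˣ) : ((V →* Ωˣ) → AA T0) →ₐ[Ω] ((V →* Ωˣ) → AA T0) where
  toFun x := fun χ => x (ψ * χ)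
  map_one' := rfl
  map_mul' _ _ := rfl
  map_zero' := rfl
  map_add' _ _ := rfl
  commutes' _ := rfl

lemma sh_bb (ψ : V →* Ωˣ) (γ : Γ) : sh T0 ψ (bb π T0 γ) = (ψ (π γ) : Ω) • bb π T0 γ := by
  funext χ
  change ((ψ * χ) (π γ) : Ω) • rA T0 γ = (ψ (π γ) : Ω) • ((χ (π γ) : Ω) • rA T0 γ)
  rw [MonoidHom.mul_apply, Units.val_mul, mul_smul]

lemma sh_mem (ψ : V →* Ωˣ) (x : ↥(BB π T0)) : sh T0 ψ x ∈ BB π T0 := by
  have h : BB π T0 ≤ (BB π T0).comap (sh T0 ψ) := by
    refine Algebra.adjoin_le ?_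
    rintro _ ⟨γ, rfl⟩
    change sh T0 ψ (bb π T0 γ) ∈ BB π T0
    rw [sh_bb]
    exact Subalgebra.smul_mem _ (show bb π T0 γ ∈ BB π T0 from Algebra.subset_adjoin (Set.mem_range_self γ)) _
  exact h x.2

/-- the twist -/
noncomputable def th (ψ : V →* Ωˣ) : BT π T0 →ₐ[Ω] BT π T0 :=
  ((sh T0 ψ).comp (BB π T0).val).codRestrict (BB π T0) (sh_mem π T0 ψ)

lemma vl_th (ψ χ : V →* Ωˣ) (x : BT π T0) : vl π T0 (th π T0 ψ x) χ = vl π T0 x (ψ * χ) := rfl

lemma th_rB (ψ : V →* Ωˣ) (γ : Γ) : th π T0 ψ (rB π T0 γ) = (ψ (π γ) : Ω) • rB π T0 γ := by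
  apply vl_inj
  rw [map_smul]
  exact sh_bb π T0 ψ γ

lemma th_th (χ ψ : V →* Ωˣ) (x : BT π T0) : th π T0 χ (th π T0 ψ x) = th π T0 (ψ * χ) x := by
  apply vl_inj
  funext η
  rw [vl_th, vl_th, vl_th]
  exact congrArg (vl π T0 x) (mul_assoc ψ χ η).symm

lemma th_one (x : BT π T0) : th π T0 1 x = x := by
  apply vl_inj
  funext η
  rw [vl_th]
  exact congrArg (vl π T0 x) (one_mul η)

variable {T0} in
lemma TB_nd (hT : ∀ g h, T0 (g * h) = T0 (h * g)) (x : BT π T0)
    (hx : ∀ (ψ : V →* Ωˣ) (y : BT π T0), TB π T0 (th π T0 ψ x * y) = 0) : x = 0 := by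
  apply vl_inj
  funext ψ
  refine TA_nd hT _ fun a => ?_
  have ha := AA_span T0 (x := a) trivial
  induction ha using Submodule.span_induction with
  | mem a ha =>
    obtain ⟨g, rfl⟩ := ha
    have h := hx ψ (rB π T0 g)
    rw [TB_apply, map_mul, Pi.mul_apply, vl_th, vl_rB, MonoidHom.one_apply, Units.val_one, one_smul,
      show ψ * 1 = ψ from mul_one ψ] at h
    exact h
  | zero => rw [mul_zero, map_zero]
  | add a b _ _ h1 h2 => rw [mul_add, map_add, h1, h2, add_zero]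
  | smul c a _ h1 => rw [mul_smul_comm, map_smul, h1, smul_zero]

/-- the homomorphism of the group algebra of the preimage of `H` -/
noncomputable def phi (H : Subgroup V) : MonoidAlgebra Ω (H.comap π) →ₐ[Ω] BT π T0 :=
  MonoidAlgebra.lift Ω (BT π T0) (H.comap π) ((rB π T0).comp (H.comap π).subtype)

lemma phi_single (H : Subgroup V) (x : H.comap π) (a : Ω) :
    phi π T0 H (MonoidAlgebra.single x a) = a • rB π T0 x := by
  unfold phi
  rw [MonoidAlgebra.lift_single]
  rfl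

/-- the identities on the algebra of the preimage of `H` -/
lemma G_phi {n : ℕ} {H : Subgroup V} {r : H.comap π →* GL (Fin n) Ω}
    (hr : ∀ x : H.comap π, T0 x = ((r x : GL (Fin n) Ω) : Matrix (Fin n) (Fin n) Ω).trace)
    (g : Fin (n + 1) → BT π T0) (hg : ∀ i, ∃ y, phi π T0 H y = g i) : GG (TB π T0) (n + 1) g = 0 := by
  choose y hy using hg
  have h1 : g = phi π T0 H ∘ y := funext fun i => (hy i).symm
  have h2 : (TB π T0).comp (phi π T0 H).toLinearMap =
      (Matrix.traceLinearMap (Fin n) Ω Ω).comp (GP.alg r).toLinearMap := by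
    refine LinearMap.ext fun a => ?_
    induction a using MonoidAlgebra.induction_linear with
    | zero => simp
    | add f g h1 h2 => rw [map_add, map_add, h1, h2]
    | single x a =>
      change TB π T0 (phi π T0 H (MonoidAlgebra.single x a)) = (GP.alg r (MonoidAlgebra.single x a)).trace
      rw [phi_single, GP.alg_single, map_smul, TB_rB, Matrix.trace_smul, hr]
  rw [h1, ← GG_hom, h2, GG_hom, GG_trace]
  exact FF_large _ (Nat.lt_succ_self n) _

end BB

section proj

variable {Ω : Type*} [Field Ω] [IsAlgClosed Ω] [CharZero Ω] {Γ V : Type*} [Group Γ] [CommGroup V] [Finite V]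
  (π : Γ →* V) (T0 : Γ → Ω)

noncomputable instance : Fintype (V →* Ωˣ) := Fintype.ofFinite _

lemma sum_chars (w : V) (hw : w ≠ 1) : ∑ χ : V →* Ωˣ, (χ w : Ω) = 0 := by
  have h0 : NeZero (Monoid.exponent V) := ⟨Monoid.exponent_ne_zero_of_finite⟩
  have : NeZero ((Monoid.exponent V : ℕ) : Ω) := ⟨Nat.cast_ne_zero.mpr h0.ne⟩
  obtain ⟨φ, hφ⟩ := CommGroup.exists_apply_ne_one_of_hasEnoughRootsOfUnity V Ω hw
  let f : (V →* Ωˣ) →* Ω := (Units.coeHom Ω).comp (MonoidHom.eval w)
  refine sum_hom_units_eq_zero f ?_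
  intro h
  apply hφ
  have h1 : f φ = 1 := by rw [h]; rfl
  exact Units.ext h1

lemma card_chars : Fintype.card (V →* Ωˣ) = Nat.card V := by
  have h0 : NeZero (Monoid.exponent V) := ⟨Monoid.exponent_ne_zero_of_finite⟩
  have : NeZero ((Monoid.exponent V : ℕ) : Ω) := ⟨Nat.cast_ne_zero.mpr h0.ne⟩
  rw [← Nat.card_eq_fintype_card]
  exact CommGroup.card_monoidHom_of_hasEnoughRootsOfUnity V Ω

/-- the homogeneous components -/
noncomputable def pv (v : V) : BT π T0 →ₗ[Ω] BT π T0 :=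
  (Nat.card V : Ω)⁻¹ • ∑ χ : V →* Ωˣ, ((χ v)⁻¹ : Ωˣ).val • (th π T0 χ).toLinearMap

lemma pv_apply (v : V) (x : BT π T0) :
    pv π T0 v x = (Nat.card V : Ω)⁻¹ • ∑ χ : V →* Ωˣ, ((χ v)⁻¹ : Ωˣ).val • th π T0 χ x := by
  unfold pv
  simp

lemma pv_th (v : V) (ψ : V →* Ωˣ) (x : BT π T0) : pv π T0 v (th π T0 ψ x) = (ψ v : Ω) • pv π T0 v x := by
  rw [pv_apply, pv_apply, smul_comm ((ψ v : Ω)) ((Nat.card V : Ω)⁻¹)]
  rw [smul_sum (r := (ψ v : Ω)), ← Equiv.sum_comp (Equiv.mulLeft ψ)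
    (fun χ : V →* Ωˣ => (ψ v : Ω) • ((χ v)⁻¹ : Ωˣ).val • th π T0 χ x)]
  congr 1
  refine sum_congr rfl fun χ _ => ?_
  rw [th_th, smul_smul, ← Units.val_mul]
  congr 2
  rw [Equiv.coe_mulLeft, MonoidHom.mul_apply, mul_inv, mul_inv_cancel_left]

lemma sum_pv [Fintype V] (x : BT π T0) : ∑ v, pv π T0 v x = x := by
  have h0 : (Nat.card V : Ω) ≠ 0 := Nat.cast_ne_zero.mpr Nat.card_pos.ne'
  simp_rw [pv_apply]
  rw [← smul_sum, sum_comm]
  simp_rw [← sum_smul]
  classical
  have h1 : ∀ χ : V →* Ωˣ, ∑ v : V, ((χ v)⁻¹ : Ωˣ).val = if χ = 1 then (Nat.card V : Ω) else 0 := by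
    intro χ
    split_ifs with h
    · subst h
      simp
    · let f : V →* Ω := (Units.coeHom Ω).comp χ⁻¹
      have h2 : ∑ v : V, f v = 0 := by
        refine sum_hom_units_eq_zero f ?_
        intro h3
        apply h
        refine MonoidHom.ext fun v => ?_
        have h4 : ((χ v)⁻¹ : Ωˣ) = 1 := Units.ext (DFunLike.congr_fun h3 v)
        exact inv_eq_one.mp h4
      exact h2
  simp_rw [h1, ite_smul, zero_smul]
  rw [sum_ite_eq' univ (1 : V →* Ωˣ), if_pos (mem_univ _), smul_smul, inv_mul_cancel₀ h0, one_smul, th_one]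

lemma pv_mem (H : Subgroup V) (v : V) (hv : v ∈ H) (x : BT π T0) : ∃ y, phi π T0 H y = pv π T0 v x := by
  have h0 : (Nat.card V : Ω) ≠ 0 := Nat.cast_ne_zero.mpr Nat.card_pos.ne'
  have hx := BB_span π T0 (x := x) trivial
  induction hx using Submodule.span_induction with
  | mem x hx =>
    obtain ⟨γ, rfl⟩ := hx
    simp only
    by_cases hγ : π γ = v
    · refine ⟨MonoidAlgebra.single ⟨γ, by rw [Subgroup.mem_comap, hγ]; exact hv⟩ 1, ?_⟩
      rw [phi_single, one_smul, pv_apply]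
      simp_rw [th_rB, hγ, smul_smul, ← Units.val_mul, inv_mul_cancel, Units.val_one, one_smul]
      rw [sum_const, card_univ, card_chars, ← Nat.cast_smul_eq_nsmul Ω, smul_smul, inv_mul_cancel₀ h0, one_smul]
    · refine ⟨0, ?_⟩
      rw [map_zero, pv_apply]
      simp_rw [th_rB, smul_smul, ← sum_smul]
      have h1 : ∀ χ : V →* Ωˣ, ((χ v)⁻¹ : Ωˣ).val * (χ (π γ) : Ω) = (χ (v⁻¹ * π γ) : Ω) := by
        intro χ
        rw [map_mul, map_inv, Units.val_mul]
      simp_rw [h1]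
      rw [sum_chars _ (fun h => hγ (inv_mul_eq_one.mp h).symm), zero_smul, smul_zero]
  | zero => exact ⟨0, by rw [map_zero, map_zero]⟩
  | add a b _ _ h1 h2 =>
    obtain ⟨y1, h1⟩ := h1
    obtain ⟨y2, h2⟩ := h2
    exact ⟨y1 + y2, by rw [map_add, map_add, h1, h2]⟩
  | smul c a _ h1 =>
    obtain ⟨y1, h1⟩ := h1
    exact ⟨c • y1, by rw [map_smul, map_smul, h1]⟩

lemma fix_mem (ψ : V →* Ωˣ) (x : BT π T0) (hx : th π T0 ψ x = x) : ∃ y, phi π T0 ψ.ker y = x := by
  have := Fintype.ofFinite V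
  have h1 : ∀ v, ∃ y, phi π T0 ψ.ker y = pv π T0 v x := by
    intro v
    by_cases hv : v ∈ ψ.ker
    · exact pv_mem π T0 ψ.ker v hv x
    · refine ⟨0, ?_⟩
      rw [map_zero]
      have h2 := pv_th π T0 v ψ x
      rw [hx] at h2
      have h3 : ((1 : Ω) - ψ v) • pv π T0 v x = 0 := by
        rw [sub_smul, one_smul, ← h2, sub_self]
      rcases smul_eq_zero.mp h3 with h4 | h4
      · exfalso
        apply hv
        rw [MonoidHom.mem_ker]
        exact Units.ext (sub_eq_zero.mp h4).symm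
      · exact h4.symm
  choose y hy using h1
  refine ⟨∑ v, y v, ?_⟩
  rw [map_sum, sum_congr rfl fun v _ => hy v, sum_pv]

end proj

end Pool.Agent.L5helper16.PP
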