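import Pool.Agent.L5helper16.PP.J

/-!
# The graded algebra is semisimple; invariant idempotents
-/

set_option autoImplicit false

namespace Pool.Agent.L5helper16.PP

open Matrix Finset

section ss

variable {Ω : Type*} [Field Ω] {Γ V : Type*} [Group Γ] [CommGroup V] {π : Γ →* V} {T0 : Γ → Ω} {n : ℕ}

/-- on the preimage of the kernel of every character of prime order the function is the trace of a representation -/
def LocAb (π : Γ →* V) (T0 : Γ → Ω) (n : ℕ) : Prop :=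
  ∀ ψ : V →* Ωˣ, (orderOf ψ).Prime → ∃ r : ψ.ker.comap π →* GL (Fin n) Ω,
    ∀ x : ψ.ker.comap π, T0 x = ((r x : GL (Fin n) Ω) : Matrix (Fin n) (Fin n) Ω).trace

lemma th_surj (ψ : V →* Ωˣ) : Function.Surjective (th π T0 ψ) := fun x =>
  ⟨th π T0 ψ⁻¹ x, by
    rw [th_th]
    have : ψ⁻¹ * ψ = 1 := inv_mul_cancel ψ
    rw [this, th_one]⟩

lemma th_inj (ψ : V →* Ωˣ) : Function.Injective (th π T0 ψ) := by
  intro x y h
  have h1 := congrArg (th π T0 ψ⁻¹) h
  rw [th_th, th_th] at h1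
  have : ψ * ψ⁻¹ = 1 := mul_inv_cancel ψ
  rwa [this, th_one, th_one] at h1

lemma th_pow_le (ψ : V →* Ωˣ) (k : ℕ) : Ring.jacobson (BT π T0) ^ k ≤
    Ideal.comap ((th π T0 ψ : BT π T0 →ₐ[Ω] BT π T0) : BT π T0 →+* BT π T0) (Ring.jacobson (BT π T0) ^ k) := by
  have hs : RingHomSurjective ((th π T0 ψ : BT π T0 →ₐ[Ω] BT π T0) : BT π T0 →+* BT π T0) := ⟨th_surj ψ⟩
  have h1 : ∀ x ∈ Ring.jacobson (BT π T0), th π T0 ψ x ∈ Ring.jacobson (BT π T0) := fun x hx =>
    Ring.le_comap_jacobson ((th π T0 ψ : BT π T0 →ₐ[Ω] BT π T0) : BT π T0 →+* BT π T0) hx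
  induction k with
  | zero =>
    intro y _
    rw [Submodule.pow_zero, Ideal.one_eq_top]
    trivial
  | succ k ih =>
    rw [Ideal.IsTwoSided.pow_succ]
    refine Ideal.mul_le.mpr fun r hr s hs => ?_
    rw [Ideal.mem_comap, map_mul]
    exact Ideal.mul_mem_mul (h1 r hr) (ih hs)

variable [IsAlgClosed Ω] [CharZero Ω] [Finite V]

theorem ss (hT : ∀ g h, T0 (g * h) = T0 (h * g)) (hfin : FiniteDimensional Ω (WT T0)) (hloc : LocAb π T0 n)
    (hcov : ∀ v : V, ∃ ψ : V →* Ωˣ, (orderOf ψ).Prime ∧ ψ v = 1) : IsSemisimpleRing (BT π T0) := by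
  classical
  have := Fintype.ofFinite V
  have hfA : FiniteDimensional Ω (AA T0) := inferInstance
  have hfB : FiniteDimensional Ω (BT π T0) := inferInstanceAs (FiniteDimensional Ω ↥(BB π T0))
  have hart : IsArtinianRing (BT π T0) := IsArtinianRing.of_finite Ω (BT π T0)
  rw [IsArtinianRing.isSemisimpleRing_iff_jacobson]
  have hnil := IsSemiprimaryRing.isNilpotent (R := BT π T0)
  by_contra hJ
  have hmin := Nat.find_spec hnil
  have hlt : ∀ j, j < Nat.find hnil → Ring.jacobson (BT π T0) ^ j ≠ 0 := fun j hj => Nat.find_min hnil hj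
  set m := Nat.find hnil with hm
  obtain ⟨l, hl⟩ : ∃ l, m = l + 2 := by
    rcases Nat.lt_or_ge m 2 with h | h
    · exfalso
      apply hJ
      have h1 : Ring.jacobson (BT π T0) ^ 1 ≤ Ring.jacobson (BT π T0) ^ m := Ideal.pow_le_pow_right (by omega)
      rw [hmin, Submodule.pow_one] at h1
      exact le_bot_iff.mp h1
    · exact ⟨m - 2, by omega⟩
  apply hlt (l + 1) (by omega)
  change Ring.jacobson (BT π T0) ^ (l + 1) = ⊥
  rw [eq_bot_iff]
  have hsm : ∀ (a : Ω) (x : BT π T0), x ∈ Ring.jacobson (BT π T0) ^ (l + 1) →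
      a • x ∈ Ring.jacobson (BT π T0) ^ (l + 1) := by
    intro a x hx
    rw [Algebra.smul_def]
    exact Ideal.mul_mem_left _ _ hx
  have hTz : ∀ w ∈ Ring.jacobson (BT π T0) ^ (l + 1), TB π T0 w = 0 := by
    intro w hw
    rw [← sum_pv π T0 w, map_sum]
    refine sum_eq_zero fun v _ => ?_
    have hv : pv π T0 v w ∈ Ring.jacobson (BT π T0) ^ (l + 1) := by
      rw [pv_apply]
      exact hsm _ _ (Submodule.sum_mem _ fun χ _ => hsm _ _ (th_pow_le χ _ hw))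
    have h2 : pv π T0 v w * pv π T0 v w ∈ Ring.jacobson (BT π T0) ^ (l + 1) * Ring.jacobson (BT π T0) ^ (l + 1) :=
      Ideal.mul_mem_mul hv hv
    rw [← Ideal.IsTwoSided.pow_add] at h2
    have h3 : Ring.jacobson (BT π T0) ^ (l + 1 + (l + 1)) ≤ Ring.jacobson (BT π T0) ^ m :=
      Ideal.pow_le_pow_right (by omega)
    have h4 := h3 h2
    rw [hmin] at h4
    have h5 : pv π T0 v w * pv π T0 v w = 0 := h4
    obtain ⟨ψ, hp, hψ⟩ := hcov v
    obtain ⟨r, hr⟩ := hloc ψ hp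
    have h6 := GG_sq (TB π T0) (pv π T0 v w) h5 (n + 1)
    rw [G_phi π T0 hr _ fun _ => pv_mem π T0 ψ.ker v (MonoidHom.mem_ker.mpr hψ) w] at h6
    exact IsReduced.eq_zero _ ⟨n + 1, h6.symm⟩
  intro x hx
  rw [Submodule.mem_bot]
  exact TB_nd π hT x fun ψ y => hTz _ (Ideal.IsTwoSided.mul_mem_of_left y (th_pow_le ψ _ hx))

/-- invariant idempotents -/
lemma idem_nat (hloc : LocAb π T0 n) {ψ : V →* Ωˣ} (hp : (orderOf ψ).Prime) (e : BT π T0) (he : e * e = e)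
    (hfix : th π T0 ψ e = e) : ∃ m ≤ n, TB π T0 e = (m : Ω) := by
  obtain ⟨r, hr⟩ := hloc ψ hp
  have h2 := GG_idem (TB π T0) e he (n + 1)
  rw [G_phi π T0 hr _ fun _ => fix_mem π T0 ψ e hfix] at h2
  obtain ⟨m, hm, h3⟩ := prod_eq_zero_iff.mp h2.symm
  exact ⟨m, Nat.lt_succ_iff.mp (mem_range.mp hm), sub_eq_zero.mp h3⟩

end ss

section eig

variable {Ω : Type*} [Field Ω] [IsAlgClosed Ω] [CharZero Ω] {d : ℕ}

omit [IsAlgClosed Ω] [CharZero Ω] in
/-- automorphisms of the matrix algebra are inner -/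
lemma inner (E : Matrix (Fin d) (Fin d) Ω ≃ₐ[Ω] Matrix (Fin d) (Fin d) Ω) :
    ∃ U : GL (Fin d) Ω, ∀ M, E M = U * M * ((U⁻¹ : GL (Fin d) Ω) : Matrix (Fin d) (Fin d) Ω) := by
  let F : Module.End Ω (Fin d → Ω) ≃ₐ[Ω] Module.End Ω (Fin d → Ω) :=
    (LinearMap.toMatrixAlgEquiv'.trans E).trans LinearMap.toMatrixAlgEquiv'.symm
  obtain ⟨T, hT⟩ := AlgEquiv.eq_linearEquivConjAlgEquiv F
  let A : Matrix (Fin d) (Fin d) Ω := LinearMap.toMatrixAlgEquiv' T.toLinearMap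
  let B : Matrix (Fin d) (Fin d) Ω := LinearMap.toMatrixAlgEquiv' T.symm.toLinearMap
  have hAB : A * B = 1 := by
    simp only [A, B]
    rw [← map_mul, ← map_one (LinearMap.toMatrixAlgEquiv' (R := Ω) (n := Fin d))]
    exact congrArg _ (LinearMap.ext fun x => T.apply_symm_apply x)
  have hBA : B * A = 1 := by
    simp only [A, B]
    rw [← map_mul, ← map_one (LinearMap.toMatrixAlgEquiv' (R := Ω) (n := Fin d))]
    exact congrArg _ (LinearMap.ext fun x => T.symm_apply_apply x)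
  refine ⟨⟨A, B, hAB, hBA⟩, fun M => ?_⟩
  have h4 : F (LinearMap.toMatrixAlgEquiv'.symm M) = LinearMap.toMatrixAlgEquiv'.symm (E M) := by
    simp only [F, AlgEquiv.trans_apply, AlgEquiv.apply_symm_apply]
  have h5 := congrArg (fun f => LinearMap.toMatrixAlgEquiv' f) h4
  simp only [AlgEquiv.apply_symm_apply] at h5
  rw [← h5, hT]
  rw [LinearEquiv.conjAlgEquiv_apply]
  change _ = A * M * B
  simp only [A, B]
  conv_rhs => rw [← LinearMap.toMatrixAlgEquiv'.apply_symm_apply M]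
  rw [← map_mul, ← map_mul]
  rfl

/-- a matrix with a central power commutes with an idempotent of trace one -/
lemma eig_idem (hd : 0 < d) (U : GL (Fin d) Ω) {p : ℕ} (hp : 0 < p)
    (hU : ∀ M : Matrix (Fin d) (Fin d) Ω, (U : Matrix (Fin d) (Fin d) Ω) ^ p * M = M * (U : Matrix (Fin d) (Fin d) Ω) ^ p) :
    ∃ e : Matrix (Fin d) (Fin d) Ω, e * e = e ∧ e.trace = 1 ∧
      (U : Matrix (Fin d) (Fin d) Ω) * e * ((U⁻¹ : GL (Fin d) Ω) : Matrix (Fin d) (Fin d) Ω) = e := by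
  classical
  have hne : Nonempty (Fin d) := ⟨⟨0, hd⟩⟩
  -- the power is a scalar
  obtain ⟨lam, hlam⟩ := Matrix.mem_range_scalar_of_commute_single (M := (U : Matrix (Fin d) (Fin d) Ω) ^ p)
    (fun i j _ => (hU (Matrix.single i j 1)).symm)
  -- an eigenvector
  obtain ⟨nu, hnu⟩ := Module.End.exists_eigenvalue (Matrix.toLin' (U : Matrix (Fin d) (Fin d) Ω))
  obtain ⟨w, hw, hw0⟩ := hnu.exists_hasEigenvector
  have hUw : (U : Matrix (Fin d) (Fin d) Ω) *ᵥ w = nu • w := by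
    have := Module.End.mem_eigenspace_iff.mp hw
    rwa [Matrix.toLin'_apply] at this
  have hnu0 : nu ≠ 0 := by
    intro h
    apply hw0
    rw [h, zero_smul] at hUw
    have h1 : ((U⁻¹ : GL (Fin d) Ω) : Matrix (Fin d) (Fin d) Ω) *ᵥ ((U : Matrix (Fin d) (Fin d) Ω) *ᵥ w) = w := by
      rw [Matrix.mulVec_mulVec, ← Units.val_mul, inv_mul_cancel, Units.val_one, Matrix.one_mulVec]
    rw [hUw, Matrix.mulVec_zero] at h1
    exact h1.symm
  set W : Matrix (Fin d) (Fin d) Ω := nu⁻¹ • (U : Matrix (Fin d) (Fin d) Ω) with hWdef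
  have hUW : (U : Matrix (Fin d) (Fin d) Ω) = nu • W := by
    rw [hWdef, smul_smul, mul_inv_cancel₀ hnu0, one_smul]
  have hWw : W *ᵥ w = w := by
    rw [hWdef, Matrix.smul_mulVec, hUw, smul_smul, inv_mul_cancel₀ hnu0, one_smul]
  have hWjw : ∀ j : ℕ, (W ^ j) *ᵥ w = w := by
    intro j
    induction j with
    | zero => rw [pow_zero, Matrix.one_mulVec]
    | succ j ih => rw [pow_succ, ← Matrix.mulVec_mulVec, hWw, ih]
  have hWp : W ^ p = 1 := by
    have h1 : W ^ p = (nu⁻¹ ^ p * lam) • (1 : Matrix (Fin d) (Fin d) Ω) := by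
      rw [hWdef, smul_pow, ← hlam, mul_smul, Matrix.scalar_apply, Matrix.smul_one_eq_diagonal]
    have h2 := hWjw p
    rw [h1, Matrix.smul_mulVec, Matrix.one_mulVec] at h2
    have h3 : (nu⁻¹ ^ p * lam - 1) • w = 0 := by rw [sub_smul, h2, one_smul, sub_self]
    rw [h1, sub_eq_zero.mp ((smul_eq_zero.mp h3).resolve_right hw0), one_smul]
  have hp0 : (p : Ω) ≠ 0 := Nat.cast_ne_zero.mpr hp.ne'
  set P : Matrix (Fin d) (Fin d) Ω := (p : Ω)⁻¹ • ∑ j ∈ range p, W ^ j with hP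
  have hPW : P * W = P := by
    have h1 := geom_sum_mul W p
    rw [hWp, sub_self, mul_sub, mul_one, sub_eq_zero] at h1
    rw [hP, smul_mul_assoc, h1]
  have hPw : P *ᵥ w = w := by
    rw [hP, Matrix.smul_mulVec, Matrix.sum_mulVec, sum_congr rfl fun j _ => hWjw j, sum_const, card_range,
      ← Nat.cast_smul_eq_nsmul Ω, smul_smul, inv_mul_cancel₀ hp0, one_smul]
  obtain ⟨k, hk⟩ : ∃ k, w k ≠ 0 := by
    by_contra h
    push Not at h
    exact hw0 (funext h)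
  set φ0 : Fin d → Ω := Pi.single k (w k)⁻¹ with hφ0
  have hφ0w : φ0 ⬝ᵥ w = 1 := by
    rw [hφ0, single_dotProduct, inv_mul_cancel₀ hk]
  set φ : Fin d → Ω := φ0 ᵥ* P with hφ
  have hφw : φ ⬝ᵥ w = 1 := by
    rw [hφ, ← Matrix.dotProduct_mulVec, hPw, hφ0w]
  have hφW : φ ᵥ* W = φ := by
    rw [hφ, Matrix.vecMul_vecMul, hPW]
  refine ⟨Matrix.vecMulVec w φ, ?_, ?_, ?_⟩
  · rw [Matrix.vecMulVec_mul_vecMulVec, hφw, one_smul]
  · rw [Matrix.trace_vecMulVec, dotProduct_comm, hφw]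
  · have h1 : (U : Matrix (Fin d) (Fin d) Ω) * Matrix.vecMulVec w φ = Matrix.vecMulVec w φ * U := by
      rw [hUW, smul_mul_assoc, mul_smul_comm, Matrix.mul_vecMulVec, Matrix.vecMulVec_mul, hWw, hφW]
    rw [h1, mul_assoc, ← Units.val_mul, mul_inv_cancel, Units.val_one, mul_one]

end eig

end Pool.Agent.L5helper16.PP
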