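import Pool.Agent.L5helper16.PP.K

/-!
# The multiplicities are natural numbers
-/

set_option autoImplicit false

namespace Pool.Agent.L5helper16.PP

open Matrix Finset

/-- the criterion for functions on the group of characters -/
def CritD (V Ω : Type*) [Field Ω] [IsAlgClosed Ω] [CharZero Ω] [CommGroup V] [Finite V] (n : ℕ) : Prop :=
  ∀ a : (V →* Ωˣ) → Ω,
    (∀ χ η : V →* Ωˣ, (orderOf η).Prime → ∃ m : ℕ, ∑ j ∈ range (orderOf η), a (χ * η ^ j) = m) →
    (∃ m ≤ n, ∑ χ, a χ = (m : Ω)) → ∀ χ, ∃ m : ℕ, a χ = m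

section blocks

variable {Ω : Type*} [Field Ω] {B : Type*} [Ring B] [Algebra Ω B] {l : ℕ} {d : Fin l → ℕ}
  (e : B ≃ₐ[Ω] ∀ i, Matrix (Fin (d i)) (Fin (d i)) Ω) (i : Fin l)

/-- the embedding of a block -/
def bl (M : Matrix (Fin (d i)) (Fin (d i)) Ω) : B := e.symm (Pi.single i M)

lemma e_bl (M : Matrix (Fin (d i)) (Fin (d i)) Ω) : e (bl e i M) i = M := by
  unfold bl
  rw [AlgEquiv.apply_symm_apply, Pi.single_eq_same]

lemma bl_inj {M N : Matrix (Fin (d i)) (Fin (d i)) Ω} (h : bl e i M = bl e i N) : M = N := by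
  rw [← e_bl e i M, h, e_bl]

lemma bl_mul (M N : Matrix (Fin (d i)) (Fin (d i)) Ω) : bl e i (M * N) = bl e i M * bl e i N := by
  unfold bl
  rw [Pi.single_mul, map_mul]

lemma one_bl (x : B) : bl e i 1 * x = bl e i (e x i) := by
  apply e.injective
  unfold bl
  rw [map_mul, AlgEquiv.apply_symm_apply, AlgEquiv.apply_symm_apply]
  funext j
  rw [Pi.mul_apply]
  by_cases hj : j = i
  · subst hj
    rw [Pi.single_eq_same, Pi.single_eq_same, one_mul]
  · rw [Pi.single_eq_of_ne hj, Pi.single_eq_of_ne hj, zero_mul]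

lemma bl_one (x : B) : x * bl e i 1 = bl e i (e x i) := by
  apply e.injective
  unfold bl
  rw [map_mul, AlgEquiv.apply_symm_apply, AlgEquiv.apply_symm_apply]
  funext j
  rw [Pi.mul_apply]
  by_cases hj : j = i
  · subst hj
    rw [Pi.single_eq_same, Pi.single_eq_same, mul_one]
  · rw [Pi.single_eq_of_ne hj, Pi.single_eq_of_ne hj, mul_zero]

lemma bl_zero : bl e i 0 = 0 := by
  unfold bl
  rw [Pi.single_zero, map_zero]

/-- the central idempotent of a block is primitive -/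
lemma prim [hd : NeZero (d i)] (c : B) (hc : ∀ x, c * x = x * c) (hcc : c * c = c) :
    bl e i 1 * c = 0 ∨ bl e i 1 * c = bl e i 1 := by
  rw [one_bl]
  have h1 : ∀ M : Matrix (Fin (d i)) (Fin (d i)) Ω, e c i * M = M * e c i := by
    intro M
    have h2 := congrArg (fun x => e x i) (hc (bl e i M))
    simp only [map_mul, Pi.mul_apply, e_bl] at h2
    exact h2
  have h3 : e c i * e c i = e c i := by
    rw [← Pi.mul_apply, ← map_mul, hcc]
  obtain ⟨lam, hlam⟩ := Matrix.mem_range_scalar_of_commute_single (M := e c i) (fun a b _ => (h1 (Matrix.single a b 1)).symm)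
  have h0 : (0 : Fin (d i)) = 0 := rfl
  have h4 : lam * lam = lam := by
    have h5 := congrFun (congrFun h3 0) 0
    rw [← hlam, ← map_mul] at h5
    simpa using h5
  rcases mul_self_eq_self_iff_or h4 with h | h
  · left
    rw [← hlam, h, map_zero, bl_zero]
  · right
    rw [← hlam, h, map_one]
where
  mul_self_eq_self_iff_or {lam : Ω} (h : lam * lam = lam) : lam = 0 ∨ lam = 1 := by
    have : lam * (lam - 1) = 0 := by rw [mul_sub, h, mul_one, sub_self]
    rcases mul_eq_zero.mp this with h | h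
    · exact Or.inl h
    · exact Or.inr (sub_eq_zero.mp h)

end blocks

section mult

variable {Ω : Type*} [Field Ω] [IsAlgClosed Ω] [CharZero Ω] {Γ V : Type*} [Group Γ] [CommGroup V] [Finite V]
  {π : Γ →* V} {T0 : Γ → Ω} {n : ℕ} {l : ℕ} {d : Fin l → ℕ}
  (e : BT π T0 ≃ₐ[Ω] ∀ i, Matrix (Fin (d i)) (Fin (d i)) Ω) (i : Fin l)

/-- an invariant block -/
lemma case1 [NeZero (d i)] (hloc : LocAb π T0 n) {ψ : V →* Ωˣ} (hp : (orderOf ψ).Prime)
    (hz : th π T0 ψ (bl e i 1) = bl e i 1) :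
    ∃ (e0 : Matrix (Fin (d i)) (Fin (d i)) Ω) (m : ℕ), e0.trace = 1 ∧ TB π T0 (bl e i e0) = m := by
  have hs : ∀ M, th π T0 ψ (bl e i M) = bl e i (e (th π T0 ψ (bl e i M)) i) := by
    intro M
    rw [← one_bl]
    conv_rhs => rw [← hz, ← map_mul, ← bl_mul, one_mul]
  let F0 : Matrix (Fin (d i)) (Fin (d i)) Ω →ₗ[Ω] Matrix (Fin (d i)) (Fin (d i)) Ω :=
    ((((LinearMap.proj i).comp e.toLinearMap).comp (th π T0 ψ).toLinearMap).comp e.symm.toLinearMap).comp
      (LinearMap.single Ω (fun i => Matrix (Fin (d i)) (Fin (d i)) Ω) i)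
  have hF0 : ∀ M, F0 M = e (th π T0 ψ (bl e i M)) i := fun M => rfl
  let F : Matrix (Fin (d i)) (Fin (d i)) Ω →ₐ[Ω] Matrix (Fin (d i)) (Fin (d i)) Ω :=
    AlgHom.ofLinearMap F0 (by rw [hF0, hz, e_bl]) (fun M N => by
      rw [hF0, hF0, hF0, bl_mul, map_mul, map_mul, Pi.mul_apply])
  have hF : ∀ M, F M = e (th π T0 ψ (bl e i M)) i := hF0
  have hinj : Function.Injective F := by
    intro M N h
    rw [hF, hF] at h
    apply bl_inj e i
    apply th_inj ψ
    rw [hs M, hs N, h]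
  have hsurj : Function.Surjective F := (LinearMap.injective_iff_surjective (f := F.toLinearMap)).mp hinj
  obtain ⟨U, hU⟩ := inner (AlgEquiv.ofBijective F ⟨hinj, hsurj⟩)
  have hU' : ∀ M, th π T0 ψ (bl e i M) = bl e i ((U : Matrix (Fin (d i)) (Fin (d i)) Ω) * M *
      ((U⁻¹ : GL (Fin (d i)) Ω) : Matrix (Fin (d i)) (Fin (d i)) Ω)) := by
    intro M
    rw [← hU, hs]
    rfl
  have hpow : ∀ (k : ℕ) (M : Matrix (Fin (d i)) (Fin (d i)) Ω), th π T0 (ψ ^ k) (bl e i M) =
      bl e i (((U ^ k : GL (Fin (d i)) Ω) : Matrix (Fin (d i)) (Fin (d i)) Ω) * M *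
        (((U ^ k)⁻¹ : GL (Fin (d i)) Ω) : Matrix (Fin (d i)) (Fin (d i)) Ω)) := by
    intro k M
    induction k with
    | zero =>
      have : ψ ^ 0 = 1 := pow_zero ψ
      rw [this, th_one, pow_zero, inv_one, Units.val_one, one_mul, mul_one]
    | succ k ih =>
      have : ψ ^ (k + 1) = ψ ^ k * ψ := pow_succ ψ k
      rw [this, ← th_th, ih, hU', pow_succ' U k, _root_.mul_inv_rev, Units.val_mul, Units.val_mul]
      simp only [mul_assoc]
  have hcen : ∀ M : Matrix (Fin (d i)) (Fin (d i)) Ω,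
      (U : Matrix (Fin (d i)) (Fin (d i)) Ω) ^ orderOf ψ * M = M * (U : Matrix (Fin (d i)) (Fin (d i)) Ω) ^ orderOf ψ := by
    intro M
    have h1 := hpow (orderOf ψ) M
    have h2 : ψ ^ orderOf ψ = 1 := pow_orderOf_eq_one ψ
    rw [h2, th_one] at h1
    have h3 := bl_inj e i h1
    rw [← Units.val_pow_eq_pow_val]
    conv_rhs => rw [h3]
    rw [mul_assoc _ _ ((U ^ orderOf ψ : GL (Fin (d i)) Ω) : Matrix (Fin (d i)) (Fin (d i)) Ω), ← Units.val_mul,
      inv_mul_cancel, Units.val_one, mul_one]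
  obtain ⟨e0, h1, h2, h3⟩ := eig_idem (Nat.pos_of_ne_zero (NeZero.ne (d i))) U hp.pos hcen
  obtain ⟨m, -, hm⟩ := idem_nat hloc hp (bl e i e0) (by rw [← bl_mul, h1]) (by rw [hU', h3])
  exact ⟨e0, m, h2, hm⟩

/-- a free orbit -/
lemma case2 [NeZero (d i)] (hloc : LocAb π T0 n) {ψ0 : V →* Ωˣ} (hψ0 : (orderOf ψ0).Prime) (hcrit : CritD V Ω n)
    (hz : ∀ ψ : V →* Ωˣ, (orderOf ψ).Prime → th π T0 ψ (bl e i 1) ≠ bl e i 1)
    (u : BT π T0) (hu : u * u = u) (hzu : bl e i 1 * u = u) : ∃ m : ℕ, TB π T0 u = m := by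
  classical
  have hzc : ∀ x, bl e i 1 * x = x * bl e i 1 := fun x => by rw [one_bl, bl_one]
  have hzz : bl e i 1 * bl e i 1 = bl e i 1 := by rw [← bl_mul, one_mul]
  have hz0 : bl e i 1 ≠ 0 := by
    intro h
    rw [← bl_zero e i] at h
    exact one_ne_zero (bl_inj e i h)
  -- no twist fixes the block
  have hfree : ∀ χ : V →* Ωˣ, χ ≠ 1 → th π T0 χ (bl e i 1) ≠ bl e i 1 := by
    intro χ hχ h
    have hpow : ∀ k : ℕ, th π T0 (χ ^ k) (bl e i 1) = bl e i 1 := by
      intro k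
      induction k with
      | zero =>
        have : χ ^ 0 = 1 := pow_zero χ
        rw [this, th_one]
      | succ k ih =>
        have : χ ^ (k + 1) = χ ^ k * χ := pow_succ χ k
        rw [this, ← th_th, ih, h]
    have h1 : orderOf χ ≠ 1 := fun h2 => hχ (orderOf_eq_one_iff.mp h2)
    obtain ⟨p, hp, hdvd⟩ := Nat.exists_prime_and_dvd h1
    obtain ⟨k, hk⟩ := hdvd
    have hpos : 0 < orderOf χ := orderOf_pos χ
    have hk0 : k ≠ 0 := by
      rintro rfl
      omega
    have h2 : orderOf (χ ^ k) = p := by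
      have h3 : orderOf χ = k * p := by rw [hk, mul_comm]
      exact orderOf_pow_of_dvd_aux hk0 h3
    exact hz (χ ^ k) (by rw [h2]; exact hp) (hpow k)
  have hthc : ∀ (χ : V →* Ωˣ) (x : BT π T0), th π T0 χ (bl e i 1) * x = x * th π T0 χ (bl e i 1) := by
    intro χ x
    obtain ⟨y, rfl⟩ := th_surj χ x
    rw [← map_mul, hzc, map_mul]
  have hthi : ∀ χ : V →* Ωˣ, th π T0 χ (bl e i 1) * th π T0 χ (bl e i 1) = th π T0 χ (bl e i 1) := by
    intro χ
    rw [← map_mul, hzz]
  have hinv : ∀ (χ : V →* Ωˣ) (x : BT π T0), th π T0 χ (th π T0 χ⁻¹ x) = x := by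
    intro χ x
    have : χ⁻¹ * χ = 1 := inv_mul_cancel χ
    rw [th_th, this, th_one]
  have hinv' : ∀ (χ : V →* Ωˣ) (x : BT π T0), th π T0 χ⁻¹ (th π T0 χ x) = x := by
    intro χ x
    have : χ * χ⁻¹ = 1 := mul_inv_cancel χ
    rw [th_th, this, th_one]
  have horth : ∀ χ : V →* Ωˣ, χ ≠ 1 → bl e i 1 * th π T0 χ (bl e i 1) = 0 := by
    intro χ hχ
    rcases prim e i (th π T0 χ (bl e i 1)) (hthc χ) (hthi χ) with h | h
    · exact h
    · exfalso
      have h1 := congrArg (th π T0 χ⁻¹) h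
      rw [map_mul, hinv'] at h1
      rcases prim e i (th π T0 χ⁻¹ (bl e i 1)) (hthc _) (hthi _) with h2 | h2
      · rw [← hzc] at h1
        rw [h1] at h2
        have h3 := congrArg (th π T0 χ) h2
        rw [hinv, map_zero] at h3
        exact hz0 h3
      · rw [← hzc, h2] at h1
        apply hfree χ hχ
        have h3 := congrArg (th π T0 χ) h1
        rw [hinv] at h3
        exact h3
  have huorth : ∀ χ ψ : V →* Ωˣ, χ ≠ ψ → th π T0 χ u * th π T0 ψ u = 0 := by
    intro χ ψ h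
    have h1 : ∀ η : V →* Ωˣ, η ≠ 1 → u * th π T0 η u = 0 := by
      intro η hη
      calc u * th π T0 η u = (u * bl e i 1) * th π T0 η (bl e i 1 * u) := by rw [hzu, ← hzc, hzu]
        _ = u * (bl e i 1 * th π T0 η (bl e i 1)) * th π T0 η u := by rw [map_mul]; simp only [mul_assoc]
        _ = 0 := by rw [horth η hη, mul_zero, zero_mul]
    have h2 : th π T0 ψ u = th π T0 χ (th π T0 (ψ * χ⁻¹) u) := by
      have : ψ * χ⁻¹ * χ = ψ := inv_mul_cancel_right ψ χ
      rw [th_th, this]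
    rw [h2, ← map_mul, h1, map_zero]
    intro h3
    apply h
    exact (mul_inv_eq_one.mp h3).symm
  have huidem : ∀ χ : V →* Ωˣ, th π T0 χ u * th π T0 χ u = th π T0 χ u := by
    intro χ
    rw [← map_mul, hu]
  have hsum : ∀ s : Finset (V →* Ωˣ), (∑ χ ∈ s, th π T0 χ u) * (∑ χ ∈ s, th π T0 χ u) = ∑ χ ∈ s, th π T0 χ u := by
    intro s
    rw [sum_mul_sum]
    refine sum_congr rfl fun χ hχ => ?_
    rw [sum_eq_single χ, huidem]
    · intro ψ _ hψ
      exact huorth χ ψ (Ne.symm hψ)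
    · intro h
      exact absurd hχ h
  have key : ∀ (s : Finset (V →* Ωˣ)) (η : V →* Ωˣ), (orderOf η).Prime → s.image (fun χ => χ * η) = s →
      ∃ m ≤ n, ∑ χ ∈ s, TB π T0 (th π T0 χ u) = (m : Ω) := by
    intro s η hη hs
    have hfix : th π T0 η (∑ χ ∈ s, th π T0 χ u) = ∑ χ ∈ s, th π T0 χ u := by
      rw [map_sum]
      simp_rw [th_th]
      conv_rhs => rw [← hs]
      rw [sum_image]
      intro a _ b _ h
      exact mul_right_cancel h
    obtain ⟨m, hm, h1⟩ := idem_nat hloc hη _ (hsum s) hfix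
    exact ⟨m, hm, by rw [← h1, map_sum]⟩
  have hfin := hcrit (fun χ => TB π T0 (th π T0 χ u)) (by
    intro χ η hη
    have hinjp : ∀ a ∈ range (orderOf η), ∀ b ∈ range (orderOf η), χ * η ^ a = χ * η ^ b → a = b := by
      intro a ha b hb h
      exact pow_injOn_Iio_orderOf (mem_range.mp ha) (mem_range.mp hb) (mul_left_cancel h)
    obtain ⟨m, -, hm⟩ := key ((range (orderOf η)).image fun j => χ * η ^ j) η hη (by
      have hpos : 0 < orderOf η := hη.pos
      apply subset_antisymm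
      · intro x hx
        simp only [mem_image, mem_range] at hx ⊢
        obtain ⟨y, ⟨j, hj, rfl⟩, rfl⟩ := hx
        refine ⟨(j + 1) % orderOf η, Nat.mod_lt _ hpos, ?_⟩
        rw [pow_mod_orderOf, pow_succ]
        exact (mul_assoc χ _ η).symm
      · intro x hx
        simp only [mem_image, mem_range] at hx ⊢
        obtain ⟨j, hj, rfl⟩ := hx
        refine ⟨χ * η ^ ((j + (orderOf η - 1)) % orderOf η), ⟨_, Nat.mod_lt _ hpos, rfl⟩, ?_⟩
        rw [pow_mod_orderOf]
        have h1 : χ * η ^ (j + (orderOf η - 1)) * η = χ * (η ^ (j + (orderOf η - 1)) * η) :=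
          mul_assoc χ (η ^ (j + (orderOf η - 1))) η
        have h3 : η ^ (j + (orderOf η - 1) + 1) = η ^ (j + (orderOf η - 1)) * η := pow_succ η _
        have h5 : η ^ (j + orderOf η) = η ^ j * η ^ orderOf η := pow_add η j (orderOf η)
        have h6 : η ^ orderOf η = 1 := pow_orderOf_eq_one η
        have h7 : η ^ j * 1 = η ^ j := mul_one (η ^ j)
        have h4 : η ^ (j + orderOf η) = η ^ j := by
          rw [h5, h6]
          exact h7
        have h2 : η ^ (j + (orderOf η - 1)) * η = η ^ j := by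
          refine h3.symm.trans ?_
          rw [show j + (orderOf η - 1) + 1 = j + orderOf η by omega]
          exact h4
        rw [h1, h2])
    refine ⟨m, ?_⟩
    rw [← hm, sum_image]
    intro a ha b hb h
    exact hinjp a ha b hb h) (key univ ψ0 hψ0 (by
      apply eq_univ_iff_forall.mpr
      intro x
      rw [mem_image]
      exact ⟨x * ψ0⁻¹, mem_univ _, inv_mul_cancel_right x ψ0⟩)) 1
  rw [th_one] at hfin
  exact hfin
where
  orderOf_pow_of_dvd_aux {χ : V →* Ωˣ} {k p : ℕ} (hk : k ≠ 0) (h : orderOf χ = k * p) : orderOf (χ ^ k) = p := by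
    rw [orderOf_pow' χ hk, h, Nat.gcd_mul_right_left, Nat.mul_div_cancel_left _ (Nat.pos_of_ne_zero hk)]

end mult

end Pool.Agent.L5helper16.PP
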