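import Pool.Agent.L5helper16.PP.L

/-!
# The identities for functions which are locally characters over an abelian quotient
-/

set_option autoImplicit false

namespace Pool.Agent.L5helper16.PP

open Matrix Finset

section rep

variable {Ω : Type*} [Field Ω] [CharZero Ω] {A : Type*} [Ring A] [Algebra Ω A]

/-- a linear function with natural multiplicities is the trace of a representation -/
theorem rep_of_mult (T : A →ₗ[Ω] Ω) {n : ℕ} (h1 : T 1 = n) {l : ℕ} {d : Fin l → ℕ}
    (e : A ≃ₐ[Ω] ∀ i, Matrix (Fin (d i)) (Fin (d i)) Ω) (m : Fin l → ℕ)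
    (hm : ∀ (i : Fin l) (M : Matrix (Fin (d i)) (Fin (d i)) Ω), T (e.symm (Pi.single i M)) = m i * M.trace) :
    ∃ φ : A →ₐ[Ω] Matrix (Fin n) (Fin n) Ω, ∀ a, (φ a).trace = T a := by
  classical
  have hTe : ∀ a : A, T a = ∑ i, (m i : Ω) * (e a i).trace := by
    intro a
    have h2 : a = ∑ i, e.symm (Pi.single i (e a i)) := by
      rw [← map_sum, Finset.univ_sum_single, AlgEquiv.symm_apply_apply]
    conv_lhs => rw [h2]
    rw [map_sum]
    exact sum_congr rfl fun i _ => hm i _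
  have hdim : ∑ i, m i * d i = n := by
    have h2 := hTe 1
    rw [h1, map_one] at h2
    simp only [Pi.one_apply, Matrix.trace_one, Fintype.card_fin] at h2
    exact_mod_cast h2.symm
  -- the index set
  let ι := Σ p : (Σ i : Fin l, Fin (m i)), Fin (d p.1)
  have hcard : Fintype.card ι = n := by
    rw [Fintype.card_sigma, ← Finset.univ_sigma_univ, Finset.sum_sigma]
    simp only [Fintype.card_fin, sum_const, card_univ, smul_eq_mul]
    exact hdim
  let ε : ι ≃ Fin n := Fintype.equivFinOfCardEq hcard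
  let r1 : (∀ i : Fin l, Matrix (Fin (d i)) (Fin (d i)) Ω) →+*
      (∀ p : (Σ i : Fin l, Fin (m i)), Matrix (Fin (d p.1)) (Fin (d p.1)) Ω) :=
    RingHom.pi fun p => Pi.evalRingHom _ p.1
  let r2 : (∀ p : (Σ i : Fin l, Fin (m i)), Matrix (Fin (d p.1)) (Fin (d p.1)) Ω) →+* Matrix ι ι Ω :=
    Matrix.blockDiagonal'RingHom (fun p : (Σ i : Fin l, Fin (m i)) => Fin (d p.1)) Ω
  let r3 : Matrix ι ι Ω →+* Matrix (Fin n) (Fin n) Ω := (Matrix.reindexAlgEquiv Ω Ω ε : Matrix ι ι Ω →+* _)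
  let r : A →+* Matrix (Fin n) (Fin n) Ω := r3.comp (r2.comp (r1.comp (e : A →+* _)))
  have hr : ∀ a, r a = Matrix.reindex ε ε (Matrix.blockDiagonal' fun p : (Σ i : Fin l, Fin (m i)) => e a p.1) :=
    fun a => rfl
  refine ⟨{ r with
    commutes' := ?_ }, ?_⟩
  · intro c
    change r (algebraMap Ω A c) = _
    rw [hr, AlgEquiv.commutes]
    have h2 : (Matrix.blockDiagonal' fun p : (Σ i : Fin l, Fin (m i)) =>
        (algebraMap Ω (∀ i : Fin l, Matrix (Fin (d i)) (Fin (d i)) Ω) c) p.1) = algebraMap Ω (Matrix ι ι Ω) c := by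
      have h3 : (fun p : (Σ i : Fin l, Fin (m i)) =>
          (algebraMap Ω (∀ i : Fin l, Matrix (Fin (d i)) (Fin (d i)) Ω) c) p.1) =
          c • (1 : ∀ p : (Σ i : Fin l, Fin (m i)), Matrix (Fin (d p.1)) (Fin (d p.1)) Ω) := by
        funext p
        rw [Pi.algebraMap_apply, Algebra.algebraMap_eq_smul_one]
        rfl
      rw [h3, Matrix.blockDiagonal'_smul, Matrix.blockDiagonal'_one, Algebra.algebraMap_eq_smul_one]
    rw [h2]
    exact (Matrix.reindexAlgEquiv Ω Ω ε).commutes c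
  · intro a
    change (r a).trace = _
    rw [hr, hTe]
    have h2 : (Matrix.reindex ε ε (Matrix.blockDiagonal' fun p : (Σ i : Fin l, Fin (m i)) => e a p.1)).trace =
        (Matrix.blockDiagonal' fun p : (Σ i : Fin l, Fin (m i)) => e a p.1).trace := by
      unfold Matrix.trace
      rw [← Equiv.sum_comp ε]
      refine sum_congr rfl fun x _ => ?_
      simp [Matrix.diag]
    rw [h2, Matrix.trace_blockDiagonal', ← Finset.univ_sigma_univ, Finset.sum_sigma]
    refine sum_congr rfl fun i _ => ?_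
    change ∑ _x : Fin (m i), (e a i).trace = _
    rw [sum_const, card_univ, Fintype.card_fin, nsmul_eq_mul]

end rep

section main

variable {Ω : Type*} [Field Ω] [IsAlgClosed Ω] [CharZero Ω] {Γ V : Type*} [Group Γ] [CommGroup V] [Finite V]
  {π : Γ →* V} {T0 : Γ → Ω} {n : ℕ}

/-- **The identities.** -/
theorem ident_ab (h1 : T0 1 = n) (hT : ∀ g h, T0 (g * h) = T0 (h * g)) (hfin : FiniteDimensional Ω (WT T0))
    (hloc : LocAb π T0 n) (hcov : ∀ v : V, ∃ ψ : V →* Ωˣ, (orderOf ψ).Prime ∧ ψ v = 1) (hcrit : CritD V Ω n)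
    (g : Fin (n + 1) → Γ) : GG (TA T0) (n + 1) (rA T0 ∘ g) = 0 := by
  classical
  have hfA : FiniteDimensional Ω (AA T0) := inferInstance
  have hfB : FiniteDimensional Ω (BT π T0) := inferInstanceAs (FiniteDimensional Ω ↥(BB π T0))
  have hss := ss (π := π) hT hfin hloc hcov
  obtain ⟨l, d, hd, ⟨e⟩⟩ := IsSemisimpleRing.exists_algEquiv_pi_matrix_of_isAlgClosed Ω (BT π T0)
  have hm : ∀ i : Fin l, ∃ m : ℕ, ∀ M : Matrix (Fin (d i)) (Fin (d i)) Ω,
      TB π T0 (e.symm (Pi.single i M)) = m * M.trace := by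
    intro i
    have hdi : NeZero (d i) := hd i
    let Ti : Matrix (Fin (d i)) (Fin (d i)) Ω →ₗ[Ω] Ω :=
      ((TB π T0).comp e.symm.toLinearMap).comp (LinearMap.single Ω (fun i => Matrix (Fin (d i)) (Fin (d i)) Ω) i)
    have hTi : ∀ a b, Ti (a * b) = Ti (b * a) := by
      intro a b
      change TB π T0 (e.symm (Pi.single i (a * b))) = TB π T0 (e.symm (Pi.single i (b * a)))
      rw [Pi.single_mul, Pi.single_mul, map_mul e.symm, map_mul e.symm, TB_comm π hT]
    have h0 : ∀ M, Ti M = Ti (Matrix.single 0 0 1) * M.trace := fun M => central_mat Ti hTi 0 M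
    have hTbl : ∀ M, TB π T0 (bl e i M) = Ti M := fun M => rfl
    have key : ∃ m : ℕ, Ti (Matrix.single 0 0 1) = m := by
      by_cases hz : ∃ ψ : V →* Ωˣ, (orderOf ψ).Prime ∧ th π T0 ψ (bl e i 1) = bl e i 1
      · obtain ⟨ψ, hp, hz⟩ := hz
        obtain ⟨e0, m, h2, h3⟩ := case1 e i hloc hp hz
        refine ⟨m, ?_⟩
        rw [hTbl, h0, h2, mul_one] at h3
        exact h3
      · push Not at hz
        obtain ⟨ψ0, hψ0, -⟩ := hcov 1
        exact case2 e i hloc hψ0 hcrit hz (bl e i (Matrix.single 0 0 1))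
          (by rw [← bl_mul, Matrix.single_mul_single_same, mul_one]) (by rw [← bl_mul, one_mul])
    obtain ⟨m, hm⟩ := key
    refine ⟨m, fun M => ?_⟩
    rw [← hm]
    exact h0 M
  choose m hm using hm
  obtain ⟨φ, hφ⟩ := rep_of_mult (TB π T0) (by
    have h2 : (1 : BT π T0) = rB π T0 1 := (map_one (rB π T0)).symm
    rw [h2, TB_rB, h1]) e m hm
  have h2 : TB π T0 = (Matrix.traceLinearMap (Fin n) Ω Ω).comp φ.toLinearMap :=
    LinearMap.ext fun a => (hφ a).symm
  have h3 := GG_transfer (M := Γ) (TA T0) (TB π T0) (rA T0) (rB π T0) (fun x => by rw [TA_rA, TB_rB]) (n + 1) g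
  rw [h3, h2, GG_hom, GG_trace]
  exact FF_large _ (Nat.lt_succ_self n) _

end main

end Pool.Agent.L5helper16.PP
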