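import Pool.Agent.L5helper16.PP.I
import Pool.Agent.L5helper16.PP.M

/-!
# Patching over abelian extensions
-/

set_option autoImplicit false

namespace Pool.Agent.L5helper16.PP

open Matrix Finset Topology Pool.Agent.L5helper16.GP

section patch

variable {Γ V X Ω : Type*} [Group Γ] [TopologicalSpace Γ] [IsTopologicalGroup Γ] [Group V] [MulAction Γ X]
  [Field Ω] [TopologicalSpace Ω] [IsTopologicalRing Ω] [T2Space Ω] {n : ℕ}

variable {π : Γ →* V} (hopen : IsOpen (π.ker : Set Γ)) {fr : X → Γ}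
  (hfr : ∀ (γ : Γ) (Q : X), fr (γ • Q) = γ * fr Q * γ⁻¹) (hd : Dense (Set.range fr))
  {c : X → GL (Fin n) Ω} (hcc : ∀ (γ : Γ) (Q : X), (c (γ • Q) : Matrix (Fin n) (Fin n) Ω).charpoly =
    (c Q : Matrix (Fin n) (Fin n) Ω).charpoly)

include hopen hfr hd hcc in
/-- **Patching, if the identities hold.** -/
theorem core [IsAlgClosed Ω] [CharZero Ω] [Finite V] (hπ : Function.Surjective π) {S : Set (Subgroup V)}
    (hS : Covers S) (hr : ∀ H ∈ S, ∃ r : H.comap π →* GL (Fin n) Ω, Attached π fr c H r)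
    (hG : ∀ T0 : Γ → Ω, T0 1 = n → (∀ g h, T0 (g * h) = T0 (h * g)) → FiniteDimensional Ω (WT T0) →
      (∀ H ∈ S, ∃ r : H.comap π →* GL (Fin n) Ω, ∀ x : H.comap π,
        T0 x = ((r x : GL (Fin n) Ω) : Matrix (Fin n) (Fin n) Ω).trace) →
      ∀ g : Fin (n + 1) → Γ, GG (TA T0) (n + 1) (rA T0 ∘ g) = 0) :
    ∃ s : Γ →* GL (Fin n) Ω, Continuous s ∧
      (∀ Q : X, ((s (fr Q) : GL (Fin n) Ω) : Matrix (Fin n) (Fin n) Ω).charpoly =
        (c Q : Matrix (Fin n) (Fin n) Ω).charpoly) ∧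
      ∀ (H : Subgroup V) (r : H.comap π →* GL (Fin n) Ω), Attached π fr c H r → ∀ γ : H.comap π,
        ((s γ : GL (Fin n) Ω) : Matrix (Fin n) (Fin n) Ω).charpoly =
          ((r γ : GL (Fin n) Ω) : Matrix (Fin n) (Fin n) Ω).charpoly := by
  classical
  have hsingle : ∀ v : V, ∃ g : Γ, ∃ H ∈ S, π g * v * (π g)⁻¹ ∈ H := by
    intro v
    obtain ⟨g, H, hH, h⟩ := hS v
    obtain ⟨δ, rfl⟩ := hπ g
    exact ⟨δ, H, hH, h⟩
  choose δ H hHS hδ using hsingle
  choose r0 hr0 using hr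
  have hmem : ∀ γ : Γ, δ (π γ) * γ * (δ (π γ))⁻¹ ∈ (H (π γ)).comap π := by
    intro γ
    rw [Subgroup.mem_comap, map_mul, map_mul, map_inv]
    exact hδ _
  let T0 : Γ → Ω := fun γ => ((r0 (H (π γ)) (hHS _) ⟨δ (π γ) * γ * (δ (π γ))⁻¹, hmem γ⟩ : GL (Fin n) Ω) :
    Matrix (Fin n) (Fin n) Ω).trace
  have hT0 : ∀ (H' : Subgroup V) (r : H'.comap π →* GL (Fin n) Ω), Attached π fr c H' r → ∀ (ε γ : Γ)
      (h : ε * γ * ε⁻¹ ∈ H'.comap π), T0 γ = ((r ⟨ε * γ * ε⁻¹, h⟩ : GL (Fin n) Ω) :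
        Matrix (Fin n) (Fin n) Ω).trace := by
    intro H' r hr ε γ h
    exact trace_eq hopen hfr hd hcc (hr0 _ _) hr (δ (π γ)) ε γ (hmem γ) h
  have hcl : ∀ g h : Γ, T0 (g * h) = T0 (h * g) := by
    intro g h
    have e1 : δ (π (g * h)) * (g * h) * (δ (π (g * h)))⁻¹ ∈ (H (π (g * h))).comap π := hmem (g * h)
    have e2 : (δ (π (g * h)) * g) * (h * g) * (δ (π (g * h)) * g)⁻¹ = δ (π (g * h)) * (g * h) * (δ (π (g * h)))⁻¹ := by
      group
    have e3 := hT0 _ _ (hr0 (H (π (g * h))) (hHS _)) (δ (π (g * h)) * g) (h * g) (by rw [e2]; exact e1)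
    rw [e3]
    simp only [e2]
    rfl
  have h1 : T0 1 = (n : Ω) := by
    change ((r0 (H (π 1)) (hHS _) ⟨δ (π 1) * 1 * (δ (π 1))⁻¹, hmem 1⟩ : GL (Fin n) Ω) :
      Matrix (Fin n) (Fin n) Ω).trace = _
    have e : (⟨δ (π 1) * 1 * (δ (π 1))⁻¹, hmem 1⟩ : (H (π 1)).comap π) = 1 := by
      apply Subtype.ext
      change δ (π 1) * 1 * (δ (π 1))⁻¹ = 1
      group
    rw [e, map_one, Units.val_one, Matrix.trace_one, Fintype.card_fin]
  have hcont : Continuous T0 := by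
    rw [continuous_iff_continuousAt]
    intro γ0
    let U : Set Γ := {x | δ (π γ0) * x * (δ (π γ0))⁻¹ ∈ (H (π γ0)).comap π}
    have hU : IsOpen U := (comap_open hopen (H (π γ0))).preimage (by fun_prop)
    have hU0 : γ0 ∈ U := hmem γ0
    have hcU : ContinuousOn T0 U := by
      rw [continuousOn_iff_continuous_domRestrict]
      have e : U.domRestrict T0 = fun x : U => ((r0 (H (π γ0)) (hHS _) ⟨δ (π γ0) * x * (δ (π γ0))⁻¹, x.2⟩ :
          GL (Fin n) Ω) : Matrix (Fin n) (Fin n) Ω).trace := by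
        funext x
        exact hT0 _ _ (hr0 _ _) (δ (π γ0)) x x.2
      rw [e]
      apply Continuous.matrix_trace
      apply Units.continuous_val.comp
      apply (hr0 (H (π γ0)) (hHS _)).1.comp
      apply Continuous.subtype_mk
      fun_prop
    exact hcU.continuousAt (hU.mem_nhds hU0)
  have hfin : FiniteDimensional Ω (WT T0) := fin_rank hπ T0 fun v =>
    ⟨H v, δ v, r0 (H v) (hHS v), hδ v, fun γ hγ => hT0 _ _ (hr0 _ _) _ _ hγ⟩
  have hlocal : ∀ H' ∈ S, ∃ r : H'.comap π →* GL (Fin n) Ω, ∀ x : H'.comap π,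
      T0 x = ((r x : GL (Fin n) Ω) : Matrix (Fin n) (Fin n) Ω).trace := by
    intro H' hH'
    refine ⟨r0 H' hH', fun x => ?_⟩
    have h3 : (1 : Γ) * x * 1⁻¹ ∈ H'.comap π := by rw [one_mul, inv_one, mul_one]; exact x.2
    rw [hT0 _ _ (hr0 _ _) 1 x h3]
    have e : (⟨(1 : Γ) * x * 1⁻¹, h3⟩ : H'.comap π) = x := Subtype.ext (by
      change (1 : Γ) * x * 1⁻¹ = x
      group)
    rw [e]
  obtain ⟨s, hs1, hs2⟩ := rep_of_fun h1 hcl hfin (hG T0 h1 hcl hfin hlocal)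
  have hscont : Continuous s := by
    have hval : Continuous fun γ => ((s γ : GL (Fin n) Ω) : Matrix (Fin n) (Fin n) Ω) := by
      refine continuous_matrix fun i j => ?_
      obtain ⟨a, ha⟩ := hs2 i j
      simp_rw [ha, Finsupp.sum]
      exact continuous_finsetSum _ fun δ' _ => continuous_const.mul (hcont.comp (continuous_mul_const δ'))
    rw [Units.continuous_iff]
    refine ⟨hval, ?_⟩
    have e : (fun γ => (((s γ)⁻¹ : GL (Fin n) Ω) : Matrix (Fin n) (Fin n) Ω)) =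
        fun γ => ((s γ⁻¹ : GL (Fin n) Ω) : Matrix (Fin n) (Fin n) Ω) := by
      funext γ
      rw [map_inv]
    change Continuous fun γ => (((s γ)⁻¹ : GL (Fin n) Ω) : Matrix (Fin n) (Fin n) Ω)
    rw [e]
    exact hval.comp continuous_inv
  have hsr : ∀ (H : Subgroup V) (r : H.comap π →* GL (Fin n) Ω), Attached π fr c H r → ∀ γ : H.comap π,
        ((s γ : GL (Fin n) Ω) : Matrix (Fin n) (Fin n) Ω).charpoly =
          ((r γ : GL (Fin n) Ω) : Matrix (Fin n) (Fin n) Ω).charpoly := by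
    intro H' r hr γ
    refine charpoly_eq (R := s.comp (H'.comap π).subtype) (R' := r) (fun x => ?_) γ
    change ((s x : GL (Fin n) Ω) : Matrix (Fin n) (Fin n) Ω).trace = _
    have h3 : (1 : Γ) * x * 1⁻¹ ∈ H'.comap π := by rw [one_mul, inv_one, mul_one]; exact x.2
    rw [hs1, hT0 H' r hr 1 x h3]
    have e : (⟨(1 : Γ) * x * 1⁻¹, h3⟩ : H'.comap π) = x := Subtype.ext (by
      change (1 : Γ) * x * 1⁻¹ = x
      group)
    rw [e]
  refine ⟨s, hscont, fun Q => ?_, hsr⟩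
  have h4 := hsr (H (π (fr Q))) (r0 _ (hHS _)) (hr0 _ _) ⟨_, hmem (fr Q)⟩
  rw [charpoly_fr hfr hcc (hr0 _ _) (δ (π (fr Q))) Q (hmem (fr Q))] at h4
  rw [← h4]
  have h5 := charpoly_conj (s (δ (π (fr Q))))⁻¹ (s (fr Q))
  rw [inv_inv] at h5
  rw [← h5]
  congr 2
  rw [map_mul, map_mul, map_inv]

end patch

section cov

variable {V Ω : Type*} [CommGroup V] [Finite V] [Field Ω] [IsAlgClosed Ω] [CharZero Ω]

/-- a power of a nontrivial element has prime order -/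
lemma exists_pow_prime {G : Type*} [Group G] [Finite G] (x : G) (hx : x ≠ 1) : ∃ k : ℕ, (orderOf (x ^ k)).Prime := by
  have h1 : orderOf x ≠ 1 := fun h2 => hx (orderOf_eq_one_iff.mp h2)
  obtain ⟨p, hp, hdvd⟩ := Nat.exists_prime_and_dvd h1
  obtain ⟨k, hk⟩ := hdvd
  have hpos : 0 < orderOf x := orderOf_pos x
  have hk0 : k ≠ 0 := by
    rintro rfl
    omega
  refine ⟨k, ?_⟩
  have h3 : orderOf x = k * p := by rw [hk, mul_comm]
  rw [orderOf_pow' x hk0, h3, Nat.gcd_mul_right_left, Nat.mul_div_cancel_left _ (Nat.pos_of_ne_zero hk0)]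
  exact hp

lemma exists_char (w : V) (hw : w ≠ 1) : ∃ φ : V →* Ωˣ, φ w ≠ 1 := by
  have h0 : NeZero (Monoid.exponent V) := ⟨Monoid.exponent_ne_zero_of_finite⟩
  have : NeZero ((Monoid.exponent V : ℕ) : Ω) := ⟨Nat.cast_ne_zero.mpr h0.ne⟩
  exact CommGroup.exists_apply_ne_one_of_hasEnoughRootsOfUnity V Ω hw

variable (Ω) in
/-- every proper subgroup is in the kernel of a character of prime order -/
lemma exists_ker (H : Subgroup V) (hH : H ≠ ⊤) : ∃ ψ : V →* Ωˣ, (orderOf ψ).Prime ∧ H ≤ ψ.ker := by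
  obtain ⟨x, hx⟩ : ∃ x : V, x ∉ H := by
    by_contra h
    push Not at h
    exact hH ((Subgroup.eq_top_iff' H).mpr h)
  obtain ⟨φ, hφ⟩ := exists_char (Ω := Ω) (V := V ⧸ H) (QuotientGroup.mk x) (fun h => hx ((QuotientGroup.eq_one_iff x).mp h))
  set ψ : V →* Ωˣ := φ.comp (QuotientGroup.mk' H) with hψ
  have hψ1 : ψ ≠ 1 := by
    intro h
    apply hφ
    have := DFunLike.congr_fun h x
    exact this
  obtain ⟨k, hk⟩ := exists_pow_prime ψ hψ1
  refine ⟨ψ ^ k, hk, fun y hy => ?_⟩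
  rw [MonoidHom.mem_ker, MonoidHom.pow_apply]
  have : ψ y = 1 := by
    rw [hψ, MonoidHom.comp_apply, QuotientGroup.mk'_apply, (QuotientGroup.eq_one_iff y).mpr hy, map_one]
  rw [this, one_pow]

omit [Finite V] [IsAlgClosed Ω] [CharZero Ω] in
lemma ker_ne_top {ψ : V →* Ωˣ} (hp : (orderOf ψ).Prime) : ψ.ker ≠ ⊤ := by
  intro h
  rw [MonoidHom.ker_eq_top_iff] at h
  rw [h, orderOf_one] at hp
  exact Nat.not_prime_one hp

/-- the kernel of a character of prime order is a maximal subgroup -/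
lemma ker_coatom {ψ : V →* Ωˣ} (hp : (orderOf ψ).Prime) : IsCoatom ψ.ker := by
  have hfact : Fact (orderOf ψ).Prime := ⟨hp⟩
  refine ⟨ker_ne_top hp, fun K hK => ?_⟩
  by_contra hKt
  obtain ⟨φ, hφ, hKφ⟩ := exists_ker Ω K hKt
  -- the values of both characters on an element outside the kernel of the first one
  obtain ⟨x, hxK, hx⟩ := SetLike.exists_of_lt hK
  obtain ⟨y, hy⟩ : ∃ y : V, φ y ≠ 1 := by
    by_contra h
    push Not at h
    exact ker_ne_top hφ ((Subgroup.eq_top_iff' _).mpr h)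
  rw [MonoidHom.mem_ker] at hx
  have hxp : (ψ x) ^ orderOf ψ = 1 := by
    rw [← MonoidHom.pow_apply, pow_orderOf_eq_one, MonoidHom.one_apply]
  have hyp : (ψ y) ^ orderOf ψ = 1 := by
    rw [← MonoidHom.pow_apply, pow_orderOf_eq_one, MonoidHom.one_apply]
  have hord : orderOf (ψ x) = orderOf ψ := orderOf_eq_prime hxp hx
  have hprim : IsPrimitiveRoot ((ψ x : Ωˣ) : Ω) (orderOf ψ) := by
    rw [IsPrimitiveRoot.coe_units_iff, ← hord]
    exact IsPrimitiveRoot.orderOf (ψ x)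
  have hnz : NeZero (orderOf ψ) := ⟨hp.ne_zero⟩
  obtain ⟨j, -, hj'⟩ := hprim.eq_pow_of_pow_eq_one (ξ := ((ψ y : Ωˣ) : Ω)) (by
    rw [← Units.val_pow_eq_pow_val, hyp, Units.val_one])
  have hj : (ψ x) ^ j = ψ y := Units.ext (by rw [Units.val_pow_eq_pow_val, hj'])
  apply hy
  have h1 : x⁻¹ ^ j * y ∈ ψ.ker := by
    rw [MonoidHom.mem_ker, map_mul, map_pow, map_inv, ← hj, inv_pow, inv_mul_cancel]
  have h2 : φ (x⁻¹ ^ j * y) = 1 := hKφ (hK.le h1)
  have h3 : φ x = 1 := hKφ hxK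
  rw [map_mul, map_pow, map_inv, h3, inv_one, one_pow, one_mul] at h2
  exact h2

end cov

end Pool.Agent.L5helper16.PP
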