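import Pool.Agent.L5helper16.PP.N

/-!
# The combinatorial criterion for abelian groups
-/

set_option autoImplicit false

namespace Pool.Agent.L5helper16.PP

open Matrix Finset Topology Pool.Agent.L5helper16.GP

/-- every rational function on `V` with sum `n`, whose sums over the cosets of all subgroups of prime order are natural
numbers, has natural numbers as values -/
def Crit (V : Type*) [CommGroup V] [Fintype V] (n : ℕ) : Prop :=
  ∀ a : V → ℚ, (∀ v w : V, (orderOf w).Prime → ∃ m : ℕ, ∑ j ∈ range (orderOf w), a (v * w ^ j) = m) →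
    ∑ v, a v = n → ∀ v, ∃ m : ℕ, a v = m

section dual

variable {V : Type*} [CommGroup V] [Fintype V] (Ω : Type*) [Field Ω] [IsAlgClosed Ω] [CharZero Ω]

lemma exists_iso : Nonempty ((V →* Ωˣ) ≃* V) := by
  have h0 : NeZero (Monoid.exponent V) := ⟨Monoid.exponent_ne_zero_of_finite⟩
  have : NeZero ((Monoid.exponent V : ℕ) : Ω) := ⟨Nat.cast_ne_zero.mpr h0.ne⟩
  exact CommGroup.monoidHom_mulEquiv_of_hasEnoughRootsOfUnity V Ω

variable {Ω} in
omit [IsAlgClosed Ω] [CharZero Ω] in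
lemma exists_in_ker (hV : ¬ IsCyclic V) (χ : V →* Ωˣ) : ∃ w : V, (orderOf w).Prime ∧ χ w = 1 := by
  have h1 : ¬ Function.Injective ((Units.coeHom Ω).comp χ) := fun h => hV (isCyclic_of_injective_ringHom _ h)
  rw [injective_iff_map_eq_one] at h1
  push Not at h1
  obtain ⟨x, hx, hx1⟩ := h1
  have hx' : χ x = 1 := Units.ext hx
  obtain ⟨k, hk⟩ := exists_pow_prime x hx1
  exact ⟨x ^ k, hk, by rw [map_pow, hx', one_pow]⟩

include Ω in
lemma uniq (hV : ¬ IsCyclic V) {b : V → ℚ}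
    (hb : ∀ v w : V, (orderOf w).Prime → ∑ j ∈ range (orderOf w), b (v * w ^ j) = 0) (v0 : V) : b v0 = 0 := by
  have hF : ∀ χ : V →* Ωˣ, ∑ v, (b v : Ω) * χ v = 0 := by
    intro χ
    obtain ⟨w, hw, hχ⟩ := exists_in_ker hV χ
    have h1 : ∑ j ∈ range (orderOf w), ∑ v, (b (v * w ^ j) : Ω) * χ (v * w ^ j) =
        (orderOf w : Ω) * ∑ v, (b v : Ω) * χ v := by
      have h2 : ∀ j ∈ range (orderOf w), ∑ v, (b (v * w ^ j) : Ω) * χ (v * w ^ j) = ∑ v, (b v : Ω) * χ v := fun j _ =>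
        Equiv.sum_comp (Equiv.mulRight (w ^ j)) (fun v => (b v : Ω) * χ v)
      rw [sum_congr rfl h2, sum_const, card_range, nsmul_eq_mul]
    rw [sum_comm] at h1
    have h3 : ∀ v, ∑ j ∈ range (orderOf w), (b (v * w ^ j) : Ω) * χ (v * w ^ j) = 0 := by
      intro v
      have h4 : ∀ j ∈ range (orderOf w), (b (v * w ^ j) : Ω) * χ (v * w ^ j) = (χ v : Ω) * (b (v * w ^ j) : Ω) := by
        intro j _
        rw [map_mul, map_pow, hχ, one_pow, mul_one, mul_comm]
      rw [sum_congr rfl h4, ← mul_sum, ← Rat.cast_sum, hb v w hw, Rat.cast_zero, mul_zero]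
    rw [sum_congr rfl fun v _ => h3 v, sum_const_zero] at h1
    exact (mul_eq_zero.mp h1.symm).resolve_left (Nat.cast_ne_zero.mpr hw.ne_zero)
  have h5 : ∑ χ : V →* Ωˣ, ((χ v0)⁻¹ : Ωˣ).val * ∑ v, (b v : Ω) * χ v = 0 :=
    sum_eq_zero fun χ _ => by rw [hF, mul_zero]
  have h6 : ∑ χ : V →* Ωˣ, ((χ v0)⁻¹ : Ωˣ).val * ∑ v, (b v : Ω) * χ v = (b v0 : Ω) * Nat.card V := by
    have h7 : ∀ χ : V →* Ωˣ, ((χ v0)⁻¹ : Ωˣ).val * ∑ v, (b v : Ω) * χ v = ∑ v, (b v : Ω) * (χ (v0⁻¹ * v) : Ω) := by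
      intro χ
      rw [mul_sum]
      refine sum_congr rfl fun v _ => ?_
      rw [map_mul, map_inv, Units.val_mul]
      ring
    simp_rw [h7]
    rw [sum_comm]
    simp_rw [← mul_sum]
    rw [sum_eq_single v0]
    · have h8 : ∑ χ : V →* Ωˣ, (χ (v0⁻¹ * v0) : Ω) = Nat.card V := by
        simp only [inv_mul_cancel, map_one, Units.val_one, sum_const, card_univ, nsmul_eq_mul, mul_one]
        rw [card_chars]
      rw [h8]
    · intro v _ hv
      rw [sum_chars _ (fun h => hv (inv_mul_eq_one.mp h).symm), mul_zero]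
    · intro h
      exact absurd (mem_univ _) h
  rw [h6] at h5
  have h0 : (Nat.card V : Ω) ≠ 0 := Nat.cast_ne_zero.mpr Nat.card_pos.ne'
  exact_mod_cast (mul_eq_zero.mp h5).resolve_right h0

/-- the values are rational -/
lemma rational (hV : ¬ IsCyclic V) {a : V → Ω}
    (ha : ∀ v w : V, (orderOf w).Prime → ∃ m : ℕ, ∑ j ∈ range (orderOf w), a (v * w ^ j) = m) (v0 : V) :
    ∃ q : ℚ, a v0 = q := by
  by_contra h
  have h1 : a v0 ∉ (Submodule.span ℚ {(1 : Ω)}) := by
    intro h2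
    obtain ⟨q, hq⟩ := Submodule.mem_span_singleton.mp h2
    apply h
    refine ⟨q, ?_⟩
    rw [← hq, Rat.smul_one_eq_cast]
  obtain ⟨f, hf1, hf2⟩ := Submodule.exists_le_ker_of_notMem h1
  have hf3 : f 1 = 0 := hf2 (Submodule.mem_span_singleton_self 1)
  apply hf1
  refine uniq Ω hV (b := fun v => f (a v)) (fun v w hw => ?_) v0
  obtain ⟨m, hm⟩ := ha v w hw
  rw [← map_sum, hm]
  have : ((m : ℕ) : Ω) = (m : ℚ) • (1 : Ω) := by
    rw [Rat.smul_one_eq_cast, Rat.cast_natCast]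
  rw [this, map_smul, hf3, smul_zero]

lemma critD_of_crit (hV : ¬ IsCyclic V) {n : ℕ} (h : Crit V n) : CritD V Ω n := by
  classical
  intro a ha hs χ0
  obtain ⟨ι⟩ := exists_iso (V := V) Ω
  have hcos : ∀ v w : V, (orderOf w).Prime → ∃ m : ℕ, ∑ j ∈ range (orderOf w), a (ι.symm (v * w ^ j)) = m := by
    intro v w hw
    obtain ⟨m, hm⟩ := ha (ι.symm v) (ι.symm w) (by rw [MulEquiv.orderOf_eq]; exact hw)
    rw [MulEquiv.orderOf_eq] at hm
    refine ⟨m, ?_⟩
    rw [← hm]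
    refine sum_congr rfl fun j _ => ?_
    rw [map_mul, map_pow]
  choose b hb using fun v => rational Ω hV (a := fun v => a (ι.symm v)) hcos v
  obtain ⟨m, hmn, hm⟩ := hs
  have hbtot : ∑ v, b v = m := by
    have h1 : ((∑ v, b v : ℚ) : Ω) = ((m : ℚ) : Ω) := by
      rw [Rat.cast_natCast, ← hm, Rat.cast_sum, ← Equiv.sum_comp ι.symm.toEquiv]
      exact sum_congr rfl fun v _ => (hb v).symm
    exact_mod_cast h1
  have hnt : Nontrivial V := by
    by_contra hn
    rw [not_nontrivial_iff_subsingleton] at hn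
    exact hV isCyclic_of_subsingleton
  obtain ⟨v1, hv1⟩ := exists_ne (ι χ0)
  obtain ⟨k, hk⟩ := h (fun v => b v + if v = v1 then ((n - m : ℕ) : ℚ) else 0) (by
    intro v w hw
    obtain ⟨k, hk⟩ := hcos v w hw
    have h1 : ∑ j ∈ range (orderOf w), b (v * w ^ j) = k := by
      have h2 : ((∑ j ∈ range (orderOf w), b (v * w ^ j) : ℚ) : Ω) = ((k : ℚ) : Ω) := by
        rw [Rat.cast_natCast, ← hk, Rat.cast_sum]
        exact sum_congr rfl fun j _ => (hb _).symm
      exact_mod_cast h2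
    refine ⟨k + ∑ j ∈ range (orderOf w), if v * w ^ j = v1 then (n - m) else 0, ?_⟩
    rw [sum_add_distrib, h1]
    push_cast
    rfl) (by
    rw [sum_add_distrib, hbtot, sum_ite_eq' univ v1, if_pos (mem_univ _)]
    push_cast [hmn]
    ring) (ι χ0)
  rw [if_neg (Ne.symm hv1), add_zero] at hk
  refine ⟨k, ?_⟩
  have h2 := hb (ι χ0)
  rw [MulEquiv.symm_apply_apply, hk, Rat.cast_natCast] at h2
  exact h2

end dual

section sums

variable {E : Type*} [CommGroup E] [Fintype E]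

/-- sums over the cosets of a cyclic subgroup -/
lemma sum_cosets {M : Type*} [AddCommMonoid M] (η : E) (g : E → M) :
    ∑ χ, g χ = ∑ q : E ⧸ Subgroup.zpowers η, ∑ j ∈ range (orderOf η), g (q.out * η ^ j) := by
  classical
  have hpos : 0 < orderOf η := orderOf_pos η
  let Φ : (E ⧸ Subgroup.zpowers η) × Fin (orderOf η) → E := fun x => x.1.out * η ^ (x.2 : ℕ)
  have hinj : Function.Injective Φ := by
    rintro ⟨q, j⟩ ⟨q', j'⟩ h
    have h1 : q.out * η ^ (j : ℕ) = q'.out * η ^ (j' : ℕ) := h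
    have h2 : ∀ (q : E ⧸ Subgroup.zpowers η) (j : ℕ), (QuotientGroup.mk (q.out * η ^ j) : E ⧸ Subgroup.zpowers η) = q := by
      intro q j
      rw [QuotientGroup.mk_mul_of_mem _ (Subgroup.npow_mem_zpowers η j)]
      exact Quotient.out_eq' q
    have h3 : q = q' := by rw [← h2 q j, h1, h2]
    subst h3
    have h4 := mul_left_cancel h1
    have h5 := pow_injOn_Iio_orderOf (Set.mem_Iio.mpr j.2) (Set.mem_Iio.mpr j'.2) h4
    rw [Fin.ext h5]
  have hbij : Function.Bijective Φ := by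
    rw [Fintype.bijective_iff_injective_and_card]
    refine ⟨hinj, ?_⟩
    rw [Fintype.card_prod, Fintype.card_fin, ← Fintype.card_zpowers]
    have := Subgroup.card_eq_card_quotient_mul_card_subgroup (Subgroup.zpowers η)
    rw [Nat.card_eq_fintype_card, Nat.card_eq_fintype_card, Nat.card_eq_fintype_card] at this
    exact this.symm
  rw [← Equiv.sum_comp (Equiv.ofBijective Φ hbij) g, Fintype.sum_prod_type]
  refine sum_congr rfl fun q _ => ?_
  rw [← Fin.sum_univ_eq_sum_range (fun j => g (q.out * η ^ j))]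
  rfl

end sums

end Pool.Agent.L5helper16.PP
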