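import Pool.Agent.L5helper16.PP.O

/-!
# The exact criterion for abelian extensions; multiquadratic extensions
-/

set_option autoImplicit false

namespace Pool.Agent.L5helper16.PP

open Matrix Finset Topology Pool.Agent.L5helper16.GP

section patch

variable {Γ V X Ω : Type*} [Group Γ] [TopologicalSpace Γ] [IsTopologicalGroup Γ] [CommGroup V] [Fintype V]
  [MulAction Γ X] [Field Ω] [IsAlgClosed Ω] [CharZero Ω] [TopologicalSpace Ω] [IsTopologicalRing Ω] [T2Space Ω] {n : ℕ}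

variable {π : Γ →* V} (hopen : IsOpen (π.ker : Set Γ)) {fr : X → Γ}
  (hfr : ∀ (γ : Γ) (Q : X), fr (γ • Q) = γ * fr Q * γ⁻¹) (hd : Dense (Set.range fr))
  {c : X → GL (Fin n) Ω} (hcc : ∀ (γ : Γ) (Q : X), (c (γ • Q) : Matrix (Fin n) (Fin n) Ω).charpoly =
    (c Q : Matrix (Fin n) (Fin n) Ω).charpoly)

omit [Fintype V] in
lemma covers_of [Finite V] (hV : ¬ IsCyclic V) {S : Set (Subgroup V)} (hS : ∀ H : Subgroup V, IsCoatom H → H ∈ S) :
    Covers S := by
  intro v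
  have h1 : Subgroup.zpowers v ≠ ⊤ := fun h => hV ⟨v, fun x => by
    have : x ∈ (⊤ : Subgroup V) := trivial
    rwa [← h] at this⟩
  obtain ⟨K, hK, h2⟩ := (eq_top_or_exists_le_coatom (Subgroup.zpowers v)).resolve_left h1
  exact ⟨1, K, hS K hK, by rw [one_mul, inv_one, mul_one]; exact h2 (Subgroup.mem_zpowers v)⟩

include hopen hfr hd hcc in
/-- **Patching over abelian extensions.** -/
theorem patch_ab (hπ : Function.Surjective π) (hV : ¬ IsCyclic V) {S : Set (Subgroup V)}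
    (hS : ∀ H : Subgroup V, IsCoatom H → H ∈ S) (hcrit : Crit V n)
    (hr : ∀ H ∈ S, ∃ r : H.comap π →* GL (Fin n) Ω, Attached π fr c H r) :
    ∃ s : Γ →* GL (Fin n) Ω, Continuous s ∧
      (∀ Q : X, ((s (fr Q) : GL (Fin n) Ω) : Matrix (Fin n) (Fin n) Ω).charpoly =
        (c Q : Matrix (Fin n) (Fin n) Ω).charpoly) ∧
      ∀ (H : Subgroup V) (r : H.comap π →* GL (Fin n) Ω), Attached π fr c H r → ∀ γ : H.comap π,
        ((s γ : GL (Fin n) Ω) : Matrix (Fin n) (Fin n) Ω).charpoly =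
          ((r γ : GL (Fin n) Ω) : Matrix (Fin n) (Fin n) Ω).charpoly := by
  refine core hopen hfr hd hcc hπ (covers_of hV hS) hr ?_
  intro T0 h1 hT hfin hlocal
  refine ident_ab (π := π) h1 hT hfin (fun ψ hp => hlocal _ (hS _ (ker_coatom hp))) (fun v => ?_)
    (critD_of_crit Ω hV hcrit)
  have h1 : Subgroup.zpowers v ≠ ⊤ := fun h => hV ⟨v, fun x => by
    have : x ∈ (⊤ : Subgroup V) := trivial
    rwa [← h] at this⟩
  obtain ⟨ψ, hψ, h2⟩ := exists_ker Ω (Subgroup.zpowers v) h1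
  exact ⟨ψ, hψ, h2 (Subgroup.mem_zpowers v)⟩

end patch

section fails

variable {V Ω : Type*} [CommGroup V] [Fintype V] [Field Ω] [IsAlgClosed Ω] [CharZero Ω] {n : ℕ}

omit [Fintype V] [IsAlgClosed Ω] [CharZero Ω] in
/-- sums of characters are traces of representations -/
lemma diag_rep {G : Type*} [Group G] {κ : Type*} [Fintype κ] (hκ : Fintype.card κ = n) (f : κ → (G →* Ωˣ)) :
    ∃ ρ : G →* GL (Fin n) Ω, ∀ x, ((ρ x : GL (Fin n) Ω) : Matrix (Fin n) (Fin n) Ω).trace = ∑ k, (f k x : Ω) := by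
  classical
  let e : κ ≃ Fin n := Fintype.equivFinOfCardEq hκ
  let M : G →* Matrix (Fin n) (Fin n) Ω :=
    { toFun := fun x => Matrix.diagonal fun i => (f (e.symm i) x : Ω)
      map_one' := by
        rw [← Matrix.diagonal_one]
        congr 1
        funext i
        rw [map_one, Units.val_one]
      map_mul' := fun x y => by
        rw [Matrix.diagonal_mul_diagonal]
        congr 1
        funext i
        rw [map_mul, Units.val_mul] }
  refine ⟨M.toHomUnits, fun x => ?_⟩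
  change (Matrix.diagonal fun i => (f (e.symm i) x : Ω)).trace = _
  rw [Matrix.trace_diagonal]
  exact Equiv.sum_comp e.symm (fun k => (f k x : Ω))

/-- the class function of a function on the characters -/
noncomputable def clf (a : (V →* Ωˣ) → ℚ) (v : V) : Ω := ∑ χ, (a χ : Ω) * χ v

omit [IsAlgClosed Ω] in
lemma clf_char [IsAlgClosed Ω] {a : (V →* Ωˣ) → ℚ}
    (ha : ∀ χ η : V →* Ωˣ, (orderOf η).Prime → ∃ m : ℕ, ∑ j ∈ range (orderOf η), a (χ * η ^ j) = m)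
    (hs : ∑ χ, a χ = n) {H : Subgroup V} (hH : H ≠ ⊤) :
    ∃ ρ : H →* GL (Fin n) Ω, ∀ x : H, ((ρ x : GL (Fin n) Ω) : Matrix (Fin n) (Fin n) Ω).trace = clf a (x : V) := by
  classical
  obtain ⟨ψ, hp, hψ⟩ := exists_ker Ω H hH
  choose m hm using fun χ => ha χ ψ hp
  let κ := Σ q : (V →* Ωˣ) ⧸ Subgroup.zpowers ψ, Fin (m q.out)
  have hκ : Fintype.card κ = n := by
    have h1 : ((Fintype.card κ : ℕ) : ℚ) = n := by
      rw [Fintype.card_sigma]
      simp only [Fintype.card_fin]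
      push_cast
      rw [← hs, sum_cosets ψ a]
      exact sum_congr rfl fun q _ => (hm _).symm
    exact_mod_cast h1
  obtain ⟨ρ, hρ⟩ := diag_rep hκ (fun k : κ => (k.1.out : V →* Ωˣ).comp H.subtype)
  refine ⟨ρ, fun x => ?_⟩
  rw [hρ, ← Finset.univ_sigma_univ, Finset.sum_sigma]
  unfold clf
  rw [sum_cosets ψ (fun χ => (a χ : Ω) * χ x)]
  refine sum_congr rfl fun q _ => ?_
  have h1 : ∀ j ∈ range (orderOf ψ), (a (q.out * ψ ^ j) : Ω) * ((q.out * ψ ^ j) (x : V) : Ωˣ) =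
      ((q.out : V →* Ωˣ) (x : V) : Ω) * (a (q.out * ψ ^ j) : Ω) := by
    intro j _
    have h2 : ψ (x : V) = 1 := hψ x.2
    rw [MonoidHom.mul_apply, MonoidHom.pow_apply, h2, one_pow, mul_one, mul_comm]
  rw [sum_congr rfl h1, ← mul_sum, ← Rat.cast_sum, hm]
  change ∑ _k : Fin (m q.out), ((q.out : V →* Ωˣ) (x : V) : Ω) = _
  rw [sum_const, card_univ, Fintype.card_fin, nsmul_eq_mul, Rat.cast_natCast, mul_comm]

lemma clf_nat {a : (V →* Ωˣ) → ℚ} {ρ : V →* GL (Fin n) Ω}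
    (hρ : ∀ x : V, ((ρ x : GL (Fin n) Ω) : Matrix (Fin n) (Fin n) Ω).trace = clf a x) (χ : V →* Ωˣ) :
    ∃ m : ℕ, a χ = m := by
  classical
  have h0 : (Nat.card V : Ω) ≠ 0 := Nat.cast_ne_zero.mpr Nat.card_pos.ne'
  set s : Matrix (Fin n) (Fin n) Ω := ∑ v : V, ((χ v)⁻¹ : Ωˣ).val • ((ρ v : GL (Fin n) Ω) : Matrix (Fin n) (Fin n) Ω)
    with hsdef
  have h1 : ∀ w : V, ((χ w)⁻¹ : Ωˣ).val • ((ρ w : GL (Fin n) Ω) : Matrix (Fin n) (Fin n) Ω) * s = s := by
    intro w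
    rw [hsdef, mul_sum, ← Equiv.sum_comp (Equiv.mulLeft w)
      (fun v => ((χ v)⁻¹ : Ωˣ).val • ((ρ v : GL (Fin n) Ω) : Matrix (Fin n) (Fin n) Ω))]
    refine sum_congr rfl fun v _ => ?_
    rw [smul_mul_smul_comm, ← Units.val_mul, ← Units.val_mul, Equiv.coe_mulLeft, map_mul, map_mul, mul_inv]
  have h2 : s * s = (Nat.card V : Ω) • s := by
    conv_lhs => rw [hsdef, sum_mul, sum_congr rfl fun w _ => h1 w]
    rw [sum_const, card_univ, ← Nat.cast_smul_eq_nsmul Ω, Nat.card_eq_fintype_card]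
  have h3 : ((Nat.card V : Ω)⁻¹ • s) * ((Nat.card V : Ω)⁻¹ • s) = (Nat.card V : Ω)⁻¹ • s := by
    rw [smul_mul_smul_comm, h2, smul_smul, mul_assoc, inv_mul_cancel₀ h0, mul_one]
  have h4 := GG_idem (Matrix.traceLinearMap (Fin n) Ω Ω) _ h3 (n + 1)
  rw [GG_trace, FF_large _ (Nat.lt_succ_self n)] at h4
  obtain ⟨j, -, hj⟩ := prod_eq_zero_iff.mp h4.symm
  refine ⟨j, ?_⟩
  have h5 : (Matrix.traceLinearMap (Fin n) Ω Ω) ((Nat.card V : Ω)⁻¹ • s) = (a χ : Ω) := by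
    rw [map_smul, hsdef, map_sum]
    simp only [map_smul, Matrix.traceLinearMap_apply, hρ, smul_eq_mul]
    unfold clf
    have h6 : ∀ v : V, ((χ v)⁻¹ : Ωˣ).val * ∑ φ : V →* Ωˣ, (a φ : Ω) * φ v =
        ∑ φ : V →* Ωˣ, (a φ : Ω) * (((χ v)⁻¹ : Ωˣ).val * φ v) := by
      intro v
      rw [mul_sum]
      exact sum_congr rfl fun φ _ => by ring
    simp_rw [h6]
    rw [sum_comm]
    simp_rw [← mul_sum]
    have h7 : ∀ φ : V →* Ωˣ, ∑ v : V, ((χ v)⁻¹ : Ωˣ).val * (φ v : Ω) = if φ = χ then (Nat.card V : Ω) else 0 := by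
      intro φ
      split_ifs with h
      · subst h
        simp_rw [← Units.val_mul, inv_mul_cancel, Units.val_one]
        rw [sum_const, card_univ, nsmul_eq_mul, mul_one, Nat.card_eq_fintype_card]
      · let f : V →* Ω := (Units.coeHom Ω).comp (χ⁻¹ * φ)
        have h8 : ∑ v : V, f v = 0 := by
          refine sum_hom_units_eq_zero f ?_
          intro h9
          apply h
          refine MonoidHom.ext fun v => ?_
          have h10 : (χ v)⁻¹ * φ v = 1 := Units.ext (DFunLike.congr_fun h9 v)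
          exact (inv_mul_eq_one.mp h10).symm
        rw [← h8]
        exact sum_congr rfl fun v _ => (Units.val_mul _ _).symm
    simp_rw [h7, mul_ite, mul_zero]
    rw [sum_ite_eq' univ χ, if_pos (mem_univ _)]
    field_simp
  rw [h5, sub_eq_zero] at hj
  exact_mod_cast hj

variable {Γ X : Type*} [Group Γ] [TopologicalSpace Γ] [IsTopologicalGroup Γ] [MulAction Γ X]
  [TopologicalSpace Ω] [IsTopologicalRing Ω] [T2Space Ω]
  {π : Γ →* V} (hopen : IsOpen (π.ker : Set Γ)) {fr : X → Γ}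
  (hfr : ∀ (γ : Γ) (Q : X), fr (γ • Q) = γ * fr Q * γ⁻¹) (hd : Dense (Set.range fr))

include hopen hfr hd in
theorem fails_ab (hπ : Function.Surjective π) {S : Set (Subgroup V)} (hS : Covers S) (hSp : ∀ H ∈ S, H ≠ ⊤)
    (hcrit : ¬ Crit V n) :
    ∃ c : X → GL (Fin n) Ω, (∀ (γ : Γ) (Q : X), (c (γ • Q) : Matrix (Fin n) (Fin n) Ω).charpoly =
      (c Q : Matrix (Fin n) (Fin n) Ω).charpoly) ∧ (∀ H ∈ S, ∃ r : H.comap π →* GL (Fin n) Ω, Attached π fr c H r) ∧
      ¬ ∃ s : Γ →* GL (Fin n) Ω, Continuous s ∧ ∀ Q : X, ((s (fr Q) : GL (Fin n) Ω) :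
        Matrix (Fin n) (Fin n) Ω).charpoly = (c Q : Matrix (Fin n) (Fin n) Ω).charpoly := by
  classical
  unfold Crit at hcrit
  push Not at hcrit
  obtain ⟨a, ha, hs, v0, hv0⟩ := hcrit
  obtain ⟨ι⟩ := exists_iso (V := V) Ω
  refine fails_cls hopen hfr hd hπ hS (T := clf fun χ => a (ι χ)) (fun g v => by rw [mul_comm g v, mul_inv_cancel_right])
    (fun H hH => clf_char (fun χ η hη => ?_) ?_ (hSp H hH)) ?_
  · have ho : orderOf (ι η) = orderOf η := MulEquiv.orderOf_eq ι η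
    obtain ⟨m, hm⟩ := ha (ι χ) (ι η) (by rw [ho]; exact hη)
    rw [ho] at hm
    refine ⟨m, ?_⟩
    rw [← hm]
    refine sum_congr rfl fun j _ => ?_
    have h1 : ι (χ * η ^ j) = ι χ * ι (η ^ j) := map_mul ι χ (η ^ j)
    have h2 : ι (η ^ j) = ι η ^ j := map_pow ι η j
    rw [h1, h2]
  · rw [← hs]
    exact Equiv.sum_comp ι.toEquiv a
  · rintro ⟨ρ, hρ⟩
    obtain ⟨m, hm⟩ := clf_nat hρ (ι.symm v0)
    rw [MulEquiv.apply_symm_apply] at hm
    exact hv0 m hm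

end fails

end Pool.Agent.L5helper16.PP
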