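import Pool.Agent.L5helper16.PP.P

/-!
# Abelian `2`-groups
-/

set_option autoImplicit false

namespace Pool.Agent.L5helper16.PP

open Finset

section two

variable {V : Type*} [CommGroup V] [Fintype V] [DecidableEq V] {n : ℕ}

omit [Fintype V] [CommGroup V] in
/-- rational numbers whose sums in pairs are natural numbers -/
lemma pairs {W : Finset V} {f : V → ℚ} (hW : 3 ≤ W.card) (hp : ∀ x ∈ W, ∀ y ∈ W, x ≠ y → ∃ m : ℕ, f x + f y = m)
    (hs : ∑ x ∈ W, f x ≤ n) (hn : 2 * (n + 1) < W.card) (x : V) (hx : x ∈ W) : ∃ m : ℕ, f x = m := by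
  have hWq : (2 : ℚ) * (n + 1) < W.card := by exact_mod_cast hn
  -- twice the values are integers
  have hint : ∀ x ∈ W, ∃ z : ℤ, 2 * f x = z := by
    intro x hx
    have h1 : 2 ≤ (W.erase x).card := by rw [card_erase_of_mem hx]; omega
    obtain ⟨y, hy, z, hz, hyz⟩ := one_lt_card.mp h1
    rw [mem_erase] at hy hz
    obtain ⟨a, ha⟩ := hp x hx y hy.2 (Ne.symm hy.1)
    obtain ⟨b, hb⟩ := hp x hx z hz.2 (Ne.symm hz.1)
    obtain ⟨c, hc⟩ := hp y hy.2 z hz.2 hyz
    refine ⟨a + b - c, ?_⟩
    push_cast
    linarith
  -- there is no negative value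
  have hneg : ∀ x ∈ W, 0 ≤ f x := by
    intro x hx
    by_contra h
    push Not at h
    obtain ⟨z, hz⟩ := hint x hx
    have hz1 : z ≤ -1 := by
      have : (z : ℚ) < 0 := by rw [← hz]; linarith
      have : z < 0 := by exact_mod_cast this
      omega
    have hx1 : f x ≤ -(1 / 2) := by
      have : (z : ℚ) ≤ -1 := by exact_mod_cast hz1
      linarith
    have h2 : ∀ y ∈ W.erase x, (1 / 2 : ℚ) + (-(f x) - 1 / 2) ≤ f y := by
      intro y hy
      rw [mem_erase] at hy
      obtain ⟨m, hm⟩ := hp x hx y hy.2 (Ne.symm hy.1)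
      have : (0 : ℚ) ≤ m := Nat.cast_nonneg m
      linarith
    have h3 := sum_le_sum h2
    rw [sum_const, card_erase_of_mem hx, nsmul_eq_mul] at h3
    rw [← add_sum_erase W f hx] at hs
    have hc : (((W.card - 1 : ℕ)) : ℚ) = (W.card : ℚ) - 1 := by
      rw [Nat.cast_sub (by omega)]
      push_cast
      ring
    rw [hc] at h3
    have h4 : (3 : ℚ) ≤ W.card := by exact_mod_cast hW
    nlinarith
  obtain ⟨z, hz⟩ := hint x hx
  have hz0 : 0 ≤ z := by
    have : (0 : ℚ) ≤ z := by rw [← hz]; linarith [hneg x hx]
    exact_mod_cast this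
  rcases Int.even_or_odd' z with ⟨k, hk | hk⟩
  · refine ⟨k.toNat, ?_⟩
    have hk0 : 0 ≤ k := by omega
    have h1 : ((k.toNat : ℕ) : ℚ) = k := by
      have : ((k.toNat : ℕ) : ℤ) = k := Int.toNat_of_nonneg hk0
      exact_mod_cast this
    rw [h1]
    rw [hk] at hz
    push_cast at hz
    linarith
  · exfalso
    have h1 : ∀ y ∈ W, (1 / 2 : ℚ) ≤ f y := by
      intro y hy
      obtain ⟨z', hz'⟩ := hint y hy
      have h2 : z' ≠ 0 := by
        rintro rfl
        have hy0 : f y = 0 := by
          push_cast at hz'
          linarith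
        have hxy : x ≠ y := by
          rintro rfl
          rw [hy0] at hz
          have : (z : ℚ) = 0 := by linarith
          have : z = 0 := by exact_mod_cast this
          omega
        obtain ⟨m, hm⟩ := hp x hx y hy hxy
        rw [hy0, add_zero] at hm
        rw [hm] at hz
        have : (2 * m : ℤ) = z := by exact_mod_cast hz
        omega
      have h3 : 0 ≤ z' := by
        have : (0 : ℚ) ≤ z' := by rw [← hz']; linarith [hneg y hy]
        exact_mod_cast this
      have h4 : (1 : ℚ) ≤ z' := by
        have : 1 ≤ z' := by omega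
        exact_mod_cast this
      linarith
    have h2 := sum_le_sum h1
    rw [sum_const, nsmul_eq_mul] at h2
    linarith

/-- **The criterion for abelian `2`-groups.** -/
theorem crit_two (h2 : ∀ w : V, (orderOf w).Prime → orderOf w = 2) (ht : 4 ≤ (univ.filter fun w : V => w * w = 1).card) :
    Crit V n ↔ 2 * (n + 1) < (univ.filter fun w : V => w * w = 1).card := by
  set W := univ.filter fun w : V => w * w = 1 with hW
  have hmem : ∀ w : V, w ∈ W ↔ w * w = 1 := fun w => by rw [hW, mem_filter]; simp
  have hord : ∀ w : V, w * w = 1 → w ≠ 1 → orderOf w = 2 := by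
    intro w hw hw1
    exact orderOf_eq_prime (by rw [pow_two, hw]) hw1
  have h1W : (1 : V) ∈ W := by rw [hmem, mul_one]
  obtain ⟨w1, hw1, hw11⟩ : ∃ w1 ∈ W, w1 ≠ 1 := by
    have h3 : 0 < (W.erase 1).card := by rw [card_erase_of_mem h1W]; omega
    obtain ⟨w1, hw1⟩ := card_pos.mp h3
    rw [mem_erase] at hw1
    exact ⟨w1, hw1.2, hw1.1⟩
  have hw1' := (hmem w1).mp hw1
  have hWmul : ∀ v w : V, w * w = 1 → (v * w ∈ W ↔ v ∈ W) := by
    intro v w hw
    rw [hmem, hmem]
    have : v * w * (v * w) = v * v * (w * w) := by rw [mul_mul_mul_comm]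
    rw [this, hw, mul_one]
  constructor
  · -- the counterexample
    intro hcrit
    by_contra hlt
    push Not at hlt
    -- the number of elements is even
    have heven : 2 ∣ W.card := by
      have h3 : ∑ _w ∈ W, (1 : ZMod 2) = 0 := by
        refine sum_involution (fun w _ => w * w1) (fun w hw => ?_) (fun w hw _ h => ?_) (fun w hw => ?_) (fun w hw => ?_)
        · decide
        · exact hw11 (mul_eq_left.mp h)
        · exact (hWmul w w1 hw1').mpr hw
        · rw [mul_assoc, hw1', mul_one]
      rw [sum_const, nsmul_eq_mul, mul_one] at h3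
      exact (ZMod.natCast_eq_zero_iff _ _).mp h3
    obtain ⟨s, hs⟩ := heven
    have hsn : s ≤ n + 1 := by omega
    let a : V → ℚ := fun v => if v * v = 1 then
      (1 / 2 + (if v = 1 then -1 else 0) + (if v = w1 then ((n + 1 - s : ℕ) : ℚ) else 0)) else 0
    have ha1 : a 1 = -(1 / 2) := by
      simp only [a]
      rw [if_pos (mul_one 1), if_pos trivial, if_neg (Ne.symm hw11)]
      norm_num
    obtain ⟨m, hm⟩ := hcrit a (by
      intro v w hw
      have hw2 := h2 w hw
      have hww : w * w = 1 := by rw [← pow_two, ← hw2, pow_orderOf_eq_one]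
      have hwne : w ≠ 1 := by
        rintro rfl
        rw [orderOf_one] at hw2
        omega
      rw [hw2, sum_range_succ, sum_range_one, pow_zero, mul_one, pow_one]
      have hvw : v * w ≠ v := fun h => hwne (mul_eq_left.mp h)
      by_cases hv : v * v = 1
      · have hv' : v * w * (v * w) = 1 := by
          rw [mul_mul_mul_comm, hv, hww, mul_one]
        simp only [a]
        rw [if_pos hv, if_pos hv']
        by_cases h3 : v = 1
        · have h4 : v * w ≠ 1 := by rw [h3, one_mul]; exact hwne
          rw [if_pos h3, if_neg h4, if_neg (by rw [h3]; exact Ne.symm hw11)]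
          by_cases h5 : v * w = w1
          · refine ⟨n + 1 - s, ?_⟩
            rw [if_pos h5]
            ring
          · refine ⟨0, ?_⟩
            rw [if_neg h5]
            norm_num
        · rw [if_neg h3]
          by_cases h4 : v * w = 1
          · rw [if_pos h4, if_neg (show v * w ≠ w1 by rw [h4]; exact Ne.symm hw11)]
            by_cases h5 : v = w1
            · refine ⟨n + 1 - s, ?_⟩
              rw [if_pos h5]
              ring
            · refine ⟨0, ?_⟩
              rw [if_neg h5]
              norm_num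
          · rw [if_neg h4]
            by_cases h5 : v = w1
            · have h6 : v * w ≠ w1 := by rw [← h5]; exact hvw
              refine ⟨1 + (n + 1 - s), ?_⟩
              rw [if_pos h5, if_neg h6]
              push_cast
              ring
            · rw [if_neg h5]
              by_cases h6 : v * w = w1
              · refine ⟨1 + (n + 1 - s), ?_⟩
                rw [if_pos h6]
                push_cast
                ring
              · refine ⟨1, ?_⟩
                rw [if_neg h6]
                norm_num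
      · have hv' : ¬ v * w * (v * w) = 1 := by
          rw [mul_mul_mul_comm, hww, mul_one]
          exact hv
        refine ⟨0, ?_⟩
        simp only [a]
        rw [if_neg hv, if_neg hv']
        norm_num) (by
      simp only [a]
      rw [← sum_filter, sum_add_distrib, sum_add_distrib, sum_const, sum_ite_eq' (univ.filter fun w : V => w * w = 1) 1,
        sum_ite_eq' (univ.filter fun w : V => w * w = 1) w1, if_pos h1W, if_pos hw1, ← hW, hs, nsmul_eq_mul]
      push_cast [hsn]
      ring) 1
    rw [ha1] at hm
    have : (0 : ℚ) ≤ m := Nat.cast_nonneg m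
    linarith
  · -- the sufficiency
    intro hlt a ha hs v0
    have hpair : ∀ v w : V, w * w = 1 → w ≠ 1 → ∃ m : ℕ, a v + a (v * w) = m := by
      intro v w hw hw1
      obtain ⟨m, hm⟩ := ha v w (by rw [hord w hw hw1]; exact Nat.prime_two)
      rw [hord w hw hw1, sum_range_succ, sum_range_one, pow_zero, mul_one, pow_one] at hm
      exact ⟨m, hm⟩
    -- the sum over the coset
    let C := W.image fun w => v0 * w
    have hCmem : ∀ v, v ∈ C ↔ v0⁻¹ * v ∈ W := by
      intro v
      simp only [C, mem_image]
      constructor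
      · rintro ⟨w, hw, rfl⟩
        rwa [inv_mul_cancel_left]
      · intro h
        exact ⟨_, h, mul_inv_cancel_left v0 v⟩
    have hcomp : 0 ≤ ∑ v ∈ univ \ C, a v := by
      have h3 : ∑ v ∈ univ \ C, a v = ∑ v ∈ univ \ C, a (v * w1) := by
        refine sum_nbij' (fun v => v * w1) (fun v => v * w1) (fun v hv => ?_) (fun v hv => ?_) (fun v _ => ?_)
          (fun v _ => ?_) (fun v _ => ?_)
        · rw [mem_sdiff, hCmem] at hv ⊢
          refine ⟨mem_univ _, fun h => hv.2 ?_⟩
          rw [← mul_assoc] at h
          exact (hWmul _ _ hw1').mp h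
        · rw [mem_sdiff, hCmem] at hv ⊢
          refine ⟨mem_univ _, fun h => hv.2 ?_⟩
          rw [← mul_assoc] at h
          exact (hWmul _ _ hw1').mp h
        · rw [mul_assoc, hw1', mul_one]
        · rw [mul_assoc, hw1', mul_one]
        · rw [mul_assoc, hw1', mul_one]
      have h4 : 0 ≤ ∑ v ∈ univ \ C, (a v + a (v * w1)) := by
        refine sum_nonneg fun v _ => ?_
        obtain ⟨m, hm⟩ := hpair v w1 hw1' hw11
        rw [hm]
        exact Nat.cast_nonneg m
      rw [sum_add_distrib, ← h3] at h4
      linarith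
    have hsC : ∑ w ∈ W, a (v0 * w) ≤ n := by
      have h3 : ∑ w ∈ W, a (v0 * w) = ∑ v ∈ C, a v := by
        rw [sum_image]
        intro x _ y _ h
        exact mul_left_cancel h
      rw [h3, ← hs, ← sum_sdiff (subset_univ C)]
      linarith
    obtain ⟨m, hm⟩ := pairs (W := W) (f := fun w => a (v0 * w)) (n := n) (by omega) (by
      intro x hx y hy hxy
      rw [hmem] at hx hy
      have h3 : x⁻¹ * y * (x⁻¹ * y) = 1 := by
        rw [mul_mul_mul_comm, ← _root_.mul_inv_rev, hx, inv_one, one_mul, hy]
      obtain ⟨m, hm⟩ := hpair (v0 * x) (x⁻¹ * y) h3 (fun h => hxy (inv_mul_eq_one.mp h))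
      refine ⟨m, ?_⟩
      rw [← hm]
      congr 2
      group) hsC hlt 1 h1W
    rw [mul_one] at hm
    exact ⟨m, hm⟩

end two

end Pool.Agent.L5helper16.PP
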